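import Mathlib

/-!
MODULE Ram (S-M, Mathlib only).  Monochromatic differences.

PROOF.  Hindman's theorem (`Hindman.exists_FS_of_finite_cover` for the additive semigroup `ℕ+`, or
`Hindman.FS_partition_regular`) applied to the colouring `n ↦ κ n` of `ℕ+`: there is a sequence `a₀, a₁, ...` of
positive integers all of whose finite sums (`Hindman.FS`) have the same colour `c`.  Let
`u k = a₀ + ... + a_(k-1)`; for `j < k`, `u k - u j = a_j + ... + a_(k-1)` is a finite sum.
(Or prove Ramsey's theorem for pairs directly: infinite Ramsey for the colouring `{j < k} ↦ κ (k - j)`.)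
-/

set_option autoImplicit false

namespace Pool.Agent.Work.MP_ae9a8c_lc.FI

private theorem fs_sum (n : ℕ) : ∀ a : Stream' ℕ+, ∃ m ∈ Hindman.FS a,
    (m : ℕ) = ∑ i ∈ Finset.range (n + 1), ((a.get i : ℕ+) : ℕ) := by
  induction n with
  | zero =>
    intro a
    exact ⟨a.head, Hindman.FS.head' a, by simp [Stream'.head]⟩
  | succ n ih =>
    intro a
    obtain ⟨m, hm, he⟩ := ih a.tail
    refine ⟨a.head + m, Hindman.FS.cons' a m hm, ?_⟩
    rw [Finset.sum_range_succ', PNat.add_coe, he, add_comm]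
    rfl

theorem ramsey_diff {C : Type} [Finite C] (κ : ℕ → C) :
    ∃ (u : ℕ → ℕ) (c : C), StrictMono u ∧ ∀ j k : ℕ, j < k → κ (u k - u j) = c := by
  obtain ⟨S, ⟨c, rfl⟩, a, ha⟩ := Hindman.exists_FS_of_finite_cover
    (Set.range fun c : C => {m : ℕ+ | κ m = c}) (Set.finite_range _)
    (fun m _ => ⟨_, ⟨κ m, rfl⟩, rfl⟩)
  refine ⟨fun k => ∑ i ∈ Finset.range k, ((a.get i : ℕ+) : ℕ), c,
    strictMono_nat_of_lt_succ fun k => ?_, fun j k hjk => ?_⟩
  · show ∑ i ∈ Finset.range k, ((a.get i : ℕ+) : ℕ) <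
      ∑ i ∈ Finset.range (k + 1), ((a.get i : ℕ+) : ℕ)
    rw [Finset.sum_range_succ]
    exact Nat.lt_add_of_pos_right (a.get k).pos
  · obtain ⟨d, rfl⟩ : ∃ d, k = j + (d + 1) := ⟨k - j - 1, by omega⟩
    obtain ⟨m, hm, he⟩ := fs_sum d (a.drop j)
    have h1 : κ m = c := ha (Hindman.FS_iter_tail_sub_FS a j hm)
    have h2 : (∑ i ∈ Finset.range (j + (d + 1)), ((a.get i : ℕ+) : ℕ)) -
        ∑ i ∈ Finset.range j, ((a.get i : ℕ+) : ℕ) = m := by
      rw [Finset.sum_range_add, Nat.add_sub_cancel_left, he]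
      refine Finset.sum_congr rfl fun i _ => ?_
      rw [Stream'.get_drop]
    show κ ((∑ i ∈ Finset.range (j + (d + 1)), ((a.get i : ℕ+) : ℕ)) -
        ∑ i ∈ Finset.range j, ((a.get i : ℕ+) : ℕ)) = c
    rw [h2, h1]

end Pool.Agent.Work.MP_ae9a8c_lc.FI
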