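import Pool.Agent.Work.MP_ae9a8c_lc.FI.Pack
import Pool.Agent.Work.MP_ae9a8c_lc.FI.Ram

/-!
MODULE Abs (M).  The translation lemma on `ℤ^r`.

PROOF.  `μ` invariant (`exists_mean`), `dist p p' = μ {a | G p a ≠ G p' a}`.  Let `ε > 0` with `6 r ε < 1`, `κ` the
colouring of `net`.  `dist` satisfies the triangle inequality and, for `p_v`, `p'_v` the shifts of `p`, `p'` by `v`
(`hshift`), `dist p_v p'_v = dist p p'` (invariance).  Fix a choice `sh p v` of the shift.
Colour `n : ℕ` by `(κ (f l n))_l : Fin r → C`.  `ramsey_diff` gives `u` and `c`; let `n₀ = u 1 - u 0`, of colour `c`.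
For every `j` let `col j = (κ (sh (f l n₀) (u j • e_l)))_l`, `e_l = Pi.single l 1`; finitely many colours, so there are
`j < k` with `col j = col k` (`Finite.exists_ne_map_eq_of_infinite`).  Let `n = u k - u j ≥ 1`, of colour `c`.
(1) `dist (sh (f l n₀) (n e_l)) (f l n₀) ≤ 2 ε`: shift by `- u j e_l` of the two functions of colour
`col j l = col k l`.
(2) `dist (f l n) (f l n₀) ≤ 2 ε`, and the same for the shifts by `n e_l`.
Hence `dist (sh (f l n) (n e_l)) (f l n) ≤ 6 ε`, that is `μ {a | G (f l n) (a + n e_l) ≠ G (f l n) a} ≤ 6 ε`.  The union over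
`l` has measure `≤ 6 r ε < 1 = μ univ` (`mean_iUnion_le`), so its complement is not empty.
-/

set_option autoImplicit false

namespace Pool.Agent.Work.MP_ae9a8c_lc.FI

theorem translation {P T : Type} {r : ℕ} {G : P → (Fin r → ℤ) → T} {D : ℕ} (hG : Growth G D)
    (hshift : ∀ (p : P) (v : Fin r → ℤ), ∃ p' : P, ∀ a, G p' a = G p (a + v))
    (f : Fin r → ℕ → P) :
    ∃ n : ℕ, 1 ≤ n ∧ ∃ a : Fin r → ℤ, ∀ l : Fin r,
      G (f l n) (a + Pi.single l (n : ℤ)) = G (f l n) a := by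
  classical
  obtain ⟨μ, hμ, hinv⟩ := exists_mean r
  have hr : (0 : ℝ) < 6 * r + 6 := by positivity
  obtain ⟨C, hC, κ, hκ⟩ := net hμ hG (ε := 1 / (6 * r + 6)) (by positivity)
  set ε : ℝ := 1 / (6 * r + 6) with hε
  choose sh hsh using hshift
  obtain ⟨u, c, hu, huc⟩ := ramsey_diff (C := Fin r → C) fun n l => κ (f l n)
  set n₀ : ℕ := u 1 - u 0 with hn₀
  have hc0 : (fun l => κ (f l n₀)) = c := huc 0 1 Nat.zero_lt_one
  obtain ⟨j', k', hjk', hcol'⟩ := Finite.exists_ne_map_eq_of_infinite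
    (fun j : ℕ => fun l : Fin r => κ (sh (f l n₀) (Pi.single l ((u j : ℕ) : ℤ))))
  obtain ⟨j, k, hjk, hcol⟩ : ∃ j k : ℕ, j < k ∧ ∀ l : Fin r,
      κ (sh (f l n₀) (Pi.single l ((u j : ℕ) : ℤ))) =
        κ (sh (f l n₀) (Pi.single l ((u k : ℕ) : ℤ))) := by
    rcases lt_or_gt_of_ne hjk' with h | h
    · exact ⟨j', k', h, fun l => congrFun hcol' l⟩
    · exact ⟨k', j', h, fun l => (congrFun hcol' l).symm⟩
  have hlt := hu hjk
  set n : ℕ := u k - u j with hn
  have hcn : (fun l => κ (f l n)) = c := huc j k hjk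
  refine ⟨n, by omega, ?_⟩
  -- the bad sets
  have hbad : ∀ l : Fin r, μ {a | G (f l n) (a + Pi.single l (n : ℤ)) ≠ G (f l n) a} ≤ 6 * ε := by
    intro l
    have h1 : μ {a | G (f l n₀) (a + Pi.single l (n : ℤ)) ≠ G (f l n₀) a} ≤ 2 * ε := by
      have h2 := hκ _ _ (hcol l).symm
      rw [← hinv _ (Pi.single l ((u j : ℕ) : ℤ))]
      have h3 : {a : Fin r → ℤ | a + Pi.single l ((u j : ℕ) : ℤ) ∈
          {a | G (f l n₀) (a + Pi.single l (n : ℤ)) ≠ G (f l n₀) a}} =
          {x | G (sh (f l n₀) (Pi.single l ((u k : ℕ) : ℤ))) x ≠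
            G (sh (f l n₀) (Pi.single l ((u j : ℕ) : ℤ))) x} := by
        ext a
        show G (f l n₀) (a + Pi.single l ((u j : ℕ) : ℤ) + Pi.single l (n : ℤ)) ≠
          G (f l n₀) (a + Pi.single l ((u j : ℕ) : ℤ)) ↔ _
        rw [Set.mem_ofPred_eq, hsh, hsh, add_assoc, ← Pi.single_add]
        have h4 : ((u j : ℕ) : ℤ) + (n : ℤ) = ((u k : ℕ) : ℤ) := by
          rw [hn]
          omega
        rw [h4]
      rw [h3]
      exact h2
    have h5 : μ {a | G (f l n) a ≠ G (f l n₀) a} ≤ 2 * ε :=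
      hκ _ _ (congrFun (hcn.trans hc0.symm) l)
    have h6 : μ {a | G (f l n) (a + Pi.single l (n : ℤ)) ≠
        G (f l n₀) (a + Pi.single l (n : ℤ))} ≤ 2 * ε := by
      rw [← hinv _ (Pi.single l (n : ℤ))] at h5
      exact h5
    have h7 : {a | G (f l n) (a + Pi.single l (n : ℤ)) ≠ G (f l n) a} ⊆
        ({a | G (f l n) (a + Pi.single l (n : ℤ)) ≠ G (f l n₀) (a + Pi.single l (n : ℤ))} ∪
          {a | G (f l n₀) (a + Pi.single l (n : ℤ)) ≠ G (f l n₀) a}) ∪
          {a | G (f l n) a ≠ G (f l n₀) a} := by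
      intro a ha
      by_contra hc
      simp only [Set.mem_union, Set.mem_ofPred_eq, not_or, not_not] at hc
      exact ha (hc.1.1.trans (hc.1.2.trans hc.2.symm))
    refine (mean_mono hμ h7).trans ?_
    have h8 := mean_union_le hμ
      ({a | G (f l n) (a + Pi.single l (n : ℤ)) ≠ G (f l n₀) (a + Pi.single l (n : ℤ))} ∪
          {a | G (f l n₀) (a + Pi.single l (n : ℤ)) ≠ G (f l n₀) a})
      {a | G (f l n) a ≠ G (f l n₀) a}
    have h9 := mean_union_le hμ
      {a | G (f l n) (a + Pi.single l (n : ℤ)) ≠ G (f l n₀) (a + Pi.single l (n : ℤ))}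
      {a | G (f l n₀) (a + Pi.single l (n : ℤ)) ≠ G (f l n₀) a}
    linarith
  by_contra hcon
  push Not at hcon
  have huniv : (⋃ l : Fin r, {a | G (f l n) (a + Pi.single l (n : ℤ)) ≠ G (f l n) a}) =
      Set.univ := by
    refine Set.eq_univ_of_forall fun a => ?_
    obtain ⟨l, hl⟩ := hcon a
    exact Set.mem_iUnion.2 ⟨l, hl⟩
  have h1 := mean_iUnion_le hμ fun l : Fin r =>
    {a | G (f l n) (a + Pi.single l (n : ℤ)) ≠ G (f l n) a}
  rw [huniv, hμ.univ] at h1
  have h2 := h1.trans (Finset.sum_le_sum fun l _ => hbad l)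
  rw [Finset.sum_const, Finset.card_univ, Fintype.card_fin, nsmul_eq_mul, hε] at h2
  have h3 : (r : ℝ) * (6 * (1 / (6 * r + 6))) < 1 := by
    rw [mul_one_div, ← mul_div_assoc, div_lt_one hr]
    linarith
  linarith

end Pool.Agent.Work.MP_ae9a8c_lc.FI
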