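import Mathlib

/-!
MODULE AdjZ (S, Mathlib only).

PROOF.  See `FieldL.lean`: a root `z` of `cyclotomic q Ω` in `Ω = AlgebraicClosure K` is a primitive `q`-th root of
unity; `L' = L ⊔ adjoin K {z}` (`IntermediateField.finiteDimensional_sup`, `adjoin.finiteDimensional`).
-/

set_option autoImplicit false

namespace Pool.Agent.Work.MP_ae9a8c_lc.FI

theorem exists_adj {K : Type} [Field K] [CharZero K] {q : ℕ} (hq : q.Prime)
    (L : IntermediateField K (AlgebraicClosure K)) (hL : FiniteDimensional K L) :
    ∃ L' : IntermediateField K (AlgebraicClosure K), L ≤ L' ∧ FiniteDimensional K L' ∧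
      ∃ ζ : L', IsPrimitiveRoot ζ q := by
  have hq0 : NeZero (q : AlgebraicClosure K) := ⟨by exact_mod_cast hq.ne_zero⟩
  have hdeg : (Polynomial.cyclotomic q (AlgebraicClosure K)).degree ≠ 0 := by
    rw [Polynomial.degree_cyclotomic]
    have := Nat.totient_pos.2 hq.pos
    exact_mod_cast this.ne'
  obtain ⟨z, hz⟩ := IsAlgClosed.exists_root _ hdeg
  have hz' : IsPrimitiveRoot z q := Polynomial.isRoot_cyclotomic_iff.1 hz
  have hfin : FiniteDimensional K (IntermediateField.adjoin K {z}) :=
    IntermediateField.adjoin.finiteDimensional (Algebra.IsIntegral.isIntegral z)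
  refine ⟨L ⊔ IntermediateField.adjoin K {z}, le_sup_left,
    IntermediateField.finiteDimensional_sup _ _, ⟨z, ?_⟩, ?_⟩
  · exact (le_sup_right : IntermediateField.adjoin K {z} ≤ _)
      (IntermediateField.mem_adjoin_simple_self K z)
  · exact IsPrimitiveRoot.of_map_of_injective (f := (L ⊔ IntermediateField.adjoin K {z}).val) hz'
      (L ⊔ IntermediateField.adjoin K {z}).val.injective

end Pool.Agent.Work.MP_ae9a8c_lc.FI
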