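import Pool.Agent.Work.MP_ae9a8c_lc.FI.Defs

/-!
MODULE Grow (M, Sauer-Shelah).  No shattering gives polynomial growth.

PROOF.  (shat_mono) restrict `s` to the first `N` points (`Fin.castLE`), and for `A ⊆ Fin N` use the image of
`A`.
(growth) Let `N` be such that no value `t` is shattered on `N` points.  Given `k`, `s`, `Q`.  For `t : T` let
`𝒜 t : Finset (Finset (Fin k))` be the image of `Q` under `p ↦ {i | G p (s i) = t}`.  The map
`p ↦ (t ↦ {i | G p (s i) = t})` is injective on `Q` with values in `∏ t, 𝒜 t` (`Fintype.piFinset`), so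
`Q.card ≤ ∏ t, (𝒜 t).card`.  If `𝒜 t` shatters a set `S` of size `≥ N` (`Finset.Shatters`) then `t` is shattered on
`N` points (enumerate `N` elements of `S`), so `(𝒜 t).vcDim < N`, and by Sauer-Shelah
(`Finset.card_le_card_shatterer`, `Finset.card_shatterer_le_sum_vcDim`)
`(𝒜 t).card ≤ ∑ i ≤ N - 1, (k choose i) ≤ (k + 1) ^ N` (`N = 0` is impossible unless `P` is empty: if `N = 0` then
`¬ Shat` gives `IsEmpty P`; the sum is at most the number of functions `Fin N → Option (Fin k)` or use
`Nat.choose_le_pow`).  So `Q.card ≤ ((k + 1) ^ N) ^ (Nat.card T) = (k + 1) ^ (N * Nat.card T)`.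
-/

set_option autoImplicit false

namespace Pool.Agent.Work.MP_ae9a8c_lc.FI

theorem shat_mono {P X T : Type} {G : P → X → T} {t : T} {N M : ℕ} (hNM : N ≤ M)
    (h : Shat G t M) : Shat G t N := by
  obtain ⟨s, hs⟩ := h
  refine ⟨fun i => s (Fin.castLE hNM i), fun A => ?_⟩
  obtain ⟨p, hp⟩ := hs (Fin.castLE hNM '' A)
  refine ⟨p, fun i => ?_⟩
  rw [hp, (Fin.castLE_injective hNM).mem_set_image]

private theorem sum_choose_le (k d : ℕ) :
    ∑ i ∈ Finset.Iic d, k.choose i ≤ (k + 1) ^ d := by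
  rw [add_pow]
  have h1 : Finset.Iic d = Finset.range (d + 1) := by
    ext i
    simp
  rw [h1]
  refine Finset.sum_le_sum fun i hi => ?_
  have h2 : 1 ≤ d.choose i := Nat.choose_pos (by
    rw [Finset.mem_range] at hi
    omega)
  calc k.choose i ≤ k ^ i := Nat.choose_le_pow k i
    _ = k ^ i * 1 ^ (d - i) * 1 := by simp
    _ ≤ k ^ i * 1 ^ (d - i) * (d.choose i) := Nat.mul_le_mul_left _ h2

private theorem card_le_of_shat {P X T : Type} {G : P → X → T} {t : T} {N : ℕ}
    (hN : ¬ Shat G t N) {k : ℕ} (s : Fin k → X) (𝒜 : Finset (Finset (Fin k)))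
    (h𝒜 : ∀ u ∈ 𝒜, ∃ p : P, ∀ i, i ∈ u ↔ G p (s i) = t) : 𝒜.card ≤ (k + 1) ^ N := by
  classical
  have h1 : 𝒜.vcDim ≤ N := by
    unfold Finset.vcDim
    refine Finset.sup_le fun S hS => ?_
    rw [Finset.mem_shatterer] at hS
    by_contra hlt
    obtain ⟨S', hS', hcard⟩ := Finset.exists_subset_card_eq (not_le.mp hlt).le
    have hsh : 𝒜.Shatters S' := hS.mono_right hS'
    apply hN
    let e : S' ≃ Fin N := S'.equivFinOfCardEq hcard
    refine ⟨fun i => s (e.symm i), fun A => ?_⟩
    obtain ⟨u, hu, hu2⟩ := hsh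
      (show S'.filter (fun x => ∃ h : x ∈ S', e ⟨x, h⟩ ∈ A) ⊆ S' from Finset.filter_subset _ _)
    obtain ⟨p, hp⟩ := h𝒜 u hu
    refine ⟨p, fun i => ?_⟩
    rw [← hp]
    have h3 : ((e.symm i : S') : Fin k) ∈ S' ∩ u ↔
        ((e.symm i : S') : Fin k) ∈ S'.filter (fun x => ∃ h : x ∈ S', e ⟨x, h⟩ ∈ A) := by
      rw [hu2]
    rw [Finset.mem_inter, Finset.mem_filter] at h3
    have h4 := (e.symm i).2
    constructor
    · intro h5
      obtain ⟨_, _, h7⟩ := h3.mp ⟨h4, h5⟩
      simpa using h7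
    · intro h5
      refine (h3.mpr ⟨h4, h4, ?_⟩).2
      simpa using h5
  calc 𝒜.card ≤ 𝒜.shatterer.card := Finset.card_le_card_shatterer 𝒜
    _ ≤ ∑ i ∈ Finset.Iic 𝒜.vcDim, (Fintype.card (Fin k)).choose i :=
        Finset.card_shatterer_le_sum_vcDim
    _ ≤ (k + 1) ^ 𝒜.vcDim := by
        rw [Fintype.card_fin]
        exact sum_choose_le k _
    _ ≤ (k + 1) ^ N := Nat.pow_le_pow_right (Nat.succ_pos k) h1

theorem growth {P X T : Type} [Finite T] {G : P → X → T} (h : ∀ t : T, ∃ N : ℕ, ¬ Shat G t N) :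
    ∃ D : ℕ, Growth G D := by
  classical
  cases nonempty_fintype T
  choose N hN using h
  have hN0 : ∀ t, ¬ Shat G t (Finset.univ.sup N) := fun t ht =>
    hN t (shat_mono (Finset.le_sup (Finset.mem_univ t)) ht)
  refine ⟨Finset.univ.sup N * Fintype.card T, ?_⟩
  intro k s Q hQ
  have h1 : Q.card ≤ ∏ t : T,
      (Q.image (fun p => Finset.univ.filter (fun i => G p (s i) = t))).card := by
    rw [← Fintype.card_piFinset]
    refine Finset.card_le_card_of_injOn
      (fun p t => Finset.univ.filter (fun i => G p (s i) = t)) ?_ ?_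
    · intro p hp
      rw [Finset.mem_coe, Fintype.mem_piFinset]
      intro t
      exact Finset.mem_image_of_mem _ hp
    · intro p hp p' hp' heq
      apply hQ p hp p' hp'
      intro i
      have h2 := congrFun heq (G p (s i))
      have h3 : i ∈ Finset.univ.filter (fun j => G p (s j) = G p (s i)) := by simp
      have h4 : i ∈ Finset.univ.filter (fun j => G p' (s j) = G p (s i)) := by
        rw [← show Finset.univ.filter (fun j => G p (s j) = G p (s i)) =
          Finset.univ.filter (fun j => G p' (s j) = G p (s i)) from h2]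
        exact h3
      exact (Finset.mem_filter.mp h4).2.symm
  calc Q.card ≤ ∏ t : T,
      (Q.image (fun p => Finset.univ.filter (fun i => G p (s i) = t))).card := h1
    _ ≤ ∏ _t : T, (k + 1) ^ (Finset.univ.sup N) := by
        refine Finset.prod_le_prod' fun t _ => ?_
        refine card_le_of_shat (hN0 t) s _ fun u hu => ?_
        obtain ⟨p, _, rfl⟩ := Finset.mem_image.mp hu
        exact ⟨p, fun i => by simp⟩
    _ = (k + 1) ^ (Finset.univ.sup N * Fintype.card T) := by
        rw [Finset.prod_const, Finset.card_univ, pow_mul]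

end Pool.Agent.Work.MP_ae9a8c_lc.FI
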