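import Pool.Agent.Work.MP_ae9a8c_lc.FI.Abs
import Pool.Agent.Work.MP_ae9a8c_lc.FI.Grow

/-!
MODULE GenOf (M).  No shattering gives property (E).

PROOF.  Given `r`, `c`, `d`.  Let `P = B × {d // d ∈ J}`, `X = {x // x ∈ J}` (`J` the Jacobson radical),
`G (c, d) x = F (1 - c (x + d))`; by `growth` it has polynomial growth.  Let
`V : (Fin r → ℤ) → X`, `V a = ∑ a_l d_l`, and `G' (c, d) a = G (c, d) (V a)`, also of polynomial growth (compose the points with
`V`).  `hshift`: `G' (c, d) (a + v) = G' (c, d + V v) a`.  Let `f l n = (c_l n⁻¹, 0)` for `n ≥ 1` (`n⁻¹` the inverse of the unit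
`(n : B)`; anything for `n = 0`).  `translation` gives `n ≥ 1`, `a`.  Let `x = n⁻¹ V a ∈ J`.  Then
`G' (f l n) a = F (1 - c_l n⁻¹ V a) = F (1 - c_l x)` and
`G' (f l n) (a + n e_l) = F (1 - c_l n⁻¹ (V a + n d_l)) = F (1 - c_l (x + d_l))`.
-/

set_option autoImplicit false

namespace Pool.Agent.Work.MP_ae9a8c_lc.FI

/-- No value of `F` is shattered by the functions `x ↦ F (1 - c (x + d))` on the Jacobson radical. -/
def NoShat {B T : Type} [CommRing B] (F : B → T) : Prop :=
  ∀ t : T, ∃ N : ℕ, ¬ ∃ s : Fin N → B, (∀ i, s i ∈ Ideal.jacobson (⊥ : Ideal B)) ∧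
    ∀ A : Set (Fin N), ∃ c d : B, d ∈ Ideal.jacobson (⊥ : Ideal B) ∧
      ∀ i, F (1 - c * (s i + d)) = t ↔ i ∈ A

theorem gen_of {B T : Type} [CommRing B] [Finite T] (hnat : ∀ n : ℕ, n ≠ 0 → IsUnit (n : B))
    (F : B → T) (h : NoShat F) : Gen F := by
  classical
  intro r c d hd
  -- the functions on the Jacobson radical
  obtain ⟨D, hD⟩ : ∃ D : ℕ, Growth (fun (p : B × {d : B // d ∈ Ideal.jacobson (⊥ : Ideal B)})
      (x : {x : B // x ∈ Ideal.jacobson (⊥ : Ideal B)}) =>
        F (1 - p.1 * ((x : B) + (p.2 : B)))) D := by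
    refine growth fun t => ?_
    obtain ⟨N, hN⟩ := h t
    refine ⟨N, fun hs => hN ?_⟩
    obtain ⟨s, hs⟩ := hs
    refine ⟨fun i => (s i : B), fun i => (s i).2, fun A => ?_⟩
    obtain ⟨p, hp⟩ := hs A
    exact ⟨p.1, (p.2 : B), p.2.2, hp⟩
  have hVmem : ∀ a : Fin r → ℤ,
      (∑ l, (a l : B) * d l) ∈ Ideal.jacobson (⊥ : Ideal B) := fun a =>
    Ideal.sum_mem _ fun l _ => Ideal.mul_mem_left _ _ (hd l)
  have hVadd : ∀ a b : Fin r → ℤ,
      (∑ l, ((a + b) l : B) * d l) = (∑ l, (a l : B) * d l) + ∑ l, (b l : B) * d l := by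
    intro a b
    rw [← Finset.sum_add_distrib]
    refine Finset.sum_congr rfl fun l _ => ?_
    rw [Pi.add_apply]
    push_cast
    ring
  have hVsingle : ∀ (l : Fin r) (n : ℤ),
      (∑ l', ((Pi.single l n : Fin r → ℤ) l' : B) * d l') = (n : B) * d l := by
    intro l n
    rw [Finset.sum_eq_single l]
    · rw [Pi.single_eq_same]
    · intro b _ hb
      rw [Pi.single_eq_of_ne hb]
      simp
    · intro hl
      exact absurd (Finset.mem_univ l) hl
  obtain ⟨n, hn, a, ha⟩ := translation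
    (P := B × {d : B // d ∈ Ideal.jacobson (⊥ : Ideal B)}) (T := T) (r := r) (D := D)
    (G := fun p a => F (1 - p.1 * ((∑ l, (a l : B) * d l) + (p.2 : B))))
    (by
      intro k s Q hQ
      exact hD k (fun i => ⟨∑ l, (s i l : B) * d l, hVmem (s i)⟩) Q hQ)
    (by
      intro p v
      refine ⟨(p.1, ⟨(p.2 : B) + ∑ l, (v l : B) * d l, Ideal.add_mem _ p.2.2 (hVmem v)⟩), ?_⟩
      intro a
      show F (1 - p.1 * ((∑ l, (a l : B) * d l) + ((p.2 : B) + ∑ l, (v l : B) * d l))) =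
        F (1 - p.1 * ((∑ l, ((a + v) l : B) * d l) + (p.2 : B)))
      rw [hVadd a v]
      congr 1
      ring)
    (fun l n => (c l * Ring.inverse (n : B), ⟨0, Ideal.zero_mem _⟩))
  have hu : IsUnit (n : B) := hnat n (by omega)
  have hinv : Ring.inverse (n : B) * (n : B) = 1 := Ring.inverse_mul_cancel _ hu
  refine ⟨Ring.inverse (n : B) * ∑ l, (a l : B) * d l, Ideal.mul_mem_left _ _ (hVmem a), ?_⟩
  intro l
  have h1 := ha l
  have h2 : F (1 - c l * Ring.inverse (n : B) *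
      ((∑ l', ((a + Pi.single l (n : ℤ) : Fin r → ℤ) l' : B) * d l') + 0)) =
      F (1 - c l * Ring.inverse (n : B) * ((∑ l', (a l' : B) * d l') + 0)) := h1
  rw [hVadd, hVsingle] at h2
  have e1 : 1 - c l * Ring.inverse (n : B) *
      ((∑ l', (a l' : B) * d l') + ((n : ℤ) : B) * d l + 0) =
      1 - c l * (Ring.inverse (n : B) * (∑ l', (a l' : B) * d l') + d l) := by
    have : c l * Ring.inverse (n : B) * (((n : ℤ) : B) * d l) = c l * d l := by
      calc c l * Ring.inverse (n : B) * (((n : ℤ) : B) * d l)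
          = c l * (Ring.inverse (n : B) * (n : B)) * d l := by push_cast; ring
        _ = c l * d l := by rw [hinv, mul_one]
    linear_combination -this
  have e2 : 1 - c l * Ring.inverse (n : B) * ((∑ l', (a l' : B) * d l') + 0) =
      1 - c l * (Ring.inverse (n : B) * ∑ l', (a l' : B) * d l') := by
    ring
  rw [e1, e2] at h2
  exact h2

end Pool.Agent.Work.MP_ae9a8c_lc.FI
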