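import Pool.Agent.Work.MP_ae9a8c_lc.FI.Pat
import Pool.Agent.Work.MP_ae9a8c_lc.FI.GenOf

/-!
MODULE Contra (S-M).  The contradiction.

PROOF.  `gen_of` gives `Gen F` (`ZMod q` is finite, `q` prime).  `G : B → {x // x ∈ J} → ZMod q`, `G b x = F (1 - b x)`
shatters no value on many points (take `d = 0` in `h`), so by `growth` it has growth `(k + 1)^D`.  `patterns` gives
`2^n ≤ (n + 1)^D` for all `n`, impossible for large `n` (`tendsto_pow_const_div_const_pow_of_one_lt` or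
`Nat.exists_...`).
-/

set_option autoImplicit false

namespace Pool.Agent.Work.MP_ae9a8c_lc.FI

theorem contra {B : Type} [CommRing B] {q : ℕ} {F : B → ZMod q} {y : B} (h : Core B q F y)
    (hN : NoShat F) : False := by
  classical
  have hq := h.qp
  haveI : NeZero q := ⟨hq.ne_zero⟩
  have hG : Gen F := gen_of h.nat F hN
  obtain ⟨D, hD⟩ : ∃ D : ℕ, Growth (fun (b : B) (x : {x : B // x ∈ Ideal.jacobson (⊥ : Ideal B)}) =>
      F (1 - b * (x : B))) D := by
    refine growth fun t => ?_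
    obtain ⟨N, hN'⟩ := hN t
    refine ⟨N, fun ⟨s, hs⟩ => hN' ⟨fun i => (s i : B), fun i => (s i).2, fun A => ?_⟩⟩
    obtain ⟨b, hb⟩ := hs A
    refine ⟨b, 0, Ideal.zero_mem _, fun i => ?_⟩
    rw [add_zero]
    exact hb i
  have key : ∀ n : ℕ, 2 ^ n ≤ (n + 1) ^ D := by
    intro n
    obtain ⟨x, hx, P, hP, -, hPi⟩ := patterns h hG n
    have := hD n (fun i => ⟨x i, hx i⟩) P (fun b hb b' hb' hh => hPi b hb b' hb' hh)
    rwa [hP] at this
  have hlim := tendsto_pow_const_div_const_pow_of_one_lt D (show (1 : ℝ) < 2 by norm_num)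
  have h2 : ∀ᶠ n : ℕ in Filter.atTop, (n : ℝ) ^ D / 2 ^ n < 1 / 2 :=
    hlim.eventually (gt_mem_nhds (by norm_num))
  obtain ⟨n, hn1, hn2⟩ := (h2.and (Filter.eventually_ge_atTop 1)).exists
  obtain ⟨k, rfl⟩ : ∃ k, n = k + 1 := ⟨n - 1, by omega⟩
  have h3 : ((k : ℝ) + 1) ^ D / 2 ^ (k + 1) < 1 / 2 := by exact_mod_cast hn1
  have h4 : (2 : ℝ) ^ k ≤ ((k : ℝ) + 1) ^ D := by exact_mod_cast key k
  rw [div_lt_iff₀ (by positivity), pow_succ] at h3
  linarith

end Pool.Agent.Work.MP_ae9a8c_lc.FI
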