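import Pool.Agent.Work.MP_ae9a8c_lc.FI.Defs

/-!
MODULE Conv (S).  Principal units in `L` and in the integral closure `B` of `O` in `L`.

PROOF.  `PU u'` is `u' - 1 ∈ jacobson ⊥`, that is `u' - 1` is in every maximal ideal (`Ideal.jacobson`,
`Submodule.mem_sInf`, `bot_le`).  (prU_iff) `u' = (u - 1) + 1`.  (finPrU_conv) from `FinPrU`: if `u = t w^q` with `u`, `w`
principal units then `t = u (w⁻¹)^q` is one too (`w` is a unit of `B`), so take for `T'` the elements of `B` whose
image in `L` is in `T` (`Finset.preimage` along the injective map `B → L`).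
-/

set_option autoImplicit false

namespace Pool.Agent.Work.MP_ae9a8c_lc.FI

private theorem Conv_jac {B : Type} [CommRing B] (x : B) :
    x ∈ Ideal.jacobson (⊥ : Ideal B) ↔ ∀ M : Ideal B, M.IsMaximal → x ∈ M := by
  rw [Ideal.jacobson, Submodule.mem_sInf]
  constructor
  · intro h M hM
    exact h M ⟨bot_le, hM⟩
  · intro h M hM
    exact h M hM.2

theorem prU_iff {K L : Type} [Field K] (O : ValuationSubring K) [Field L] [Algebra K L] (u : L) :
    PrU O u ↔ ∃ u' : integralClosure O L, (u' : L) = u ∧ PU u' := by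
  constructor
  · rintro ⟨h, hM⟩
    refine ⟨⟨u - 1, h⟩ + 1, ?_, ?_⟩
    · push_cast
      ring
    · unfold PU
      rw [add_sub_cancel_right, Conv_jac]
      exact hM
  · rintro ⟨u', rfl, hu⟩
    unfold PU at hu
    rw [Conv_jac] at hu
    exact ⟨(u' - 1).2, fun M hM => hu M hM⟩

private theorem Conv_inv {B : Type} [CommRing B] {w : B} (h : PU w) :
    ∃ v : B, PU v ∧ w * v = 1 := by
  unfold PU at h
  have hu : IsUnit w := by
    have h1 := Ideal.mem_jacobson_bot.mp h 1
    rwa [mul_one, sub_add_cancel] at h1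
  obtain ⟨v, hv⟩ := hu.exists_right_inv
  refine ⟨v, ?_, hv⟩
  unfold PU
  have : v - 1 = (w - 1) * (-v) := by
    linear_combination hv
  rw [this]
  exact Ideal.mul_mem_right _ _ h

private theorem Conv_mul {B : Type} [CommRing B] {u v : B} (hu : PU u) (hv : PU v) :
    PU (u * v) := by
  unfold PU at *
  have : u * v - 1 = (u - 1) * v + (v - 1) := by ring
  rw [this]
  exact Ideal.add_mem _ (Ideal.mul_mem_right _ _ hu) hv

private theorem Conv_pow {B : Type} [CommRing B] {u : B} (hu : PU u) (n : ℕ) :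
    PU (u ^ n) := by
  induction n with
  | zero =>
    unfold PU
    rw [pow_zero, sub_self]
    exact Ideal.zero_mem _
  | succ n ih =>
    rw [pow_succ]
    exact Conv_mul ih hu

theorem finPrU_conv {K L : Type} [Field K] (O : ValuationSubring K) [Field L] [Algebra K L]
    {q : ℕ} (h : FinPrU O L q) :
    ∃ T : Finset (integralClosure O L), ∀ u : integralClosure O L, PU u →
      ∃ t ∈ T, ∃ w : integralClosure O L, PU w ∧ u = t * w ^ q := by
  classical
  obtain ⟨T, hT⟩ := h
  have hinj : Function.Injective (fun x : integralClosure O L => (x : L)) := Subtype.val_injective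
  refine ⟨T.preimage _ hinj.injOn, fun u hu => ?_⟩
  obtain ⟨t, htT, w, hw, huw⟩ := hT (u : L) ((prU_iff O (u : L)).mpr ⟨u, rfl, hu⟩)
  obtain ⟨w', rfl, hw'⟩ := (prU_iff O w).mp hw
  obtain ⟨v, hv, hwv⟩ := Conv_inv hw'
  have h1 : w' ^ q * v ^ q = 1 := by rw [← mul_pow, hwv, one_pow]
  have h2 : ((u * v ^ q : integralClosure O L) : L) = t := by
    have h3 : ((w' ^ q * v ^ q : integralClosure O L) : L) = 1 := by rw [h1]; rfl
    push_cast at h3 ⊢
    rw [huw, mul_assoc, h3, mul_one]
  refine ⟨u * v ^ q, ?_, w', hw', ?_⟩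
  · rw [Finset.mem_preimage, h2]
    exact htT
  · rw [mul_assoc, mul_comm (v ^ q), h1, mul_one]

end Pool.Agent.Work.MP_ae9a8c_lc.FI
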