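import Mathlib

/-!
MODULE Cyc (S-M, Mathlib only).

PROOF.  Suppose `ζ + ζ^j - ζ^(j+1) = 0`, that is `(1 - ζ)(1 - ζ^j) = 1`.  So `a = 1 - ζ` has inverse
`b = 1 - ζ^j`, and `b` is integral over `ℤ`.  For `1 ≤ i < q`, `1 - ζ = 1 - (ζ^i)^m` for some `m` (`i m ≡ 1 mod q`), so
`1 - ζ^i` divides `1 - ζ` in the ring `A` of the elements of `k` integral over `ℤ`, hence it divides `a`, a unit of `A`,
so all `1 - ζ^i` are units of `A`.  Their product is `q` (`IsPrimitiveRoot`: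
`∏_{i=1}^{q-1} (1 - ζ^i) = q`, e.g. `Polynomial.eval_one_cyclotomic_prime` and
`IsPrimitiveRoot.minpoly...`/`cyclotomic_eq_prod_X_sub_primitiveRoots`).  So `1/q ∈ k` is integral over `ℤ`; but `k` has
characteristic 0 and a rational number integral over `ℤ` is an integer (`IsIntegrallyClosed ℤ`,
`IsIntegral` of the image of `1/q ∈ ℚ` descends along the injection `ℚ → k`): contradiction.
Alternative: `IsPrimitiveRoot.norm_sub_one_of_prime...` in the cyclotomic field `ℚ(ζ)`: the norm of `1 - ζ` and of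
`1 - ζ^j` is `q`, so the norm of the product is `q² ≠ 1`.
-/

set_option autoImplicit false

namespace Pool.Agent.Work.MP_ae9a8c_lc.FI

theorem cyc_ne {k : Type} [Field k] [CharZero k] {q : ℕ} (hq : q.Prime) {ζ : k}
    (hζ : IsPrimitiveRoot ζ q) {j : ℕ} (h1 : 1 ≤ j) (h2 : j < q) :
    ζ + ζ ^ j - ζ ^ (j + 1) ≠ 0 := by
  intro h0
  have hprod : (1 - ζ) * (1 - ζ ^ j) = 1 := by
    have : (1 - ζ) * (1 - ζ ^ j) = 1 - (ζ + ζ ^ j - ζ ^ (j + 1)) := by ring
    rw [this, h0, sub_zero]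
  have hqpos : 0 < q := hq.pos
  have : NeZero q := ⟨hq.ne_zero⟩
  have hζint : IsIntegral ℤ ζ := hζ.isIntegral hqpos
  have hbint : IsIntegral ℤ (1 - ζ ^ j) := isIntegral_one.sub (hζint.pow j)
  have hne : (1 : k) - ζ ≠ 0 := left_ne_zero_of_mul_eq_one hprod
  have key : ∀ μ ∈ primitiveRoots q k, IsIntegral ℤ ((1 - μ)⁻¹) := by
    intro μ hμ
    have hμ' : IsPrimitiveRoot μ q := isPrimitiveRoot_of_mem_primitiveRoots hμ
    have hμint : IsIntegral ℤ μ := hμ'.isIntegral hqpos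
    obtain ⟨m, -, hm⟩ := hμ'.eq_pow_of_pow_eq_one hζ.pow_eq_one
    have hgeo : (∑ i ∈ Finset.range m, μ ^ i) * (1 - μ) = 1 - ζ := by
      rw [← hm]
      exact geom_sum_mul_neg μ m
    have hne' : (1 : k) - μ ≠ 0 := right_ne_zero_of_mul (hgeo ▸ hne)
    have h1 : (1 - μ)⁻¹ = (∑ i ∈ Finset.range m, μ ^ i) * (1 - ζ ^ j) := by
      rw [inv_eq_iff_eq_inv, eq_comm, inv_eq_iff_eq_inv, eq_comm]
      rw [eq_comm]
      apply eq_inv_of_mul_eq_one_left
      calc (∑ i ∈ Finset.range m, μ ^ i) * (1 - ζ ^ j) * (1 - μ)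
          = (∑ i ∈ Finset.range m, μ ^ i) * (1 - μ) * (1 - ζ ^ j) := by ring
        _ = (1 - ζ) * (1 - ζ ^ j) := by rw [hgeo]
        _ = 1 := hprod
    rw [h1]
    exact (IsIntegral.sum _ fun i _ => hμint.pow i).mul hbint
  have hcyc : (q : k) = ∏ μ ∈ primitiveRoots q k, (1 - μ) := by
    have : Fact q.Prime := ⟨hq⟩
    have h1 := Polynomial.eval_one_cyclotomic_prime (R := k) (p := q)
    rw [Polynomial.cyclotomic_eq_prod_X_sub_primitiveRoots hζ, Polynomial.eval_prod] at h1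
    rw [← h1]
    refine Finset.prod_congr rfl fun μ _ => ?_
    simp
  have hinv : IsIntegral ℤ ((q : k)⁻¹) := by
    rw [hcyc, ← Finset.prod_inv_distrib]
    exact IsIntegral.prod _ key
  have hQ : IsIntegral ℤ ((q : ℚ)⁻¹) := by
    have h1 : algebraMap ℚ k ((q : ℚ)⁻¹) = (q : k)⁻¹ := by
      rw [map_inv₀, map_natCast]
    rw [← h1] at hinv
    exact (isIntegral_algebraMap_iff (algebraMap ℚ k).injective).1 hinv
  obtain ⟨n, hn⟩ := IsIntegrallyClosed.isIntegral_iff.1 hQ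
  have hn' : (n : ℚ) = (q : ℚ)⁻¹ := by simpa using hn
  have hq0 : (q : ℚ) ≠ 0 := by exact_mod_cast hq.ne_zero
  have h2 : (n : ℚ) * q = 1 := by rw [hn', inv_mul_cancel₀ hq0]
  have h3 : n * (q : ℤ) = 1 := by exact_mod_cast h2
  have h4 : (q : ℤ) ∣ 1 := ⟨n, by rw [mul_comm, h3]⟩
  have h5 : q ∣ 1 := by exact_mod_cast h4
  exact hq.one_lt.ne' (Nat.dvd_one.1 h5)

end Pool.Agent.Work.MP_ae9a8c_lc.FI
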