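import Pool.Agent.Work.MP_ae9a8c_lc.MTDefs

/-!
Definitions for: an NIP valued field `(K, O)` of residue characteristic 0 is henselian as soon as,
for cofinally many finite extensions `L` of `K`, the `q`-th powers have finite index in the group
of principal units of `L` (some prime `q = q(L)` with `μ_q ⊆ L`).

Abstract core: `B` is a commutative ring (later: the integral closure of `O` in `L`), `J` its Jacobson
radical, all positive integers are units of `B`.
-/

set_option autoImplicit false

namespace Pool.Agent.Work.MP_ae9a8c_lc.FI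

/-- `u` is a principal unit of `B`: `u - 1` is in the Jacobson radical. -/
def PU {B : Type} [CommRing B] (u : B) : Prop := u - 1 ∈ Ideal.jacobson (⊥ : Ideal B)

/-- `F` is a homomorphism on the principal units, `y` is a unit whose `q`-th power is a principal
unit with `F (y ^ q) ≠ 0`. -/
structure Core (B : Type) [CommRing B] (q : ℕ) (F : B → ZMod q) (y : B) : Prop where
  qp : q.Prime
  nat : ∀ n : ℕ, n ≠ 0 → IsUnit (n : B)
  mul : ∀ u v : B, PU u → PU v → F (u * v) = F u + F v
  yu : IsUnit y
  yq : PU (y ^ q)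
  Fy : F (y ^ q) ≠ 0
  un : ∀ j : ℕ, 1 ≤ j → j < q → IsUnit (y + y ^ j - y ^ (j + 1))

/-- Property (E): finitely many of the functions `x ↦ F (1 - c x)` are invariant under prescribed
translations at a common point of the Jacobson radical. -/
def Gen {B T : Type} [CommRing B] (F : B → T) : Prop :=
  ∀ (r : ℕ) (c d : Fin r → B), (∀ l, d l ∈ Ideal.jacobson (⊥ : Ideal B)) →
    ∃ x ∈ Ideal.jacobson (⊥ : Ideal B), ∀ l, F (1 - c l * (x + d l)) = F (1 - c l * x)

/-- The new parameter. -/
noncomputable def nb {B : Type} [CommRing B] (y σ : B) (j : ℕ) (x : B) : B :=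
  (σ * (y + y ^ j - y ^ (j + 1)) - σ ^ 2 * y ^ (j + 1) * x) * Ring.inverse (1 - σ * y ^ (j + 1) * x)

/-- The family `G` shatters `N` points at the value `t`. -/
def Shat {P X T : Type} (G : P → X → T) (t : T) (N : ℕ) : Prop :=
  ∃ s : Fin N → X, ∀ A : Set (Fin N), ∃ p : P, ∀ i, G p (s i) = t ↔ i ∈ A

/-- Polynomial growth: on `k` points there are at most `(k + 1) ^ D` patterns. -/
def Growth {P X T : Type} (G : P → X → T) (D : ℕ) : Prop :=
  ∀ (k : ℕ) (s : Fin k → X) (Q : Finset P),
    (∀ p ∈ Q, ∀ p' ∈ Q, (∀ i, G p (s i) = G p' (s i)) → p = p') → Q.card ≤ (k + 1) ^ D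

/-- A finitely additive probability measure. -/
structure IsMean {X : Type} (μ : Set X → ℝ) : Prop where
  univ : μ Set.univ = 1
  nonneg : ∀ A, 0 ≤ μ A
  add : ∀ A B, Disjoint A B → μ (A ∪ B) = μ A + μ B

/-- `u ∈ L` is a principal unit of the integral closure of `O` in `L`. -/
def PrU {K : Type} [Field K] (O : ValuationSubring K) {L : Type} [Field L] [Algebra K L]
    (u : L) : Prop :=
  ∃ h : u - 1 ∈ integralClosure O L, ∀ M : Ideal (integralClosure O L), M.IsMaximal →
    (⟨u - 1, h⟩ : integralClosure O L) ∈ M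

/-- The `q`-th powers have finite index in the group of principal units of `L`. -/
def FinPrU {K : Type} [Field K] (O : ValuationSubring K) (L : Type) [Field L] [Algebra K L]
    (q : ℕ) : Prop :=
  ∃ T : Finset L, ∀ u : L, PrU O u → ∃ t ∈ T, ∃ w : L, PrU O w ∧ u = t * w ^ q

/-- The integral closure of `O` in `L` has two maximal ideals. -/
def TwoMax {K : Type} [Field K] (O : ValuationSubring K) (L : Type) [Field L] [Algebra K L] :
    Prop :=
  ∃ M₁ M₂ : Ideal (integralClosure O L), M₁.IsMaximal ∧ M₂.IsMaximal ∧ M₂ ≠ M₁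

/-- The `q`-th powers have finite index in the multiplicative group of `L`. -/
def FinPow (L : Type) [Field L] (q : ℕ) : Prop :=
  ∃ T : Finset L, ∀ u : L, u ≠ 0 → ∃ t ∈ T, ∃ w : L, u = t * w ^ q

end Pool.Agent.Work.MP_ae9a8c_lc.FI
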