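import Pool.Agent.Work.MP_ae9a8c_lc.DfnPsi

/-!
MODULE Dfn2 (M, model theory).  The formula of the proof.

PROOF.  Exactly as `dfn_psi` in `DfnPsi.lean`: the set is
`{v | ∃ u : (Fin m ⊕ Fin D) → K, [1 - c (x + d) - ρ w^q = 0] ∧ [(w-1)^D + ∑ t_j (w-1)^j = 0] ∧ ∀ j, t_j ∈ 𝔪}` with
`w = ∑ u_(inl j) e_j`, `t = u ∘ inr`; the two bracketed conditions are polynomial equations over `L` in the variables
`(Fin m ⊕ Fin (m + m)) ⊕ (Fin m ⊕ Fin D)` (`dfn_L`), then `dfn_inter`, `dfn_all`, `dfn_m`, `dfn_ex`.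
-/

set_option autoImplicit false

namespace Pool.Agent.Work.MP_ae9a8c_lc.FI

theorem dfn_pw {K : Type} [Field K] (O : ValuationSubring K) {L : Type} [Field L] [Algebra K L]
    {m : ℕ} (e : Module.Basis (Fin m) K L) (D q : ℕ) (ρ : L) :
    Dfn O {v : Fin m ⊕ Fin (m + m) → K | ∃ w : L,
      1 - (∑ j, v (Sum.inr (Fin.castAdd m j)) • e j) *
        ((∑ j, v (Sum.inl j) • e j) + ∑ j, v (Sum.inr (Fin.natAdd m j)) • e j) = ρ * w ^ q ∧
      ∃ t : Fin D → K, (∀ j, ∃ h : t j ∈ O, (⟨t j, h⟩ : O) ∈ IsLocalRing.maximalIdeal O) ∧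
        (w - 1) ^ D + ∑ j, algebraMap K L (t j) * (w - 1) ^ (j : ℕ) = 0} := by
  let α := (Fin m ⊕ Fin (m + m)) ⊕ (Fin m ⊕ Fin D)
  let lc : (Fin m → α) → MvPolynomial α L := fun r => ∑ j, MvPolynomial.C (e j) * MvPolynomial.X (r j)
  have hlc : ∀ (r : Fin m → α) (w : α → K),
      MvPolynomial.aeval (fun i => algebraMap K L (w i)) (lc r) = ∑ j, w (r j) • e j := by
    intro r w
    simp only [lc, map_sum, map_mul, MvPolynomial.aeval_X, MvPolynomial.aeval_C,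
      Algebra.algebraMap_self, RingHom.id_apply]
    exact Finset.sum_congr rfl fun j _ => by rw [Algebra.smul_def, mul_comm]
  let Wv := lc (fun j => Sum.inr (Sum.inl j))
  let X' := lc (fun j => Sum.inl (Sum.inl j))
  let C' := lc (fun j => Sum.inl (Sum.inr (Fin.castAdd m j)))
  let D' := lc (fun j => Sum.inl (Sum.inr (Fin.natAdd m j)))
  have h := dfn_ex O (dfn_inter O (dfn_inter O
    (dfn_L O e ((1 - C' * (X' + D')) - MvPolynomial.C ρ * Wv ^ q))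
    (dfn_L O e ((Wv - 1) ^ D + ∑ j : Fin D, MvPolynomial.X (Sum.inr (Sum.inr j)) *
      (Wv - 1) ^ (j : ℕ))))
    (dfn_all O (ι := Fin D) (fun j => dfn_m O (Sum.inr (Sum.inr j) : α))))
  have e1 : {v : Fin m ⊕ Fin (m + m) → K | ∃ w : L,
      1 - (∑ j, v (Sum.inr (Fin.castAdd m j)) • e j) *
        ((∑ j, v (Sum.inl j) • e j) + ∑ j, v (Sum.inr (Fin.natAdd m j)) • e j) = ρ * w ^ q ∧
      ∃ t : Fin D → K, (∀ j, ∃ h : t j ∈ O, (⟨t j, h⟩ : O) ∈ IsLocalRing.maximalIdeal O) ∧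
        (w - 1) ^ D + ∑ j, algebraMap K L (t j) * (w - 1) ^ (j : ℕ) = 0} =
      {v | ∃ u : Fin m ⊕ Fin D → K, Sum.elim v u ∈
        ({w : α → K | MvPolynomial.aeval (fun i => algebraMap K L (w i))
            ((1 - C' * (X' + D')) - MvPolynomial.C ρ * Wv ^ q) = 0} ∩
          {w : α → K | MvPolynomial.aeval (fun i => algebraMap K L (w i))
            ((Wv - 1) ^ D + ∑ j : Fin D, MvPolynomial.X (Sum.inr (Sum.inr j)) *
              (Wv - 1) ^ (j : ℕ)) = 0}) ∩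
          {w : α → K | ∀ j : Fin D, w ∈ {w : α → K | ∃ h : w (Sum.inr (Sum.inr j)) ∈ O,
            (⟨w (Sum.inr (Sum.inr j)), h⟩ : O) ∈ IsLocalRing.maximalIdeal O}}} := by
    ext v
    simp only [Set.mem_setOf_eq, Set.mem_inter_iff, map_sub, map_add, map_pow, map_mul, map_sum,
      map_one, Wv, C', X', D', hlc, MvPolynomial.aeval_X, MvPolynomial.aeval_C,
      Algebra.algebraMap_self, RingHom.id_apply, Sum.elim_inr, Sum.elim_inl]
    constructor
    · rintro ⟨z, hz, t, ht, hzt⟩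
      refine ⟨Sum.elim (e.repr z) t, ⟨?_, ?_⟩, ?_⟩
      · change (1 - (∑ j, v (Sum.inr (Fin.castAdd m j)) • e j) *
          ((∑ j, v (Sum.inl j) • e j) + ∑ j, v (Sum.inr (Fin.natAdd m j)) • e j)) -
            ρ * (∑ j, e.repr z j • e j) ^ q = 0
        rw [e.sum_repr]
        exact sub_eq_zero.2 hz
      · change ((∑ j, e.repr z j • e j) - 1) ^ D +
          ∑ j, algebraMap K L (t j) * ((∑ j, e.repr z j • e j) - 1) ^ (j : ℕ) = 0
        rw [e.sum_repr]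
        exact hzt
      · exact ht
    · rintro ⟨u, ⟨h1, h2⟩, h3⟩
      exact ⟨∑ j, u (Sum.inl j) • e j, sub_eq_zero.1 h1, fun j => u (Sum.inr j), h3, h2⟩
  rw [e1]
  exact h

end Pool.Agent.Work.MP_ae9a8c_lc.FI
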