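import Pool.Agent.Work.MP_ae9a8c_lc.FI.TwoUp
import Pool.Agent.Work.MP_ae9a8c_lc.JacPoly

/-!
MODULE FinMax (M).  Finitely many maximal ideals; the Jacobson radical by monic polynomials.

PROOF.  Let `N` be a finite Galois extension of `K` with a `K`-embedding `f : L → N` (normal closure of `L` in an
algebraic closure of `L`; characteristic 0, so separable).
(fin_max) for `N` see the private theorem `CtxR_fin` in `CtxR.lean` (copy its proof: the Galois group acts
transitively on the primes over `𝔪`); for `L` use `max_inj`.
(jac_gen) `D = [N : K]`; `jac_poly` for `f z` in `N` and `jac_up`; the equation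
`z^D + ∑ c_j z^j = 0` holds in `L` iff it holds for `f z` in `N` (`f` injective, `f (algebraMap K L c) = algebraMap K N c`).
-/

set_option autoImplicit false

namespace Pool.Agent.Work.MP_ae9a8c_lc.FI

open scoped Pointwise

private theorem FinMax_fin {K L : Type} [Field K] (O : ValuationSubring K) [Field L] [Algebra K L]
    [FiniteDimensional K L] [IsGalois K L] :
    {M : Ideal (integralClosure O L) | M.IsMaximal}.Finite := by
  have : IsFractionRing (integralClosure O L) L :=
    integralClosure.isFractionRing_of_finite_extension K L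
  have : Algebra.IsInvariant O (integralClosure O L)
      ((integralClosure O L) ≃ₐ[O] (integralClosure O L)) :=
    Algebra.isInvariant_of_isGalois' O K L (integralClosure O L)
  have : Finite ((integralClosure O L) ≃ₐ[O] (integralClosure O L)) :=
    Finite.of_equiv _ (galRestrict O K L (integralClosure O L)).toEquiv
  rcases Set.eq_empty_or_nonempty {M : Ideal (integralClosure O L) | M.IsMaximal} with he | ⟨P, hP⟩
  · rw [he]
    exact Set.finite_empty
  have hP' : P.IsMaximal := hP
  have := hP'.isPrime
  refine (Set.finite_range (fun g : (integralClosure O L) ≃ₐ[O] (integralClosure O L) =>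
    g • P)).subset ?_
  intro Q hQ
  have hQ' : Q.IsMaximal := hQ
  have := hQ'.isPrime
  have h1 : Ideal.under O P = Ideal.under O Q := by
    have e1 : Ideal.under O P = IsLocalRing.maximalIdeal O :=
      IsLocalRing.eq_maximalIdeal (Ideal.isMaximal_comap_of_isIntegral_of_isMaximal P)
    have e2 : Ideal.under O Q = IsLocalRing.maximalIdeal O :=
      IsLocalRing.eq_maximalIdeal (Ideal.isMaximal_comap_of_isIntegral_of_isMaximal Q)
    rw [e1, e2]
  obtain ⟨g, hg⟩ := Algebra.IsInvariant.exists_smul_of_under_eq O (integralClosure O L)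
    ((integralClosure O L) ≃ₐ[O] (integralClosure O L)) P Q h1
  exact ⟨g, hg.symm⟩

private theorem FinMax_gal (K L : Type) [Field K] [CharZero K] [Field L]
    [Algebra K L] [FiniteDimensional K L] :
    ∃ (N : IntermediateField K (AlgebraicClosure K)), FiniteDimensional K N ∧ IsGalois K N ∧
      Nonempty (L →ₐ[K] N) := by
  refine ⟨IntermediateField.normalClosure K L (AlgebraicClosure K), inferInstance, ?_, ?_⟩
  · have : Normal K (IntermediateField.normalClosure K L (AlgebraicClosure K)) := inferInstance
    exact ⟨⟩
  · let i : L →ₐ[K] AlgebraicClosure K := IsAlgClosed.lift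
    exact ⟨(IntermediateField.inclusion (AlgHom.fieldRange_le_normalClosure i)).comp
      i.rangeRestrict⟩

private theorem FinMax_fin' {K L N : Type} [Field K] (O : ValuationSubring K) [Field L]
    [Algebra K L] [Field N] [Algebra K N] [FiniteDimensional K N] [IsGalois K N]
    (f : L →ₐ[K] N) : {M : Ideal (integralClosure O L) | M.IsMaximal}.Finite := by
  obtain ⟨g, hg⟩ := max_inj O f
  have : Finite {M : Ideal (integralClosure O N) // M.IsMaximal} := FinMax_fin (K := K) (L := N) O
  exact Finite.of_injective g hg

private theorem FinMax_jac {K L N : Type} [Field K] (O : ValuationSubring K) [Field L]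
    [Algebra K L] [Field N] [Algebra K N] [FiniteDimensional K N] [IsGalois K N]
    (f : L →ₐ[K] N) (z : L) :
      (∃ c : Fin (Module.finrank K N) → K,
        (∀ j, ∃ h : c j ∈ O, (⟨c j, h⟩ : O) ∈ IsLocalRing.maximalIdeal O) ∧
        z ^ (Module.finrank K N) + ∑ j, algebraMap K L (c j) * z ^ (j : ℕ) = 0) ↔
      ∃ hz : z ∈ integralClosure O L, ∀ M : Ideal (integralClosure O L), M.IsMaximal →
        (⟨z, hz⟩ : integralClosure O L) ∈ M := by
  rw [jac_up O f z, ← jac_poly O (f z)]
  refine exists_congr fun c => and_congr_right fun _ => ?_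
  have h1 : f (z ^ Module.finrank K N + ∑ j : Fin (Module.finrank K N),
      algebraMap K L (c j) * z ^ (j : ℕ)) =
      f z ^ Module.finrank K N + ∑ j : Fin (Module.finrank K N),
      algebraMap K N (c j) * f z ^ (j : ℕ) := by
    rw [map_add, map_pow, map_sum]
    congr 1
    refine Finset.sum_congr rfl fun j _ => ?_
    rw [map_mul, map_pow, AlgHom.commutes]
  rw [← h1, map_eq_zero_iff f f.toRingHom.injective]

theorem fin_max {K L : Type} [Field K] [CharZero K] (O : ValuationSubring K) [Field L]
    [Algebra K L] [FiniteDimensional K L] :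
    {M : Ideal (integralClosure O L) | M.IsMaximal}.Finite := by
  obtain ⟨N, hfd, hgal, ⟨f⟩⟩ := FinMax_gal K L
  exact FinMax_fin' O f

theorem jac_gen {K L : Type} [Field K] [CharZero K] (O : ValuationSubring K) [Field L]
    [Algebra K L] [FiniteDimensional K L] :
    ∃ D : ℕ, ∀ z : L,
      (∃ c : Fin D → K,
        (∀ j, ∃ h : c j ∈ O, (⟨c j, h⟩ : O) ∈ IsLocalRing.maximalIdeal O) ∧
        z ^ D + ∑ j, algebraMap K L (c j) * z ^ (j : ℕ) = 0) ↔
      ∃ hz : z ∈ integralClosure O L, ∀ M : Ideal (integralClosure O L), M.IsMaximal →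
        (⟨z, hz⟩ : integralClosure O L) ∈ M := by
  obtain ⟨N, hfd, hgal, ⟨f⟩⟩ := FinMax_gal K L
  exact ⟨Module.finrank K N, fun z => FinMax_jac O f z⟩

end Pool.Agent.Work.MP_ae9a8c_lc.FI
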