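import Pool.Agent.Work.MP_ae9a8c_lc.FI.Defs

/-!
MODULE Flip (S).  Telescoping.

PROOF.  Let `θ a = F (1 - σ a x) - F (1 - σ x)`.  If the conclusion fails then `θ y + θ (y^j) = θ (y^(j+1))` for
all `1 ≤ j < q`, so by induction `θ (y^j) = j θ y` for `1 ≤ j ≤ q`, and `θ (y^q) = q θ y = 0` in `ZMod q`.  But
`θ (y^q) = F (1 - y^q σ x) - F (1 - σ x) = F (y^q) ≠ 0` by `hE`.
-/

set_option autoImplicit false

namespace Pool.Agent.Work.MP_ae9a8c_lc.FI

theorem flip {B : Type} [CommRing B] {q : ℕ} {F : B → ZMod q} {y : B} (h : Core B q F y)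
    {σ x : B} (hE : F (1 - y ^ q * σ * x) = F (y ^ q) + F (1 - σ * x)) :
    ∃ j : ℕ, 1 ≤ j ∧ j < q ∧
      F (1 - σ * y * x) + F (1 - σ * y ^ j * x) - F (1 - σ * y ^ (j + 1) * x) ≠ F (1 - σ * x) := by
  by_contra hcon
  push Not at hcon
  have key : ∀ j : ℕ, 1 ≤ j → j ≤ q →
      F (1 - σ * y ^ j * x) - F (1 - σ * x) = (j : ZMod q) * (F (1 - σ * y * x) - F (1 - σ * x)) := by
    intro j hj
    induction j, hj using Nat.le_induction with
    | base => intro _; simp
    | succ j hj ih =>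
      intro hjq
      have h1 := ih (by omega)
      have h2 := hcon j hj (by omega)
      push_cast
      linear_combination h1 - h2
  have hq := key q h.qp.one_lt.le le_rfl
  have e : 1 - y ^ q * σ * x = 1 - σ * y ^ q * x := by ring
  rw [e] at hE
  rw [hE] at hq
  simp only [add_sub_cancel_right, CharP.cast_eq_zero, zero_mul] at hq
  exact h.Fy hq

end Pool.Agent.Work.MP_ae9a8c_lc.FI
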