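import Pool.Agent.Work.MP_ae9a8c_lc.FI.Defs

/-!
MODULE GenE (S).  Property (E) in multiplicative form.

PROOF.  `γ l` is a unit; let `d l = (1 - (γ l)⁻¹) (c l)⁻¹`, in the Jacobson radical (`1 - γ⁻¹ = γ⁻¹ (γ - 1)`).
Take `x` from `Gen` for `c`, `d`.  `γ⁻¹ (1 - γ c x) = γ⁻¹ - c x = 1 - c x - (1 - γ⁻¹) = 1 - c (x + d)`, that is
`1 - γ c x = γ (1 - c (x + d))`, so `F (1 - γ c x) = F γ + F (1 - c (x + d)) = F γ + F (1 - c x)`
(`1 - c (x + d)` is a principal unit).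
-/

set_option autoImplicit false

namespace Pool.Agent.Work.MP_ae9a8c_lc.FI

theorem genE {B : Type} [CommRing B] {q : ℕ} {F : B → ZMod q}
    (hmul : ∀ u v : B, PU u → PU v → F (u * v) = F u + F v) (hG : Gen F)
    {ι : Type} [Finite ι] (c γ : ι → B) (hc : ∀ l, IsUnit (c l)) (hγ : ∀ l, PU (γ l)) :
    ∃ x ∈ Ideal.jacobson (⊥ : Ideal B), ∀ l, F (1 - γ l * c l * x) = F (γ l) + F (1 - c l * x) := by
  classical
  haveI : Fintype ι := Fintype.ofFinite ι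
  let e : ι ≃ Fin (Fintype.card ι) := Fintype.equivFin ι
  have hγu : ∀ l, IsUnit (γ l) := fun l => by
    have h := (Ideal.mem_jacobson_bot.mp (hγ l)) 1
    have h2 : (γ l - 1) * 1 + 1 = γ l := by ring
    rwa [h2] at h
  choose cu hcu using hc
  choose gu hgu using hγu
  have hd : ∀ l : ι, (1 - ((gu l)⁻¹ : Bˣ) : B) * ((cu l)⁻¹ : Bˣ) ∈ Ideal.jacobson (⊥ : Ideal B) := by
    intro l
    have h1 : ((1 : B) - ((gu l)⁻¹ : Bˣ)) * ((cu l)⁻¹ : Bˣ)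
        = (((gu l)⁻¹ : Bˣ) * ((cu l)⁻¹ : Bˣ) : B) * (γ l - 1) := by
      have h2 : (((gu l)⁻¹ : Bˣ) : B) * γ l = 1 := by
        rw [← hgu l]; exact Units.inv_mul (gu l)
      linear_combination (- (((cu l)⁻¹ : Bˣ) : B)) * h2
    rw [h1]
    exact Ideal.mul_mem_left _ _ (hγ l)
  obtain ⟨x, hx, hF⟩ := hG (Fintype.card ι) (fun l => c (e.symm l))
    (fun l => ((1 : B) - ((gu (e.symm l))⁻¹ : Bˣ)) * ((cu (e.symm l))⁻¹ : Bˣ))
    (fun l => hd (e.symm l))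
  refine ⟨x, hx, fun l => ?_⟩
  have hFl := hF (e l)
  simp only [Equiv.symm_apply_apply] at hFl
  have hgi : (((gu l)⁻¹ : Bˣ) : B) * γ l = 1 := by
    rw [← hgu l]; exact Units.inv_mul (gu l)
  have hci : c l * (((cu l)⁻¹ : Bˣ) : B) = 1 := by
    rw [← hcu l]; exact Units.mul_inv (cu l)
  set D : B := ((1 : B) - ((gu l)⁻¹ : Bˣ)) * ((cu l)⁻¹ : Bˣ) with hD
  have hkey : 1 - γ l * c l * x = γ l * (1 - c l * (x + D)) := by
    rw [hD]
    linear_combination (γ l * ((1 : B) - ((gu l)⁻¹ : Bˣ))) * hci - hgi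
  have hPU : PU (1 - c l * (x + D)) := by
    unfold PU
    have h3 : (1 - c l * (x + D)) - 1 = (- c l) * (x + D) := by ring
    rw [h3]
    exact Ideal.mul_mem_left _ _ (Ideal.add_mem _ hx (hd l))
  rw [hkey, hmul _ _ (hγ l) hPU, hFl]

end Pool.Agent.Work.MP_ae9a8c_lc.FI
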