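import Pool.Agent.Work.MP_ae9a8c_lc.FI.Defs
import Pool.Agent.Work.MP_ae9a8c_lc.TwoMax
import Pool.Agent.Work.MP_ae9a8c_lc.CtxR

/-!
MODULE Hen1 (M-L, Galois theory).  If `O` is henselian then the integral closure of `O` in a finite Galois
extension has only one maximal ideal (converse of `two_max`).

PROOF.  `B = integralClosure O N`, `G = Gal(N/K)` acts on `B` and transitively on its maximal ideals (as in
`CtxR_fin`, `CtxR.lean`; there are finitely many).  Let `M₁ ≠ M₂` be maximal and `D` the stabilizer of `M₁` in `G`.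
By the Chinese remainder theorem take `b ∈ B`, `b ≡ 1 mod M₁`, `b ∈ M` for all other maximal ideals `M`, and
`β = ∏_{τ ∈ D} τ b`: fixed by `D`, `β ≡ 1 mod M₁`, `β ∈ M` for `M ≠ M₁`.  So for `σ ∈ G`: `σ β ≡ 1 mod σ M₁` and
`σ β ∈ M` for all other `M`.  Let `f` be the minimal polynomial of `β` over `K`; its coefficients are in `O`
(`β` integral, `O` integrally closed: `minpoly.isIntegrallyClosed_eq_field_fractions'`), over `N` it is the
product of `X - x` over the different conjugates `x = σ β` (Galois).  Modulo `M₁` exactly one conjugate is `≡ 1`, namely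
`β` (`σ β ≡ 1 mod M₁` implies `σ M₁ = M₁`, `σ ∈ D`, `σ β = β`), the others are `≡ 0`.  So `f(1) ∈ M₁ ∩ O = 𝔪` and
`f'(1) ≡ ∏_{x ≠ β} (1 - x) ≡ 1`, a unit of `O`.  As `O` is henselian `f` has a root `a ∈ O`, so (irreducible) `β = a ∈ K`,
all conjugates are equal to `β`.  But `M₂ = σ M₁` for some `σ`, so `β = σ β ≡ 1 mod M₂`, while `β ∈ M₂`: a contradiction.
-/

set_option autoImplicit false

namespace Pool.Agent.Work.MP_ae9a8c_lc.FI

open scoped Pointwise

open Polynomial

private theorem Hen1_core {O B G : Type} [CommRing O] [HenselianLocalRing O] [CommRing B]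
    [IsDomain B] [Algebra O B] [Algebra.IsIntegral O B] [Group G] [Finite G]
    [MulSemiringAction G B] [SMulCommClass G O B] [Algebra.IsInvariant O B G]
    (M₁ M₂ : Ideal B) (h1 : M₁.IsMaximal) (h2 : M₂.IsMaximal) (hne : M₂ ≠ M₁) : False := by
  classical
  haveI := h1.isPrime
  haveI := h2.isPrime
  cases nonempty_fintype G
  have hover : ∀ M : Ideal B, M.IsMaximal → Ideal.under O M = IsLocalRing.maximalIdeal O := by
    intro M hM
    exact IsLocalRing.eq_maximalIdeal (Ideal.isMaximal_comap_of_isIntegral_of_isMaximal M)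
  have htr : ∀ M : Ideal B, M.IsMaximal → ∃ g : G, M = g • M₁ := by
    intro M hM
    haveI := hM.isPrime
    exact Algebra.IsInvariant.exists_smul_of_under_eq O B G M₁ M (by rw [hover M₁ h1, hover M hM])
  have hmx : ∀ g : G, (g • M₁).IsMaximal := by
    intro g
    have e : g • M₁ = M₁.comap (MulSemiringAction.toRingEquiv G B g⁻¹) := by
      ext x
      rw [Ideal.mem_comap, MulSemiringAction.toRingEquiv_apply,
        Ideal.mem_pointwise_smul_iff_inv_smul_mem]
    rw [e]
    exact Ideal.comap_isMaximal_of_equiv (MulSemiringAction.toRingEquiv G B g⁻¹)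
  -- the element `b`
  obtain ⟨b, hb1, hb2⟩ : ∃ b : B, b - 1 ∈ M₁ ∧ ∀ M : Ideal B, M.IsMaximal → M ≠ M₁ → b ∈ M := by
    let s : Finset (Ideal B) := (Finset.univ.image (fun g : G => g • M₁)).erase M₁
    have htop : M₁ ⊔ s.inf id = ⊤ := by
      by_contra hcon
      have h3 : M₁ ⊔ s.inf id = M₁ := (h1.eq_of_le hcon le_sup_left).symm
      have h4 : s.inf id ≤ M₁ := by
        calc s.inf id ≤ M₁ ⊔ s.inf id := le_sup_right
          _ = M₁ := h3
      obtain ⟨M, hM, hMle⟩ := (Ideal.IsPrime.inf_le' (f := id) inferInstance).1 h4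
      have hM' := Finset.mem_erase.1 hM
      obtain ⟨g, _, hg⟩ := Finset.mem_image.1 hM'.2
      have hMm : M.IsMaximal := by
        rw [← hg]
        exact hmx g
      exact hM'.1 (hMm.eq_of_le h1.ne_top hMle)
    have h5 : (1 : B) ∈ M₁ ⊔ s.inf id := by
      rw [htop]
      trivial
    obtain ⟨u, hu, b, hb, hub⟩ := Submodule.mem_sup.1 h5
    refine ⟨b, ?_, ?_⟩
    · have : b - 1 = -u := by
        rw [← hub]
        ring
      rw [this]
      exact M₁.neg_mem hu
    · intro M hM hMne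
      obtain ⟨g, hg⟩ := htr M hM
      have h6 : M ∈ s := by
        refine Finset.mem_erase.2 ⟨hMne, Finset.mem_image.2 ⟨g, Finset.mem_univ _, hg.symm⟩⟩
      exact (Finset.inf_le (f := id) h6) hb
  let D : Subgroup G := MulAction.stabilizer G M₁
  let β : B := ∏ τ : D, (τ : G) • b
  have hβD : ∀ σ : G, σ • M₁ = M₁ → σ • β = β := by
    intro σ hσ
    have hσD : σ ∈ D := hσ
    change σ • (∏ τ : D, (τ : G) • b) = ∏ τ : D, (τ : G) • b
    rw [Finset.smul_prod']
    refine Fintype.prod_equiv (Equiv.mulLeft (⟨σ, hσD⟩ : D)) _ _ ?_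
    intro τ
    rw [smul_smul]
    rfl
  have hβ1 : β - 1 ∈ M₁ := by
    rw [← Ideal.Quotient.mk_eq_mk_iff_sub_mem]
    change (Ideal.Quotient.mk M₁) (∏ τ : D, (τ : G) • b) = (Ideal.Quotient.mk M₁) 1
    rw [map_prod, map_one]
    refine Finset.prod_eq_one fun τ _ => ?_
    have h3 : (τ : G) • M₁ = M₁ := τ.2
    have h4 : (τ : G) • (b - 1) ∈ M₁ := by
      have := Ideal.smul_mem_pointwise_smul (τ : G) (b - 1) M₁ hb1
      rwa [h3] at this
    rw [smul_sub, smul_one] at h4
    rw [← map_one (Ideal.Quotient.mk M₁)]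
    exact Ideal.Quotient.mk_eq_mk_iff_sub_mem _ _ |>.2 h4
  have hβ2 : ∀ M : Ideal B, M.IsMaximal → M ≠ M₁ → β ∈ M := by
    intro M hM hMne
    have h3 : ((1 : D) : G) • b ∣ β :=
      Finset.dvd_prod_of_mem (fun τ : D => (τ : G) • b) (Finset.mem_univ 1)
    rw [OneMemClass.coe_one, one_smul] at h3
    exact M.mem_of_dvd h3 (hb2 M hM hMne)
  let Ω : Finset B := Finset.univ.image (fun g : G => g • β)
  have hβΩ : β ∈ Ω := Finset.mem_image.2 ⟨1, Finset.mem_univ _, one_smul _ _⟩
  have hΩ : ∀ x ∈ Ω, x ≠ β → x ∈ M₁ := by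
    intro x hx hxne
    obtain ⟨g, _, rfl⟩ := Finset.mem_image.1 hx
    have h3 : g⁻¹ • M₁ ≠ M₁ := by
      intro h
      apply hxne
      apply hβD
      calc g • M₁ = g • (g⁻¹ • M₁) := by rw [h]
        _ = M₁ := smul_inv_smul g M₁
    have h4 := hβ2 (g⁻¹ • M₁) (hmx _) h3
    rwa [Ideal.mem_pointwise_smul_iff_inv_smul_mem, inv_inv] at h4
  let F : B[X] := ∏ x ∈ Ω, (X - C x)
  have hFm : F.Monic := monic_prod_of_monic _ _ fun x _ => monic_X_sub_C x
  have hFinv : ∀ g : G, F.map (MulSemiringAction.toRingHom G B g) = F := by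
    intro g
    change (∏ x ∈ Ω, (X - C x)).map (MulSemiringAction.toRingHom G B g) = ∏ x ∈ Ω, (X - C x)
    rw [Polynomial.map_prod]
    refine Finset.prod_bij (fun x _ => g • x) ?_ ?_ ?_ ?_
    · intro x hx
      obtain ⟨k, _, rfl⟩ := Finset.mem_image.1 hx
      exact Finset.mem_image.2 ⟨g * k, Finset.mem_univ _, mul_smul g k β⟩
    · intro x _ y _ hxy
      exact MulAction.injective g hxy
    · intro x hx
      obtain ⟨k, _, rfl⟩ := Finset.mem_image.1 hx
      refine ⟨g⁻¹ • k • β, ?_, smul_inv_smul g _⟩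
      exact Finset.mem_image.2 ⟨g⁻¹ * k, Finset.mem_univ _, mul_smul g⁻¹ k β⟩
    · intro x _
      rw [Polynomial.map_sub, map_X, map_C]
      rfl
  have hFl : F ∈ lifts (algebraMap O B) := by
    rw [lifts_iff_coeff_lifts]
    intro n
    obtain ⟨a, ha⟩ := Algebra.IsInvariant.isInvariant (A := O) (B := B) (G := G) (F.coeff n)
      (fun g => by
        have h3 := congrArg (fun P : B[X] => P.coeff n) (hFinv g)
        simp only [coeff_map] at h3
        exact h3)
    exact ⟨a, ha⟩
  obtain ⟨f, hfF, _, hfm⟩ := lifts_and_natDegree_eq_and_monic hFl hFm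
  have hmem : ∀ x : O, algebraMap O B x ∈ M₁ ↔ x ∈ IsLocalRing.maximalIdeal O := by
    intro x
    rw [← hover M₁ h1]
    rfl
  have hFs : F = (X - C β) * ∏ x ∈ Ω.erase β, (X - C x) :=
    (Finset.mul_prod_erase Ω (fun x => X - C x) hβΩ).symm
  have hQ : (∏ x ∈ Ω.erase β, (X - C x) : B[X]).eval 1 - 1 ∈ M₁ := by
    rw [← Ideal.Quotient.mk_eq_mk_iff_sub_mem, eval_prod, map_prod, map_one]
    refine Finset.prod_eq_one fun x hx => ?_
    have h3 := hΩ x (Finset.mem_of_mem_erase hx) (Finset.ne_of_mem_erase hx)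
    rw [eval_sub, eval_X, eval_C, map_sub, map_one, Ideal.Quotient.eq_zero_iff_mem.2 h3, sub_zero]
  have h1β : (1 : B) - β ∈ M₁ := by
    rw [← neg_sub]
    exact M₁.neg_mem hβ1
  have hroot : f.eval 1 ∈ IsLocalRing.maximalIdeal O := by
    rw [← hmem, ← eval₂_at_apply, map_one, ← eval_map, hfF, hFs, eval_mul, eval_sub, eval_X, eval_C]
    exact M₁.mul_mem_right _ h1β
  have hder : IsUnit (f.derivative.eval 1) := by
    by_contra hcon
    have h3 : f.derivative.eval 1 ∈ IsLocalRing.maximalIdeal O :=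
      (IsLocalRing.mem_maximalIdeal _).2 hcon
    rw [← hmem, ← eval₂_at_apply, map_one, ← eval_map, ← derivative_map, hfF, hFs, derivative_mul,
      derivative_sub, derivative_X, derivative_C, eval_add, eval_mul, eval_mul, eval_sub, eval_sub,
      eval_X, eval_C, eval_one, eval_zero, sub_zero, one_mul] at h3
    apply h1.ne_top
    rw [Ideal.eq_top_iff_one]
    have h4 := M₁.sub_mem h3 (M₁.add_mem hQ
      (M₁.mul_mem_right ((∏ x ∈ Ω.erase β, (X - C x) : B[X]).derivative.eval 1) h1β))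
    have h5 : ∀ q d : B, q + (1 - β) * d - (q - 1 + (1 - β) * d) = 1 := by
      intro q d
      ring
    rw [h5] at h4
    exact h4
  obtain ⟨a, ha, _⟩ := HenselianLocalRing.is_henselian f hfm 1 hroot hder
  have hFa : F.eval (algebraMap O B a) = 0 := by
    rw [← hfF, eval_map, eval₂_at_apply, ha.eq_zero, map_zero]
  have hax : ∃ x ∈ Ω, algebraMap O B a = x := by
    rw [show F = ∏ x ∈ Ω, (X - C x) from rfl, eval_prod, Finset.prod_eq_zero_iff] at hFa
    obtain ⟨x, hx, hx0⟩ := hFa
    rw [eval_sub, eval_X, eval_C, sub_eq_zero] at hx0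
    exact ⟨x, hx, hx0⟩
  obtain ⟨x, hx, hax⟩ := hax
  obtain ⟨g, _, rfl⟩ := Finset.mem_image.1 hx
  have hβa : β = algebraMap O B a := by
    have h3 : g⁻¹ • algebraMap O B a = g⁻¹ • g • β := by rw [hax]
    rw [inv_smul_smul, smul_algebraMap] at h3
    exact h3.symm
  have hβfix : ∀ k : G, k • β = β := by
    intro k
    rw [hβa, smul_algebraMap]
  obtain ⟨k, hk⟩ := htr M₂ h2
  have h7 : β - 1 ∈ M₂ := by
    have h8 := Ideal.smul_mem_pointwise_smul k (β - 1) M₁ hβ1
    rw [smul_sub, hβfix, smul_one, ← hk] at h8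
    exact h8
  apply h2.ne_top
  rw [Ideal.eq_top_iff_one]
  have h9 := M₂.sub_mem (hβ2 M₂ h2 hne) h7
  rwa [sub_sub_cancel] at h9

theorem not_two_max {K N : Type} [Field K] (O : ValuationSubring K) [Field N] [Algebra K N]
    [FiniteDimensional K N] [IsGalois K N] (h : HenselianLocalRing O) : ¬ TwoMax O N := by
  rintro ⟨M₁, M₂, h1, h2, hne⟩
  haveI := h
  haveI : IsFractionRing (integralClosure O N) N :=
    integralClosure.isFractionRing_of_finite_extension K N
  haveI : Algebra.IsInvariant O (integralClosure O N)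
      ((integralClosure O N) ≃ₐ[O] (integralClosure O N)) :=
    Algebra.isInvariant_of_isGalois' O K N (integralClosure O N)
  haveI : Finite ((integralClosure O N) ≃ₐ[O] (integralClosure O N)) :=
    Finite.of_equiv _ (galRestrict O K N (integralClosure O N)).toEquiv
  exact Hen1_core (O := O) (B := integralClosure O N)
    (G := (integralClosure O N) ≃ₐ[O] (integralClosure O N)) M₁ M₂ h1 h2 hne

end Pool.Agent.Work.MP_ae9a8c_lc.FI
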