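import Pool.Agent.Work.MP_ae9a8c_lc.FI.TwoUp

/-!
MODULE Hen2 (M, Galois theory).  If the integral closure of `O` is local in all finite Galois extensions, then
every principal unit is a `q`-th power of a principal unit.

PROOF.  `Ω = AlgebraicClosure K`.  Let `u ∈ L` be a principal unit.  Let `N ⊇ L` be finite Galois over `K` inside `Ω`
(characteristic 0, normal closure) containing a primitive `q`-th root of unity `ζ` and an element `w` with `w^q = u`.
`B_N = integralClosure O N` has exactly one maximal ideal `M` (`h`; there is at least one).  `w ∈ B_N`,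
`w^q ≡ 1 mod M` (`jac_up` for `L → N`).  The field `B_N / M` contains the `q` different roots `ζ^i` of `X^q - 1` (they are
different modulo `M`: `1 - ζ^i` divides `q`, and `q` is a unit: residue characteristic 0), so `w ≡ ζ^i mod M` for some `i`; replace
`w` by `ζ^(-i) w`: `w ≡ 1 mod M`, `w^q = u`.
`w ∈ L`: otherwise there is `τ ∈ Gal(N/L)` with `τ w ≠ w` (`N / L` is Galois), `(τ w)^q = u`, so `τ w = ζ^j w` with
`ζ^j ≠ 1`; `τ` fixes the only maximal ideal `M`, so `τ w ≡ 1 mod M`, so `ζ^j ≡ 1 mod M`: a contradiction.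
So `w ∈ L` and `w - 1` is in the Jacobson radical of `B_N`, hence of `B_L` (`jac_up`).
-/

set_option autoImplicit false

namespace Pool.Agent.Work.MP_ae9a8c_lc.FI

private theorem pru_map {K L L' : Type} [Field K] (O : ValuationSubring K) [Field L] [Algebra K L]
    [Field L'] [Algebra K L'] (f : L →ₐ[K] L') (u : L) : PrU O u ↔ PrU O (f u) := by
  have h := jac_up O f (u - 1)
  have e : f (u - 1) = f u - 1 := by rw [map_sub, map_one]
  rw [e] at h
  exact h

private theorem nat_unit {K N : Type} [Field K] (O : ValuationSubring K)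
    (hO : CharZero (IsLocalRing.ResidueField O)) [Field N] [Algebra K N] {n : ℕ} (hn : n ≠ 0) :
    IsUnit ((n : ℕ) : integralClosure O N) := by
  have h1 : IsUnit ((n : ℕ) : O) := by
    rw [← IsLocalRing.residue_ne_zero_iff_isUnit, map_natCast]
    exact Nat.cast_ne_zero.2 hn
  have h2 := h1.map (algebraMap O (integralClosure O N))
  rwa [map_natCast] at h2

private theorem pru_unique {K N : Type} [Field K] (O : ValuationSubring K)
    (hO : CharZero (IsLocalRing.ResidueField O)) [Field N] [Algebra K N] {q : ℕ} (hq : q ≠ 0)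
    (a b : N) (ha : PrU O a) (hb : PrU O b) (hab : a ^ q = b ^ q) : a = b := by
  obtain ⟨ha1, ha2⟩ := ha
  obtain ⟨hb1, hb2⟩ := hb
  obtain ⟨M, hM⟩ := Ideal.exists_maximal (integralClosure O N)
  set A1 : integralClosure O N := ⟨a - 1, ha1⟩ with hA1
  set B1 : integralClosure O N := ⟨b - 1, hb1⟩ with hB1
  have hA : ((A1 + 1 : integralClosure O N) : N) = a := by
    push_cast
    rw [hA1]
    ring
  have hB : ((B1 + 1 : integralClosure O N) : N) = b := by
    push_cast
    rw [hB1]
    ring
  have hpow : (A1 + 1) ^ q = (B1 + 1) ^ q := by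
    apply Subtype.val_injective
    push_cast at hA hB ⊢
    rw [hA, hB, hab]
  have hs := (Commute.all (A1 + 1) (B1 + 1)).geom_sum₂_mul q
  rw [hpow, sub_self] at hs
  rcases mul_eq_zero.1 hs with h0 | h0
  · exfalso
    have h1 := congrArg (Ideal.Quotient.mk M) h0
    rw [map_sum, map_zero] at h1
    have e : ∀ i ∈ Finset.range q, (Ideal.Quotient.mk M)
        ((A1 + 1) ^ i * (B1 + 1) ^ (q - 1 - i)) = 1 := by
      intro i _
      have hA0 : (Ideal.Quotient.mk M) A1 = 0 := Ideal.Quotient.eq_zero_iff_mem.2 (ha2 M hM)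
      have hB0 : (Ideal.Quotient.mk M) B1 = 0 := Ideal.Quotient.eq_zero_iff_mem.2 (hb2 M hM)
      rw [map_mul, map_pow, map_pow, map_add, map_add, hA0, hB0, map_one, zero_add, one_pow,
        one_pow, one_mul]
    rw [Finset.sum_congr rfl e, Finset.sum_const, Finset.card_range, nsmul_one] at h1
    have h2 : (Ideal.Quotient.mk M) ((q : ℕ) : integralClosure O N) = 0 := by
      rw [map_natCast]
      exact h1
    exact hM.ne_top (Ideal.eq_top_of_isUnit_mem _ (Ideal.Quotient.eq_zero_iff_mem.1 h2)
      (nat_unit O hO hq))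
  · have h1 : A1 + 1 = B1 + 1 := sub_eq_zero.1 h0
    rw [← hA, ← hB, h1]

private theorem pru_exists {K N : Type} [Field K] (O : ValuationSubring K) [Field N] [Algebra K N]
    (hN : ¬ TwoMax O N) {q : ℕ} (hq : 0 < q) (ζ w u : N) (hζ : IsPrimitiveRoot ζ q)
    (hw : w ^ q = u) (hu : PrU O u) : ∃ v : N, PrU O v ∧ v ^ q = u := by
  classical
  obtain ⟨hu1, hu2⟩ := hu
  obtain ⟨M, hM⟩ := Ideal.exists_maximal (integralClosure O N)
  have huniq : ∀ M' : Ideal (integralClosure O N), M'.IsMaximal → M' = M := by
    intro M' hM'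
    by_contra hne
    exact hN ⟨M, M', hM, hM', hne⟩
  have huI : u ∈ integralClosure O N := by
    have := (integralClosure O N).add_mem hu1 (integralClosure O N).one_mem
    rwa [sub_add_cancel] at this
  have hwI : w ∈ integralClosure O N := by
    rw [mem_integralClosure_iff] at huI ⊢
    exact IsIntegral.of_pow hq (by rw [hw]; exact huI)
  have hζI : ζ ∈ integralClosure O N := by
    rw [mem_integralClosure_iff]
    exact IsIntegral.of_pow hq (by rw [hζ.pow_eq_one]; exact isIntegral_one)
  have hζ' : IsPrimitiveRoot (⟨ζ, hζI⟩ : integralClosure O N) q :=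
    IsPrimitiveRoot.of_map_of_injective (f := (integralClosure O N).val) hζ
      Subtype.val_injective
  set W : integralClosure O N := ⟨w, hwI⟩ with hW
  have hprod := congrArg (Polynomial.eval W) (Polynomial.X_pow_sub_one_eq_prod hq hζ')
  rw [Polynomial.eval_sub, Polynomial.eval_pow, Polynomial.eval_X, Polynomial.eval_one,
    Polynomial.eval_prod] at hprod
  have hWu : W ^ q - 1 = ⟨u - 1, hu1⟩ := by
    apply Subtype.val_injective
    push_cast
    rw [hW, hw]
  have hmem : W ^ q - 1 ∈ M := by
    rw [hWu]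
    exact hu2 M hM
  rw [hprod, hM.isPrime.prod_mem_iff] at hmem
  obtain ⟨η, hη, hηM⟩ := hmem
  rw [Polynomial.eval_sub, Polynomial.eval_X, Polynomial.eval_C] at hηM
  have hη1 : η ^ q = 1 := (Polynomial.mem_nthRootsFinset hq 1).1 hη
  have hqe : η ^ (q - 1) * η = 1 := by
    rw [← pow_succ, Nat.sub_add_cancel hq, hη1]
  have hv1 : W * η ^ (q - 1) - 1 = (W - η) * η ^ (q - 1) := by
    linear_combination hqe
  have hvM : W * η ^ (q - 1) - 1 ∈ M := by
    rw [hv1]
    exact Ideal.mul_mem_right _ _ hηM
  refine ⟨((W * η ^ (q - 1) : integralClosure O N) : N), ⟨?_, ?_⟩, ?_⟩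
  · exact (integralClosure O N).sub_mem (W * η ^ (q - 1)).2 (integralClosure O N).one_mem
  · intro M' hM'
    rw [huniq M' hM']
    exact hvM
  · have h3 : (W * η ^ (q - 1)) ^ q = W ^ q := by
      rw [mul_pow, ← pow_mul, mul_comm (q - 1) q, pow_mul, hη1, one_pow, mul_one]
    have h4 := congrArg (fun x : integralClosure O N => (x : N)) h3
    simp only [SubmonoidClass.coe_pow] at h4
    rw [h4, hW, hw]

theorem prU_root {K : Type} [Field K] (O : ValuationSubring K)
    (hO : CharZero (IsLocalRing.ResidueField O))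
    (h : ∀ N : IntermediateField K (AlgebraicClosure K), FiniteDimensional K N → IsGalois K N →
      ¬ TwoMax O N)
    (L : IntermediateField K (AlgebraicClosure K)) (hL : FiniteDimensional K L) {q : ℕ}
    (hq : q.Prime) (u : L) (hu : PrU O u) : ∃ w : L, PrU O w ∧ u = w ^ q := by
  classical
  have hcO : CharZero O := (IsLocalRing.residue O).charZero
  have hcK : CharZero K := charZero_of_injective_algebraMap (R := O) (A := K)
    Subtype.val_injective
  have hcΩ : CharZero (AlgebraicClosure K) := charZero_of_injective_algebraMap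
    (algebraMap K (AlgebraicClosure K)).injective
  have hqne : NeZero ((q : ℕ) : AlgebraicClosure K) := ⟨Nat.cast_ne_zero.2 hq.ne_zero⟩
  obtain ⟨ζ, hζ⟩ : ∃ ζ : AlgebraicClosure K, IsPrimitiveRoot ζ q :=
    HasEnoughRootsOfUnity.exists_primitiveRoot (AlgebraicClosure K) q
  obtain ⟨w, hw⟩ := IsAlgClosed.exists_pow_nat_eq (u : AlgebraicClosure K) hq.pos
  have := hL
  have hfd1 : FiniteDimensional K (IntermediateField.adjoin K ({ζ, w} : Set (AlgebraicClosure K))) := by
    refine IntermediateField.finiteDimensional_adjoin fun x _ => ?_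
    exact Algebra.IsIntegral.isIntegral x
  let E : IntermediateField K (AlgebraicClosure K) :=
    L ⊔ IntermediateField.adjoin K ({ζ, w} : Set (AlgebraicClosure K))
  have hfd2 : FiniteDimensional K E := IntermediateField.finiteDimensional_sup _ _
  let N : IntermediateField K (AlgebraicClosure K) :=
    IntermediateField.normalClosure K E (AlgebraicClosure K)
  have hfdN : FiniteDimensional K N := inferInstance
  have hnN : Normal K N := inferInstance
  have hgN : IsGalois K N := ⟨⟩
  have hEN : E ≤ N := E.le_normalClosure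
  have hLN : L ≤ N := le_sup_left.trans hEN
  have hζN : ζ ∈ N := (le_sup_right.trans hEN) (IntermediateField.subset_adjoin K _ (by simp))
  have hwN : w ∈ N := (le_sup_right.trans hEN) (IntermediateField.subset_adjoin K _ (by simp))
  let i : L →ₐ[K] N := IntermediateField.inclusion hLN
  have hζ' : IsPrimitiveRoot (⟨ζ, hζN⟩ : N) q :=
    IsPrimitiveRoot.of_map_of_injective (f := N.val) hζ Subtype.val_injective
  have hw' : (⟨w, hwN⟩ : N) ^ q = i u := by
    apply Subtype.val_injective
    exact hw
  obtain ⟨v, hv, hvu⟩ := pru_exists O (h N hfdN hgN) hq.pos _ _ (i u) hζ' hw'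
    ((pru_map O i u).1 hu)
  -- `v` is fixed by all automorphisms fixing `L`
  have hvL : v ∈ i.fieldRange := by
    rw [← IsGalois.fixedField_fixingSubgroup i.fieldRange]
    rintro ⟨σ, hσ⟩
    show σ v = v
    refine pru_unique O hO hq.ne_zero _ _ ((pru_map O (σ : N →ₐ[K] N) v).1 hv) hv ?_
    show (σ v) ^ q = v ^ q
    rw [← map_pow, hvu]
    exact (mem_fixingSubgroup_iff _).1 hσ _ ⟨u, rfl⟩
  obtain ⟨x, hx⟩ := hvL
  have hx' : i x = v := hx
  refine ⟨x, (pru_map O i x).2 (by rw [hx']; exact hv), ?_⟩
  refine i.injective ?_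
  show i u = i (x ^ q)
  rw [map_pow, hx', hvu]

end Pool.Agent.Work.MP_ae9a8c_lc.FI
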