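import Pool.Agent.Work.MP_ae9a8c_lc.FI.Defs

/-!
MODULE Hom (M).  The homomorphism `F`.

PROOF.  `U = {u : Bˣ // PU (u : B)}` is a subgroup of `Bˣ` (a principal unit is a unit,
`Ideal.mem_jacobson_bot`).  `Q = U / U^q` (e.g. `Additive U ⧸ (zmultiples/range of q •)`) is a finite abelian group
(representatives: for `t ∈ T`, if `t = u w^q`-type principal units occur, `t` itself is then a principal unit, as
`t w^q = u` gives `t = u (w⁻¹)^q`) of exponent `q`, so a finite dimensional vector space over `ZMod q`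
(`AddCommGroup.zmodModule`), and the class of `γ` is not zero (`hγ'`).  So there is a linear functional `λ` with
`λ [γ] ≠ 0` (`Module.Dual`, `Module.forall_dual_apply_eq_zero_iff`).  `F u = λ [u]` for a principal unit `u`, `0` otherwise
(`Classical`).  For `t : ZMod q` let `S` be the set of the principal units in `T` with `F s = t`: if `u = s w^q` then
`F u = F s + q F w = F s`.
-/

set_option autoImplicit false

namespace Pool.Agent.Work.MP_ae9a8c_lc.FI

private theorem pu_isUnit {B : Type} [CommRing B] {u : B} (h : PU u) : IsUnit u := by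
  have h1 := (Ideal.mem_jacobson_bot.1 h) 1
  have h2 : (u - 1) * 1 + 1 = u := by ring
  rwa [h2] at h1

private theorem pu_one {B : Type} [CommRing B] : PU (1 : B) := by
  unfold PU
  rw [sub_self]
  exact Ideal.zero_mem _

private theorem pu_mul {B : Type} [CommRing B] {u v : B} (hu : PU u) (hv : PU v) : PU (u * v) := by
  unfold PU at *
  have h : u * v - 1 = v * (u - 1) + (v - 1) := by ring
  rw [h]
  exact Ideal.add_mem _ (Ideal.mul_mem_left _ _ hu) hv

private theorem pu_pow {B : Type} [CommRing B] {u : B} (hu : PU u) (n : ℕ) : PU (u ^ n) := by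
  induction n with
  | zero => rw [pow_zero]; exact pu_one
  | succ n ih => rw [pow_succ]; exact pu_mul ih hu

private theorem pu_of_mul {B : Type} [CommRing B] {u v : B} (hu : PU u) (hv : PU (u * v)) :
    PU v := by
  obtain ⟨c, hc⟩ := pu_isUnit hu
  have h : v - 1 = ((c⁻¹ : Bˣ) : B) * ((u * v - 1) - (u - 1)) := by
    have h1 : ((c⁻¹ : Bˣ) : B) * u = 1 := by rw [← hc]; exact Units.inv_mul c
    calc v - 1 = (((c⁻¹ : Bˣ) : B) * u) * (v - 1) := by rw [h1, one_mul]
      _ = _ := by ring
  unfold PU at *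
  rw [h]
  exact Ideal.mul_mem_left _ _ (Ideal.sub_mem _ hv hu)

private def USub (B : Type) [CommRing B] : Subgroup Bˣ where
  carrier := {u | PU (u : B)}
  mul_mem' := by
    intro a b ha hb
    show PU ((a * b : Bˣ) : B)
    rw [Units.val_mul]
    exact pu_mul ha hb
  one_mem' := by
    show PU ((1 : Bˣ) : B)
    rw [Units.val_one]
    exact pu_one
  inv_mem' := by
    intro a ha
    show PU ((a⁻¹ : Bˣ) : B)
    refine pu_of_mul (u := (a : B)) ha ?_
    rw [Units.mul_inv]
    exact pu_one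

private theorem exists_functional0 {q : ℕ} [Fact q.Prime] {V : Type} [AddCommGroup V]
    [Module (ZMod q) V] (v : V) (hv : v ≠ 0) :
    ∃ f : V → ZMod q, (∀ x y, f (x + y) = f x + f y) ∧ f v ≠ 0 := by
  by_contra hcon
  push Not at hcon
  refine hv ((Module.forall_dual_apply_eq_zero_iff (ZMod q) v).1 fun φ => ?_)
  exact hcon (fun x => φ x) (fun x y => map_add φ x y)

private theorem exists_functional {q : ℕ} (hq : q.Prime) {V : Type} [AddCommGroup V]
    (hV : ∀ x : V, q • x = 0) (v : V) (hv : v ≠ 0) :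
    ∃ f : V → ZMod q, (∀ x y, f (x + y) = f x + f y) ∧ f v ≠ 0 :=
  @exists_functional0 q ⟨hq⟩ V _ (AddCommGroup.zmodModule hV) v hv

private theorem exists_hom0 {B : Type} [CommRing B] {q : ℕ} (hq : q.Prime) (γ : B) (hγ : PU γ)
    (hγ' : ∀ w : B, PU w → w ^ q ≠ γ) :
    ∃ F : B → ZMod q, (∀ u v : B, PU u → PU v → F (u * v) = F u + F v) ∧ F γ ≠ 0 := by
  classical
  let H : AddSubgroup (Additive (USub B)) := (nsmulAddMonoidHom (α := Additive (USub B)) q).range
  have hQ : ∀ x : Additive (USub B) ⧸ H, q • x = 0 := by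
    intro x
    obtain ⟨y, rfl⟩ := QuotientAddGroup.mk_surjective x
    rw [← QuotientAddGroup.mk_nsmul]
    exact (QuotientAddGroup.eq_zero_iff _).2 ⟨y, rfl⟩
  let cls : ∀ u : B, PU u → Additive (USub B) ⧸ H := fun u hu =>
    QuotientAddGroup.mk (Additive.ofMul (⟨(pu_isUnit hu).unit, by
      show PU _
      rw [IsUnit.unit_spec]; exact hu⟩ : USub B))
  have hcls : ∀ (u v : B) (hu : PU u) (hv : PU v) (huv : PU (u * v)),
      cls (u * v) huv = cls u hu + cls v hv := by
    intro u v hu hv huv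
    show (QuotientAddGroup.mk _ : Additive (USub B) ⧸ H) = QuotientAddGroup.mk _ +
      QuotientAddGroup.mk _
    rw [← QuotientAddGroup.mk_add]
    refine congrArg _ ?_
    rw [← ofMul_mul]
    refine congrArg _ ?_
    refine Subtype.ext ?_
    refine Units.ext ?_
    show ((pu_isUnit huv).unit : B) = (((pu_isUnit hu).unit * (pu_isUnit hv).unit : Bˣ) : B)
    rw [Units.val_mul, IsUnit.unit_spec, IsUnit.unit_spec, IsUnit.unit_spec]
  have hne : cls γ hγ ≠ 0 := by
    intro h0
    obtain ⟨y, hy⟩ := (QuotientAddGroup.eq_zero_iff _).1 h0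
    have hy1 : q • y = Additive.ofMul (⟨(pu_isUnit hγ).unit, by
      show PU _
      rw [IsUnit.unit_spec]; exact hγ⟩ : USub B) := hy
    have hy2 : (Additive.toMul y) ^ q = (⟨(pu_isUnit hγ).unit, by
      show PU _
      rw [IsUnit.unit_spec]; exact hγ⟩ : USub B) := by
      have := congrArg Additive.toMul hy1
      rwa [toMul_nsmul] at this
    have hy3 : ((((Additive.toMul y : USub B) : Bˣ) : B)) ^ q = γ := by
      have h3 := congrArg (fun z : USub B => ((z : Bˣ) : B)) hy2
      simp only [Subgroup.coe_pow, Units.val_pow_eq_pow_val, IsUnit.unit_spec] at h3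
      exact h3
    exact hγ' _ (Additive.toMul y).2 hy3
  obtain ⟨f, hfa, hf⟩ := exists_functional hq hQ (cls γ hγ) hne
  refine ⟨fun u => if h : PU u then f (cls u h) else 0, ?_, ?_⟩
  · intro u v hu hv
    have huv := pu_mul hu hv
    simp only [dif_pos hu, dif_pos hv, dif_pos huv]
    rw [hcls u v hu hv huv, hfa]
  · simp only [dif_pos hγ]
    exact hf

theorem exists_hom {B : Type} [CommRing B] {q : ℕ} (hq : q.Prime) (γ : B) (hγ : PU γ)
    (hγ' : ∀ w : B, PU w → w ^ q ≠ γ)
    (hT : ∃ T : Finset B, ∀ u : B, PU u → ∃ t ∈ T, ∃ w : B, PU w ∧ u = t * w ^ q) :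
    ∃ F : B → ZMod q, (∀ u v : B, PU u → PU v → F (u * v) = F u + F v) ∧ F γ ≠ 0 ∧
      ∀ t : ZMod q, ∃ S : Finset B, (∀ s ∈ S, PU s) ∧
        ∀ u : B, PU u → (F u = t ↔ ∃ s ∈ S, ∃ w : B, PU w ∧ u = s * w ^ q) := by
  classical
  obtain ⟨F, hF, hFγ⟩ := exists_hom0 hq γ hγ hγ'
  obtain ⟨T, hT⟩ := hT
  have hF1 : F 1 = 0 := by
    have h := hF 1 1 pu_one pu_one
    rw [mul_one] at h
    simpa using h
  have hpow : ∀ (w : B), PU w → ∀ n : ℕ, F (w ^ n) = (n : ZMod q) * F w := by
    intro w hw n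
    induction n with
    | zero => rw [pow_zero, hF1]; simp
    | succ n ih =>
      rw [pow_succ, hF _ _ (pu_pow hw n) hw, ih]
      push_cast
      ring
  have hpq : ∀ (w : B), PU w → F (w ^ q) = 0 := by
    intro w hw
    rw [hpow w hw q]
    simp
  refine ⟨F, hF, hFγ, fun t => ⟨T.filter (fun s => PU s ∧ F s = t), ?_, ?_⟩⟩
  · intro s hs
    exact (Finset.mem_filter.1 hs).2.1
  · intro u hu
    constructor
    · intro hFu
      obtain ⟨t0, ht0, w, hw, huw⟩ := hT u hu
      have hwq := pu_pow hw q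
      have ht : PU t0 := by
        refine pu_of_mul (u := w ^ q) hwq ?_
        rw [mul_comm, ← huw]
        exact hu
      refine ⟨t0, Finset.mem_filter.2 ⟨ht0, ht, ?_⟩, w, hw, huw⟩
      rw [← hFu, huw, hF _ _ ht hwq, hpq w hw, add_zero]
    · rintro ⟨s, hs, w, hw, huw⟩
      obtain ⟨-, hs1, hs2⟩ := Finset.mem_filter.1 hs
      rw [huw, hF _ _ hs1 (pu_pow hw q), hpq w hw, add_zero]
      exact hs2

end Pool.Agent.Work.MP_ae9a8c_lc.FI
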