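import Pool.Agent.Work.MP_ae9a8c_lc.FI.Dfn2
import Pool.Agent.Work.MP_ae9a8c_lc.FI.FinMax
import Pool.Agent.Work.MP_ae9a8c_lc.NipDfn

/-!
MODULE NipU (M).  NIP for the sets `{x | 1 - c (x + d) ∈ S · (principal units)^q}`.

PROOF.  `e = Module.finBasis K L`, `m = finrank K L`, `D` from `jac_gen`.  The union over `ρ ∈ S` of the sets of `dfn_pw` is
definable (complement of the intersection of the complements: `dfn_all`, `dfn_compl`; `S` as a finite type).
`nip_dfn` gives `N`.  If `s : Fin N → L` were shattered as in the statement, take `a i = e.equivFun (s i)` and, for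
`A`, `x = Fin.append (e.equivFun c) (e.equivFun d)` (`Fin.append_left`, `Fin.append_right`, `e.sum_equivFun`);
`PrU O w` is the right side of `jac_gen` for `z = w - 1`.
-/

set_option autoImplicit false

namespace Pool.Agent.Work.MP_ae9a8c_lc.FI

theorem nip_pw {K L : Type} [Field K] [CharZero K] (O : ValuationSubring K) (hN : NIP K O)
    [Field L] [Algebra K L] [FiniteDimensional K L] (q : ℕ) (S : Finset L) :
    ∃ N : ℕ, ¬ ∃ s : Fin N → L, ∀ A : Set (Fin N), ∃ c d : L,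
      ∀ i, (∃ ρ ∈ S, ∃ w : L, PrU O w ∧ 1 - c * (s i + d) = ρ * w ^ q) ↔ i ∈ A := by
  classical
  obtain ⟨D, hD⟩ := jac_gen (L := L) O
  let m := Module.finrank K L
  let e : Module.Basis (Fin m) K L := Module.finBasis K L
  let T : S → Set (Fin m ⊕ Fin (m + m) → K) := fun ρ =>
    {v : Fin m ⊕ Fin (m + m) → K | ∃ w : L,
      1 - (∑ j, v (Sum.inr (Fin.castAdd m j)) • e j) *
        ((∑ j, v (Sum.inl j) • e j) + ∑ j, v (Sum.inr (Fin.natAdd m j)) • e j) = (ρ : L) * w ^ q ∧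
      ∃ t : Fin D → K, (∀ j, ∃ h : t j ∈ O, (⟨t j, h⟩ : O) ∈ IsLocalRing.maximalIdeal O) ∧
        (w - 1) ^ D + ∑ j, algebraMap K L (t j) * (w - 1) ^ (j : ℕ) = 0}
  have hT : ∀ ρ : S, Dfn O (T ρ) := fun ρ => dfn_pw O e D q (ρ : L)
  have hU : Dfn O {v | ∀ ρ : S, v ∈ (T ρ)ᶜ}ᶜ :=
    dfn_compl O (dfn_all O fun ρ => dfn_compl O (hT ρ))
  obtain ⟨N, hNN⟩ := nip_dfn O hN _ hU
  refine ⟨N, fun ⟨s, hs⟩ => hNN ⟨fun i => e.repr (s i), fun A => ?_⟩⟩
  obtain ⟨c, d, hcd⟩ := hs A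
  refine ⟨Fin.append (e.repr c) (e.repr d), fun i => ?_⟩
  rw [← hcd i]
  have e1 : (∑ j, (Sum.elim (e.repr (s i)) (Fin.append (e.repr c) (e.repr d)) :
      Fin m ⊕ Fin (m + m) → K) (Sum.inr (Fin.castAdd m j)) • e j) = c := by
    simp only [Sum.elim_inr, Fin.append_left]
    exact e.sum_repr c
  have e2 : (∑ j, (Sum.elim (e.repr (s i)) (Fin.append (e.repr c) (e.repr d)) :
      Fin m ⊕ Fin (m + m) → K) (Sum.inr (Fin.natAdd m j)) • e j) = d := by
    simp only [Sum.elim_inr, Fin.append_right]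
    exact e.sum_repr d
  have e3 : (∑ j, (Sum.elim (e.repr (s i)) (Fin.append (e.repr c) (e.repr d)) :
      Fin m ⊕ Fin (m + m) → K) (Sum.inl j) • e j) = s i := by
    simp only [Sum.elim_inl]
    exact e.sum_repr (s i)
  simp only [Set.mem_compl_iff, Set.mem_setOf_eq, T, not_forall, not_not]
  rw [e1, e2, e3]
  constructor
  · rintro ⟨ρ, w, hw, hw2⟩
    exact ⟨ρ, ρ.2, w, (hD (w - 1)).1 hw2, hw⟩
  · rintro ⟨ρ, hρ, w, hw, hw2⟩
    exact ⟨⟨ρ, hρ⟩, w, hw2, (hD (w - 1)).2 hw⟩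

end Pool.Agent.Work.MP_ae9a8c_lc.FI
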