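import Pool.Agent.Work.MP_ae9a8c_lc.FI.Defs
import Pool.Agent.Work.MP_ae9a8c_lc.TwoMax

/-!
MODULE NotHens (S-M).  A finite extension with two maximal ideals.

PROOF.  As in `Main.lean` (`henselian_of_virtProP`): from `¬ HenselianLocalRing O` get `f : O[X]` monic and `a₀` with
`f(a₀) ∈ 𝔪`, `f'(a₀)` a unit and no root congruent to `a₀`.  `K` has characteristic 0.  Let `Ω = AlgebraicClosure K`,
`L = IntermediateField.adjoin K (f.rootSet Ω)` (finite, normal, so Galois; e.g. via
`IntermediateField.adjoin_rootSet_isSplittingField`, `IsGalois.of_separable_splitting_field` does not apply directly if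
`f` has multiple roots: use `Normal.of_isSplittingField` and characteristic 0), `f` splits over `L`, and `two_max`.
-/

set_option autoImplicit false

namespace Pool.Agent.Work.MP_ae9a8c_lc.FI

theorem exists_two_max {K : Type} [Field K] (O : ValuationSubring K)
    (hO : CharZero (IsLocalRing.ResidueField O)) (h : ¬ HenselianLocalRing O) :
    ∃ L : IntermediateField K (AlgebraicClosure K), FiniteDimensional K L ∧ TwoMax O L := by
  classical
  have hchO : CharZero O := (IsLocalRing.residue O).charZero
  have hchK : CharZero K := charZero_of_injective_algebraMap (R := O) (A := K)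
    (IsFractionRing.injective O K)
  obtain ⟨f, a₀, hf, h0, h1, h2⟩ : ∃ (f : Polynomial O) (a₀ : O), f.Monic ∧
      f.eval a₀ ∈ IsLocalRing.maximalIdeal O ∧ IsUnit (f.derivative.eval a₀) ∧
      ∀ a : O, f.IsRoot a → a - a₀ ∉ IsLocalRing.maximalIdeal O := by
    by_contra hcon
    apply h
    refine ⟨?_⟩
    intro f hf a₀ h0 h1
    by_contra hno
    apply hcon
    refine ⟨f, a₀, hf, h0, h1, ?_⟩
    intro a ha hmem
    exact hno ⟨a, ha, hmem⟩
  obtain ⟨g, hg⟩ : ∃ g : Polynomial K, g = f.map (algebraMap O K) := ⟨_, rfl⟩
  have hsplit : (g.map (algebraMap K (AlgebraicClosure K))).Splits :=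
    IsAlgClosed.splits _
  let L : IntermediateField K (AlgebraicClosure K) :=
    IntermediateField.adjoin K (g.rootSet (AlgebraicClosure K))
  have hsf : g.IsSplittingField K L :=
    IntermediateField.adjoin_rootSet_isSplittingField hsplit
  have hfin : FiniteDimensional K L := Polynomial.IsSplittingField.finiteDimensional L g
  have hnor : Normal K L := Normal.of_isSplittingField g
  have hgal : IsGalois K L := IsGalois.mk
  refine ⟨L, hfin, ?_⟩
  refine two_max (L := L) O f hf a₀ h0 h1 h2 ?_
  rw [← hg]
  exact hsf.splits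

end Pool.Agent.Work.MP_ae9a8c_lc.FI
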