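import Pool.Agent.Work.MP_ae9a8c_lc.FI.FinMax

/-!
MODULE PowFin (M).  Finite index of `(L^×)^q` in `L^×` implies finite index for principal units.

PROOF.  `B = integralClosure O L`, finitely many maximal ideals (`fin_max`).  Let `T` be as in `FinPow`.
(1) If `v ∈ L` and `v^q` is a principal unit, then `v` is integral over `O` (root of `X^q - v^q` over `B`;
`IsIntegral.of_pow`), a unit of `B` (its power is), and modulo every maximal ideal `M` its image is a root of `X^q - 1`,
one of at most `q` elements of the field `B / M`.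
(2) If `v`, `v'` are as in (1) with the same images modulo all `M`, then `v v'⁻¹` is a principal unit.
(3) For every `t ∈ T` such that some principal unit has the form `t w^q` choose one, `u_t = t w_t^q`.  If
`u = t w^q` is another one, `u = u_t v^q` with `v = w / w_t`, and `v` is as in (1).  For every `t` and every vector
`τ ∈ ∏_M (roots of X^q - 1 in B / M)` (a finite set) which occurs choose `v_(t,τ)`; then `u = u_t v_(t,τ)^q (v / v_(t,τ))^q`.
The finite set of all `u_t v_(t,τ)^q` is the required set.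
(Or argue by contradiction with the pigeonhole principle: an infinite sequence of principal units pairwise
inequivalent modulo `q`-th powers.)
-/

set_option autoImplicit false

namespace Pool.Agent.Work.MP_ae9a8c_lc.FI

private theorem prU_iff' {K L : Type} [Field K] (O : ValuationSubring K) [Field L]
    [Algebra K L] (u : L) :
    PrU O u ↔ ∃ b : integralClosure O L, (b : L) = u ∧
      ∀ M : Ideal (integralClosure O L), M.IsMaximal → b - 1 ∈ M := by
  constructor
  · rintro ⟨h, hM⟩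
    refine ⟨⟨u - 1, h⟩ + 1, ?_, fun M hMm => ?_⟩
    · rw [AddMemClass.coe_add, OneMemClass.coe_one]
      exact sub_add_cancel u 1
    · rw [add_sub_cancel_right]
      exact hM M hMm
  · rintro ⟨b, rfl, hM⟩
    have h : (b : L) - 1 ∈ integralClosure O L := sub_mem b.2 (one_mem _)
    refine ⟨h, fun M hMm => ?_⟩
    have h1 : (⟨(b : L) - 1, h⟩ : integralClosure O L) = b - 1 := Subtype.ext rfl
    rw [h1]
    exact hM M hMm

private theorem unit_of' {B : Type} [CommRing B] {b : B}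
    (h : ∀ M : Ideal B, M.IsMaximal → b ∉ M) : IsUnit b := by
  by_contra hb
  obtain ⟨M, hM, hbM⟩ := exists_max_ideal_of_mem_nonunits hb
  exact h M hM hbM

private theorem unit_pow' {B : Type} [CommRing B] {b : B} {q : ℕ} (hq : q ≠ 0)
    (h : ∀ M : Ideal B, M.IsMaximal → b ^ q - 1 ∈ M) : IsUnit b := by
  refine unit_of' fun M hM hb => ?_
  have h1 : b ^ q ∈ M := M.pow_mem_of_mem hb q (Nat.pos_of_ne_zero hq)
  have h2 : (1 : B) ∈ M := by
    have h3 := M.sub_mem h1 (h M hM)
    rwa [sub_sub_cancel] at h3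
  exact hM.ne_top ((Ideal.eq_top_iff_one M).2 h2)

private theorem div_prU' {K L : Type} [Field K] (O : ValuationSubring K) [Field L]
    [Algebra K L] {b c : integralClosure O L} (hc : IsUnit c)
    (h : ∀ M : Ideal (integralClosure O L), M.IsMaximal → b - c ∈ M) :
    (c : L) ≠ 0 ∧ PrU O ((b : L) / (c : L)) := by
  obtain ⟨c', hc'⟩ := hc.exists_right_inv
  have h1 : (c : L) * (c' : L) = 1 := by
    rw [← MulMemClass.coe_mul, hc', OneMemClass.coe_one]
  have hc0 : (c : L) ≠ 0 := left_ne_zero_of_mul_eq_one h1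
  refine ⟨hc0, (prU_iff' O _).2 ⟨b * c', ?_, fun M hM => ?_⟩⟩
  · rw [eq_div_iff hc0, MulMemClass.coe_mul]
    linear_combination (b : L) * h1
  · have h2 : b * c' - 1 = (b - c) * c' := by linear_combination hc'
    rw [h2]
    exact M.mul_mem_right _ (h M hM)

private theorem reps' {B : Type} [CommRing B] (hfin0 : {M : Ideal B | M.IsMaximal}.Finite)
    {q : ℕ} (hq : 0 < q) :
    ∃ R : Finset B, ∀ b : B, (∀ M : Ideal B, M.IsMaximal → b ^ q - 1 ∈ M) →
      ∃ r ∈ R, (∀ M : Ideal B, M.IsMaximal → r ^ q - 1 ∈ M) ∧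
        ∀ M : Ideal B, M.IsMaximal → b - r ∈ M := by
  classical
  have hfin : Finite {M : Ideal B // M.IsMaximal} := hfin0.to_subtype
  obtain ⟨φ, hφ⟩ : ∃ φ : B → ∀ M : {M : Ideal B // M.IsMaximal}, (B ⧸ M.1),
      ∀ b M, φ b M = Ideal.Quotient.mk M.1 b := ⟨fun b M => Ideal.Quotient.mk M.1 b,
        fun _ _ => rfl⟩
  obtain ⟨S, hS⟩ : ∃ S : Set B, ∀ b, b ∈ S ↔ ∀ M : Ideal B, M.IsMaximal → b ^ q - 1 ∈ M :=
    ⟨{b | ∀ M : Ideal B, M.IsMaximal → b ^ q - 1 ∈ M}, fun _ => Iff.rfl⟩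
  have hφS : (φ '' S).Finite := by
    refine (Set.Finite.pi (t := fun M : {M : Ideal B // M.IsMaximal} =>
      {z : B ⧸ M.1 | z ^ q = 1}) (fun M => ?_)).subset ?_
    · have hM := M.2
      have hd : IsDomain (B ⧸ M.1) := Ideal.Quotient.isDomain M.1
      refine ((Polynomial.nthRootsFinset q (1 : B ⧸ M.1)).finite_toSet).subset ?_
      intro z hz
      rw [Finset.mem_coe, Polynomial.mem_nthRootsFinset hq]
      exact hz
    · rintro _ ⟨b, hb, rfl⟩
      rw [Set.mem_univ_pi]
      intro M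
      have h1 := (hS b).1 hb M.1 M.2
      have h2 : Ideal.Quotient.mk M.1 (b ^ q - 1) = 0 := Ideal.Quotient.eq_zero_iff_mem.2 h1
      rw [map_sub, map_pow, map_one, sub_eq_zero] at h2
      change φ b M ^ q = 1
      rw [hφ]
      exact h2
  refine ⟨hφS.toFinset.image (Function.invFunOn φ S), fun b hb => ?_⟩
  have hbS : b ∈ S := (hS b).2 hb
  have hex : ∃ a ∈ S, φ a = φ b := ⟨b, hbS, rfl⟩
  refine ⟨Function.invFunOn φ S (φ b), ?_, (hS _).1 (Function.invFunOn_mem hex),
    fun M hM => ?_⟩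
  · rw [Finset.mem_image]
    exact ⟨φ b, hφS.mem_toFinset.2 ⟨b, hbS, rfl⟩, rfl⟩
  · have h1 := congrFun (Function.invFunOn_eq hex) ⟨M, hM⟩
    rw [hφ, hφ] at h1
    exact (Ideal.Quotient.eq).1 h1.symm

theorem finPrU_of_finPow {K L : Type} [Field K] [CharZero K] (O : ValuationSubring K) [Field L]
    [Algebra K L] [FiniteDimensional K L] {q : ℕ} (hq : q.Prime) (h : FinPow L q) :
    FinPrU O L q := by
  classical
  obtain ⟨T, hT⟩ := h
  obtain ⟨R, hR⟩ := reps' (fin_max (L := L) O) hq.pos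
  obtain ⟨wt, hwt⟩ : ∃ wt : L → L, ∀ t, (∃ w, PrU O (t * w ^ q)) → PrU O (t * wt t ^ q) := by
    refine ⟨fun t => if ht : ∃ w, PrU O (t * w ^ q) then Classical.choose ht else 0,
      fun t ht => ?_⟩
    simp only [dif_pos ht]
    exact Classical.choose_spec ht
  refine ⟨(T ×ˢ R).image (fun p => p.1 * wt p.1 ^ q * (p.2 : L) ^ q), fun u hu => ?_⟩
  obtain ⟨bu, hbu, hbuM⟩ := (prU_iff' O u).1 hu
  have hne : ∀ (c : integralClosure O L), (∀ M : Ideal (integralClosure O L), M.IsMaximal →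
      c - 1 ∈ M) → IsUnit c := fun c hc =>
    unit_pow' one_ne_zero (fun M hM => by rw [pow_one]; exact hc M hM)
  have hne0 : ∀ c : integralClosure O L, IsUnit c → (c : L) ≠ 0 := fun c hc =>
    (div_prU' O hc (b := c) (fun M _ => by rw [sub_self]; exact M.zero_mem)).1
  have hu0 : u ≠ 0 := by
    rw [← hbu]
    exact hne0 bu (hne bu hbuM)
  obtain ⟨t, ht, w, hw⟩ := hT u hu0
  have h0 : PrU O (t * wt t ^ q) := hwt t ⟨w, by rw [← hw]; exact hu⟩
  obtain ⟨b0, hb0, hb0M⟩ := (prU_iff' O _).1 h0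
  have hb0n : (b0 : L) ≠ 0 := hne0 b0 (hne b0 hb0M)
  have ht0 : t * wt t ^ q ≠ 0 := by
    rw [← hb0]
    exact hb0n
  have hw0 : wt t ≠ 0 := by
    intro h1
    apply ht0
    rw [h1, zero_pow hq.ne_zero, mul_zero]
  have htn : t ≠ 0 := left_ne_zero_of_mul ht0
  have hvq : PrU O ((w / wt t) ^ q) := by
    have h1 : (w / wt t) ^ q = (bu : L) / (b0 : L) := by
      rw [hbu, hb0, hw, div_pow, mul_div_mul_left _ _ htn]
    rw [h1]
    refine (div_prU' O (hne b0 hb0M) (fun M hM => ?_)).2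
    have h2 := M.sub_mem (hbuM M hM) (hb0M M hM)
    rwa [sub_sub_sub_cancel_right] at h2
  obtain ⟨bv, hbv, hbvM⟩ := (prU_iff' O _).1 hvq
  have hv : w / wt t ∈ integralClosure O L := by
    rw [mem_integralClosure_iff]
    refine IsIntegral.of_pow hq.pos ?_
    rw [← hbv]
    exact bv.2
  obtain ⟨b, hb⟩ : ∃ b : integralClosure O L, (b : L) = w / wt t := ⟨⟨_, hv⟩, rfl⟩
  have hbq : b ^ q = bv := by
    apply Subtype.ext
    rw [SubmonoidClass.coe_pow, hb, hbv]
  obtain ⟨r, hrR, hr, hbr⟩ := hR b (by rw [hbq]; exact hbvM)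
  obtain ⟨hr0, hdiv⟩ := div_prU' O (unit_pow' hq.ne_zero hr) hbr
  refine ⟨t * wt t ^ q * (r : L) ^ q, ?_, (b : L) / (r : L), hdiv, ?_⟩
  · rw [Finset.mem_image]
    exact ⟨(t, r), Finset.mem_product.2 ⟨ht, hrR⟩, rfl⟩
  · rw [hb, div_pow, div_pow, hw]
    field_simp

end Pool.Agent.Work.MP_ae9a8c_lc.FI
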