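import Pool.Agent.Work.MP_ae9a8c_lc.FI.Defs
import Pool.Agent.Work.MP_ae9a8c_lc.FI.Cyc

/-!
MODULE Yel (M).  The unit `y`.

PROOF.  Chinese remainder theorem for the finitely many maximal ideals (pairwise comaximal,
`Ideal.isCoprime_of_isMaximal`...; `Ideal.quotientInfRingEquivPiQuotient`,
`Ideal.exists_forall_sub_mem_ideal` for a finite family of pairwise coprime ideals): `y ∈ B` with `y - ζ ∈ M₁`,
`y - 1 ∈ M` for the other maximal ideals `M`.
* For every maximal ideal `M` the field `B / M` has characteristic 0 (`hnat`) and the image of `ζ` is a primitive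
  `q`-th root of unity (`1 - ζ^i` divides `q` for `0 < i < q`, so it is a unit; or: the image has order `q` or `1`, and `1` would
  give `q = ∏ (1 - ζ^i) ∈ M`; `IsPrimitiveRoot.map_of_injective` is not applicable).
* `y` is in no maximal ideal: a unit.
* `y^q - 1` is in every maximal ideal (`y^q ≡ ζ^q = 1` or `1`), that is in the Jacobson radical.
* If `w` is a principal unit with `w^q = y^q`, then `y = ζ^i w` for some `i` (`B` is a domain;
  `(y w⁻¹)^q = 1`, `IsPrimitiveRoot.eq_pow_of_pow_eq_one`), so `y ≡ ζ^i` modulo all maximal ideals; modulo `M₂`: `ζ^i ≡ 1`, so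
  `q ∣ i`, `ζ^i = 1`, and modulo `M₁`: `ζ ≡ 1`: a contradiction.
* `y + y^j - y^(j+1)` is `≡ 1` modulo `M ≠ M₁` and `≡ ζ + ζ^j - ζ^(j+1) ≠ 0` modulo `M₁` (`cyc_ne`): a unit.
-/

set_option autoImplicit false

namespace Pool.Agent.Work.MP_ae9a8c_lc.FI

private theorem yel_unit {B : Type} [CommRing B] {u : B}
    (h : ∀ M : Ideal B, M.IsMaximal → u ∉ M) : IsUnit u := by
  by_contra hu
  obtain ⟨M, hM, hm⟩ := exists_max_ideal_of_mem_nonunits (show u ∈ nonunits B from hu)
  exact h M hM hm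

private theorem yel_nat {B : Type} [CommRing B] (hnat : ∀ n : ℕ, n ≠ 0 → IsUnit (n : B))
    (M : Ideal B) (hM : M.IsMaximal) (n : ℕ) (hn : n ≠ 0) : ((n : ℕ) : B ⧸ M) ≠ 0 := by
  intro h
  have h1 : (Ideal.Quotient.mk M) (n : B) = 0 := by
    rw [map_natCast]
    exact h
  rw [Ideal.Quotient.eq_zero_iff_mem] at h1
  exact hM.ne_top (Ideal.eq_top_of_isUnit_mem M h1 (hnat n hn))

private theorem yel_root {B : Type} [CommRing B] [IsDomain B]
    (hnat : ∀ n : ℕ, n ≠ 0 → IsUnit (n : B)) {q : ℕ} (hq : q.Prime) {ζ : B}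
    (hζ : IsPrimitiveRoot ζ q) (M : Ideal B) (hM : M.IsMaximal) :
    IsPrimitiveRoot (Ideal.Quotient.mk M ζ) q := by
  have hp : Fact q.Prime := ⟨hq⟩
  have h1 : (Ideal.Quotient.mk M ζ) ^ q = 1 := by
    rw [← map_pow, hζ.pow_eq_one, map_one]
  have h2 : Ideal.Quotient.mk M ζ ≠ 1 := by
    intro h
    have h3 : ∑ i ∈ Finset.range q, ζ ^ i = 0 := hζ.geom_sum_eq_zero hq.one_lt
    have h4 := congrArg (Ideal.Quotient.mk M) h3
    rw [map_sum, map_zero] at h4
    have h5 : ∀ i ∈ Finset.range q, (Ideal.Quotient.mk M) (ζ ^ i) = 1 := by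
      intro i _
      rw [map_pow, h, one_pow]
    rw [Finset.sum_congr rfl h5] at h4
    simp only [Finset.sum_const, Finset.card_range, nsmul_eq_mul, mul_one] at h4
    exact yel_nat hnat M hM q hq.ne_zero h4
  rw [← orderOf_eq_prime h1 h2]
  exact IsPrimitiveRoot.orderOf _

theorem exists_y {B : Type} [CommRing B] [IsDomain B] (hnat : ∀ n : ℕ, n ≠ 0 → IsUnit (n : B))
    (hfin : {M : Ideal B | M.IsMaximal}.Finite) {q : ℕ} (hq : q.Prime) {ζ : B}
    (hζ : IsPrimitiveRoot ζ q) (M₁ M₂ : Ideal B) (h1 : M₁.IsMaximal) (h2 : M₂.IsMaximal)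
    (hne : M₂ ≠ M₁) :
    ∃ y : B, IsUnit y ∧ PU (y ^ q) ∧ (∀ w : B, PU w → w ^ q ≠ y ^ q) ∧
      ∀ j : ℕ, 1 ≤ j → j < q → IsUnit (y + y ^ j - y ^ (j + 1)) := by
  classical
  have hp : Fact q.Prime := ⟨hq⟩
  have : Finite {M : Ideal B // M.IsMaximal} := hfin
  have hcop : Pairwise (Function.onFun IsCoprime
      (fun M : {M : Ideal B // M.IsMaximal} => M.1)) := by
    intro M M' hMM
    rw [Function.onFun, Ideal.isCoprime_iff_sup_eq]
    exact Ideal.IsMaximal.coprime_of_ne M.2 M'.2 fun h => hMM (Subtype.ext h)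
  obtain ⟨y, hy⟩ := Ideal.exists_forall_sub_mem_ideal hcop
    (fun M => if M.1 = M₁ then ζ else 1)
  have hy1 : Ideal.Quotient.mk M₁ y = Ideal.Quotient.mk M₁ ζ := by
    have h := hy ⟨M₁, h1⟩
    rw [if_pos rfl] at h
    exact Ideal.Quotient.eq.2 h
  have hy2 : ∀ M : Ideal B, M.IsMaximal → M ≠ M₁ → Ideal.Quotient.mk M y = 1 := by
    intro M hM hMne
    have h := hy ⟨M, hM⟩
    rw [if_neg hMne] at h
    rw [← map_one (Ideal.Quotient.mk M)]
    exact Ideal.Quotient.eq.2 h
  have hroot := fun M hM => yel_root hnat hq hζ M hM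
  have hyq : ∀ M : Ideal B, M.IsMaximal → (Ideal.Quotient.mk M y) ^ q = 1 := by
    intro M hM
    by_cases h : M = M₁
    · subst h
      rw [hy1]
      exact (hroot M hM).pow_eq_one
    · rw [hy2 M hM h, one_pow]
  have hyu : IsUnit y := by
    apply yel_unit
    intro M hM hm
    have h3 := hyq M hM
    rw [Ideal.Quotient.eq_zero_iff_mem.2 hm, zero_pow hq.ne_zero] at h3
    have hfield : Nontrivial (B ⧸ M) := Ideal.Quotient.nontrivial_iff.2 hM.ne_top
    exact zero_ne_one h3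
  have hpu : ∀ u : B, PU u ↔ ∀ M : Ideal B, M.IsMaximal → Ideal.Quotient.mk M u = 1 := by
    intro u
    unfold PU Ideal.jacobson
    rw [Ideal.mem_sInf]
    constructor
    · intro h M hM
      rw [← map_one (Ideal.Quotient.mk M)]
      exact Ideal.Quotient.eq.2 (h ⟨bot_le, hM⟩)
    · intro h M hM
      have h3 := h M hM.2
      rw [← map_one (Ideal.Quotient.mk M)] at h3
      exact Ideal.Quotient.eq.1 h3
  refine ⟨y, hyu, ?_, ?_, ?_⟩
  · rw [hpu]
    intro M hM
    rw [map_pow]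
    exact hyq M hM
  · intro w hw hwq
    rw [hpu] at hw
    have hwu : IsUnit w := by
      apply yel_unit
      intro M hM hm
      have h3 := hw M hM
      rw [Ideal.Quotient.eq_zero_iff_mem.2 hm] at h3
      have hfield : Nontrivial (B ⧸ M) := Ideal.Quotient.nontrivial_iff.2 hM.ne_top
      exact zero_ne_one h3
    obtain ⟨w', hw'⟩ := hwu.exists_right_inv
    have h3 : (y * w') ^ q = 1 := by
      rw [mul_pow, ← hwq, ← mul_pow, hw', one_pow]
    have : NeZero q := ⟨hq.ne_zero⟩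
    obtain ⟨i, hi, hi2⟩ := hζ.eq_pow_of_pow_eq_one h3
    have h4 : y = ζ ^ i * w := by
      rw [hi2, mul_assoc, mul_comm w', hw', mul_one]
    have h5 : (Ideal.Quotient.mk M₂ ζ) ^ i = 1 := by
      have h6 := congrArg (Ideal.Quotient.mk M₂) h4
      rw [map_mul, map_pow, hw M₂ h2, mul_one, hy2 M₂ h2 hne] at h6
      exact h6.symm
    have h6 : q ∣ i := (hroot M₂ h2).dvd_of_pow_eq_one i h5
    have h7 : i = 0 := Nat.eq_zero_of_dvd_of_lt h6 hi
    rw [h7, pow_zero, one_mul] at h4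
    have h8 := hw M₁ h1
    rw [← h4, hy1] at h8
    exact (hroot M₁ h1).ne_one hq.one_lt h8
  · intro j hj hj2
    apply yel_unit
    intro M hM hm
    have h3 := Ideal.Quotient.eq_zero_iff_mem.2 hm
    rw [map_sub, map_add, map_pow, map_pow] at h3
    by_cases h : M = M₁
    · subst h
      rw [hy1] at h3
      let := Ideal.Quotient.field M
      have hc : CharZero (B ⧸ M) := by
        refine charZero_of_inj_zero fun n hn => ?_
        by_contra hn0
        exact yel_nat hnat M hM n hn0 hn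
      exact cyc_ne hq (hroot M hM) hj hj2 h3
    · rw [hy2 M hM h, one_pow, one_pow] at h3
      have hfield : Nontrivial (B ⧸ M) := Ideal.Quotient.nontrivial_iff.2 hM.ne_top
      rw [add_sub_cancel_right] at h3
      exact one_ne_zero h3

end Pool.Agent.Work.MP_ae9a8c_lc.FI
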