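import Pool.Agent.Work.MP_ae9a8c_lc.FI.Contra
import Pool.Agent.Work.MP_ae9a8c_lc.FI.Hom
import Pool.Agent.Work.MP_ae9a8c_lc.FI.Yel
import Pool.Agent.Work.MP_ae9a8c_lc.FI.Conv
import Pool.Agent.Work.MP_ae9a8c_lc.FI.NotHens
import Pool.Agent.Work.MP_ae9a8c_lc.FI.NipU
import Pool.Agent.Work.MP_ae9a8c_lc.FI.PowFin
import Pool.Agent.Work.MP_ae9a8c_lc.FI.AdjZ
import Pool.Agent.Work.MP_ae9a8c_lc.FI.Hen1
import Pool.Agent.Work.MP_ae9a8c_lc.FI.Hen2

/-!
Main (assembly, helper84).
-/

set_option autoImplicit false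

namespace Pool.Agent.Work.MP_ae9a8c_lc.FI

/-- Principal units: `1 - c (s + d)` with `s`, `d` in the Jacobson radical. -/
private theorem pu_one_sub {B : Type} [CommRing B] (c : B) {x : B}
    (hx : x ∈ Ideal.jacobson (⊥ : Ideal B)) : PU (1 - c * x) := by
  unfold PU
  have : 1 - c * x - 1 = -(c * x) := by ring
  rw [this]
  exact (Ideal.jacobson (⊥ : Ideal B)).neg_mem (Ideal.mul_mem_left _ _ hx)

theorem no_two_max {K L : Type} [Field K] (O : ValuationSubring K)
    (hO : CharZero (IsLocalRing.ResidueField O)) (hN : NIP K O) [Field L] [Algebra K L]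
    [FiniteDimensional K L] {q : ℕ} (hq : q.Prime) (hζ : ∃ ζ : L, IsPrimitiveRoot ζ q)
    (hfin : FinPrU O L q) (h2 : TwoMax O L) : False := by
  classical
  have hchO : CharZero O := (IsLocalRing.residue O).charZero
  have hchK : CharZero K := charZero_of_injective_algebraMap (R := O) (A := K)
    (IsFractionRing.injective O K)
  obtain ⟨ζ, hζ⟩ := hζ
  obtain ⟨M₁, M₂, hM₁, hM₂, hne⟩ := h2
  have hnat : ∀ n : ℕ, n ≠ 0 → IsUnit (n : integralClosure O L) := by
    intro n hn
    have h1 : IsUnit (n : O) := by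
      by_contra h
      have h2 : (n : O) ∈ IsLocalRing.maximalIdeal O := (IsLocalRing.mem_maximalIdeal _).2 h
      have h3 : IsLocalRing.residue O (n : O) = 0 := (IsLocalRing.residue_eq_zero_iff _).2 h2
      rw [map_natCast] at h3
      exact hn (Nat.cast_eq_zero.1 h3)
    have h2 := h1.map (algebraMap O (integralClosure O L))
    rwa [map_natCast] at h2
  have hint : IsIntegral O ζ := by
    refine IsIntegral.of_pow hq.pos ?_
    rw [hζ.pow_eq_one]
    exact isIntegral_one
  have hζ' : IsPrimitiveRoot (⟨ζ, hint⟩ : integralClosure O L) q :=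
    IsPrimitiveRoot.of_map_of_injective (f := algebraMap (integralClosure O L) L) hζ
      Subtype.val_injective
  obtain ⟨y, hyu, hyq, hyw, hyj⟩ := exists_y hnat (fin_max O) hq hζ' M₁ M₂ hM₁ hM₂ hne
  obtain ⟨F, hmul, hFy, hS⟩ := exists_hom hq (y ^ q) hyq hyw (finPrU_conv O hfin)
  have hcore : Core (integralClosure O L) q F y :=
    { qp := hq, nat := hnat, mul := hmul, yu := hyu, yq := hyq, Fy := hFy, un := hyj }
  refine contra hcore ?_
  intro t
  obtain ⟨S, hS1, hS2⟩ := hS t
  obtain ⟨N, hNN⟩ := nip_pw O hN q (S.image fun s : integralClosure O L => (s : L))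
  refine ⟨N, fun ⟨s, hs, hA⟩ => hNN ⟨fun i => (s i : L), fun A => ?_⟩⟩
  obtain ⟨c, d, hd, hcd⟩ := hA A
  refine ⟨(c : L), (d : L), fun i => ?_⟩
  rw [← hcd i, hS2 _ (pu_one_sub c ((Ideal.jacobson (⊥ : Ideal (integralClosure O L))).add_mem
    (hs i) hd))]
  constructor
  · rintro ⟨ρ, hρ, w, hw, he⟩
    rw [Finset.mem_image] at hρ
    obtain ⟨r, hr, rfl⟩ := hρ
    obtain ⟨w', rfl, hw'⟩ := (prU_iff O w).1 hw
    refine ⟨r, hr, w', hw', ?_⟩
    apply Subtype.val_injective
    push_cast
    exact he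
  · rintro ⟨r, hr, w', hw', he⟩
    refine ⟨(r : L), Finset.mem_image_of_mem _ hr, (w' : L), (prU_iff O _).2 ⟨w', rfl, hw'⟩, ?_⟩
    have := congrArg (Subtype.val) he
    push_cast at this
    exact this

/-- Main theorem. -/
theorem henselian_of_finPrU (K : Type) [Field K] (O : ValuationSubring K)
    (hO : CharZero (IsLocalRing.ResidueField O)) (hN : NIP K O)
    (h : ∀ L : IntermediateField K (AlgebraicClosure K), FiniteDimensional K L →
      ∃ L' : IntermediateField K (AlgebraicClosure K), L ≤ L' ∧ FiniteDimensional K L' ∧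
        ∃ q : ℕ, q.Prime ∧ (∃ ζ : L', IsPrimitiveRoot ζ q) ∧ FinPrU O L' q) :
    HenselianLocalRing O := by
  by_contra hnot
  obtain ⟨L, hL, h2⟩ := exists_two_max O hO hnot
  obtain ⟨L', hLL, hL', q, hq, hζ, hf⟩ := h L hL
  exact no_two_max O hO hN hq hζ hf (two_up O (IntermediateField.inclusion hLL) h2)

/-- Principal units of finite extensions of henselian fields are `q`-th powers. -/
theorem prU_root_of_henselian (K : Type) [Field K] (O : ValuationSubring K)
    (hO : CharZero (IsLocalRing.ResidueField O)) (hH : HenselianLocalRing O)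
    (L : IntermediateField K (AlgebraicClosure K)) (hL : FiniteDimensional K L) {q : ℕ}
    (hq : q.Prime) (u : L) (hu : PrU O u) : ∃ w : L, PrU O w ∧ u = w ^ q :=
  prU_root O hO (fun _ hN _ => haveI := hN; not_two_max O hH) L hL hq u hu

/-- The special case of finitely many classes modulo `q`-th powers. -/
theorem henselian_of_finPow (K : Type) [Field K] (O : ValuationSubring K)
    (hO : CharZero (IsLocalRing.ResidueField O)) (hN : NIP K O) {q : ℕ} (hq : q.Prime)
    (h : ∀ L : IntermediateField K (AlgebraicClosure K), FiniteDimensional K L → FinPow L q) :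
    HenselianLocalRing O := by
  have hchO : CharZero O := (IsLocalRing.residue O).charZero
  have hchK : CharZero K := charZero_of_injective_algebraMap (R := O) (A := K)
    (IsFractionRing.injective O K)
  refine henselian_of_finPrU K O hO hN fun L hL => ?_
  obtain ⟨L', hLL, hL', hζ⟩ := exists_adj hq L hL
  exact ⟨L', hLL, hL', q, hq, hζ, finPrU_of_finPow O hq (h L' hL')⟩

/-- The equivalence. -/
theorem henselian_tfae (K : Type) [Field K] (O : ValuationSubring K)
    (hO : CharZero (IsLocalRing.ResidueField O)) (hN : NIP K O) :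
    (HenselianLocalRing O ↔ ∀ L : IntermediateField K (AlgebraicClosure K),
      FiniteDimensional K L → ∃ L' : IntermediateField K (AlgebraicClosure K), L ≤ L' ∧
        FiniteDimensional K L' ∧ ∃ q : ℕ, q.Prime ∧ (∃ ζ : L', IsPrimitiveRoot ζ q) ∧
          (FinPow L' q ∨ FinPrU O L' q)) ∧
    (HenselianLocalRing O ↔ ∀ L : IntermediateField K (AlgebraicClosure K),
      FiniteDimensional K L → ∀ q : ℕ, q.Prime → ∀ u : L, PrU O u →
        ∃ w : L, PrU O w ∧ u = w ^ q) := by
  classical
  have hchO : CharZero O := (IsLocalRing.residue O).charZero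
  have hchK : CharZero K := charZero_of_injective_algebraMap (R := O) (A := K)
    (IsFractionRing.injective O K)
  have h1 : HenselianLocalRing O → ∀ L : IntermediateField K (AlgebraicClosure K),
      FiniteDimensional K L → ∀ q : ℕ, q.Prime → ∀ u : L, PrU O u →
        ∃ w : L, PrU O w ∧ u = w ^ q :=
    fun hH L hL q hq u hu => prU_root_of_henselian K O hO hH L hL hq u hu
  have h2 : (∀ L : IntermediateField K (AlgebraicClosure K),
      FiniteDimensional K L → ∀ q : ℕ, q.Prime → ∀ u : L, PrU O u →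
        ∃ w : L, PrU O w ∧ u = w ^ q) → ∀ L : IntermediateField K (AlgebraicClosure K),
      FiniteDimensional K L → ∃ L' : IntermediateField K (AlgebraicClosure K), L ≤ L' ∧
        FiniteDimensional K L' ∧ ∃ q : ℕ, q.Prime ∧ (∃ ζ : L', IsPrimitiveRoot ζ q) ∧
          FinPrU O L' q := by
    intro h L hL
    obtain ⟨L', hLL, hL', hζ⟩ := exists_adj Nat.prime_two L hL
    refine ⟨L', hLL, hL', 2, Nat.prime_two, hζ, {1}, fun u hu => ?_⟩
    obtain ⟨w, hw, he⟩ := h L' hL' 2 Nat.prime_two u hu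
    exact ⟨1, Finset.mem_singleton_self 1, w, hw, by rw [one_mul, he]⟩
  refine ⟨⟨fun hH L hL => ?_, fun h => henselian_of_finPrU K O hO hN fun L hL => ?_⟩,
    ⟨h1, fun h => henselian_of_finPrU K O hO hN (h2 h)⟩⟩
  · obtain ⟨L', hLL, hL', q, hq, hζ, hf⟩ := h2 (h1 hH) L hL
    exact ⟨L', hLL, hL', q, hq, hζ, Or.inr hf⟩
  · obtain ⟨L', hLL, hL', q, hq, hζ, hf⟩ := h L hL
    exact ⟨L', hLL, hL', q, hq, hζ, hf.elim (finPrU_of_finPow O hq) id⟩

end Pool.Agent.Work.MP_ae9a8c_lc.FI
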