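import Pool.Agent.Work.MP_ae9a8c_lc.FI.Defs

/-!
MODULE Mean (M).  A translation invariant finitely additive probability measure on `ℤ^r`, and simple
properties of means.

PROOF.  (exists_mean) `box n = {a | ∀ l, 0 ≤ a l < n}` (`Fintype.piFinset fun _ => Finset.Ico 0 n`),
`D_n(A) = |A ∩ box n| / n^r`, `μ A = lim D_n(A)` along a nonprincipal ultrafilter `𝒰` on `ℕ` (`Filter.hyperfilter ℕ`;
the limit exists as `D_n(A) ∈ [0, 1]`, `isCompact_Icc.ultrafilter_le_nhds` or `Ultrafilter.lim`).  Additivity and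
`μ univ = 1` are clear (`n ≥ 1` eventually).  Invariance: it is enough to treat `v = ± Pi.single l 1`, or directly:
the symmetric difference of `box n` and `box n - v` has at most `∑ l |v l| n^(r-1)` elements, so
`|D_n(A - v) - D_n(A)| ≤ ∑ |v l| / n → 0`.  (`r = 0`: trivial, one point.)
(mean_mono) `B = A ∪ (B \ A)`.  (mean_union_le), (mean_iUnion_le).
(mean_avg) Let every point be in at most `m` of the sets `S i`, `i ∈ I`.  Then `∑ μ (S i) ≤ m`: decompose `univ` into
the finitely many atoms of the sets `S i` (the fibres of `x ↦ {i ∈ I | x ∈ S i} : X → Finset I`), `μ (S i)` is the sum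
of the `μ`(atoms contained in `S i`), so `∑_i μ (S i) = ∑_atoms (number of i) μ(atom) ≤ m ∑ μ(atom) = m`.
-/

set_option autoImplicit false

namespace Pool.Agent.Work.MP_ae9a8c_lc.FI

private noncomputable def MeanBox (r n : ℕ) : Finset (Fin r → ℤ) :=
  Fintype.piFinset fun _ => Finset.Ico (0 : ℤ) (n : ℤ)

private theorem MeanBox_card (r n : ℕ) : (MeanBox r n).card = n ^ r := by
  simp [MeanBox, Fintype.card_piFinset]

private theorem MeanBox_mem {r n : ℕ} (a : Fin r → ℤ) :
    a ∈ MeanBox r n ↔ ∀ l, 0 ≤ a l ∧ a l < n := by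
  simp [MeanBox, Fintype.mem_piFinset]

open Classical in
private noncomputable def MeanCnt (r n : ℕ) (A : Set (Fin r → ℤ)) : ℕ :=
  ((MeanBox r n).filter fun a => a ∈ A).card

open Classical in
private theorem MeanCnt_le (r n : ℕ) (A : Set (Fin r → ℤ)) : MeanCnt r n A ≤ n ^ r := by
  rw [← MeanBox_card r n]
  exact Finset.card_filter_le _ _

open Classical in
private theorem MeanCnt_univ (r n : ℕ) : MeanCnt r n Set.univ = n ^ r := by
  rw [← MeanBox_card r n]
  unfold MeanCnt
  congr 1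
  ext a
  simp

open Classical in
private theorem MeanCnt_add (r n : ℕ) (A B : Set (Fin r → ℤ)) (h : Disjoint A B) :
    MeanCnt r n (A ∪ B) = MeanCnt r n A + MeanCnt r n B := by
  unfold MeanCnt
  rw [← Finset.card_union_of_disjoint]
  · congr 1
    ext a
    simp only [Finset.mem_filter, Finset.mem_union, Set.mem_union]
    tauto
  · rw [Finset.disjoint_left]
    intro a ha hb
    exact Set.disjoint_left.1 h (Finset.mem_filter.1 ha).2 (Finset.mem_filter.1 hb).2

open Classical in
private theorem MeanCnt_inv (r n M : ℕ) (A : Set (Fin r → ℤ)) (v : Fin r → ℤ)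
    (hM : ∀ l, |v l| ≤ (M : ℤ)) (hn : 2 * M ≤ n) :
    MeanCnt r n {a | a + v ∈ A} + (n - 2 * M) ^ r ≤ MeanCnt r n A + n ^ r := by
  have hinj : Function.Injective (fun a : Fin r → ℤ => a + v) := add_left_injective v
  set Y : Finset (Fin r → ℤ) := (MeanBox r n).image (fun a => a + v) with hY
  have hYc : Y.card = n ^ r := by
    rw [hY, Finset.card_image_of_injective _ hinj, MeanBox_card]
  set Z : Finset (Fin r → ℤ) := Fintype.piFinset fun _ => Finset.Ico (M : ℤ) ((n : ℤ) - M) with hZ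
  have hZc : Z.card = (n - 2 * M) ^ r := by
    rw [hZ, Fintype.card_piFinset]
    simp only [Int.card_Ico, Finset.prod_const, Finset.card_univ, Fintype.card_fin]
    congr 1
    omega
  have hZY : Z ⊆ Y := by
    intro a ha
    rw [hZ, Fintype.mem_piFinset] at ha
    rw [hY, Finset.mem_image]
    refine ⟨a - v, ?_, by simp⟩
    rw [MeanBox_mem]
    intro l
    have h1 := Finset.mem_Ico.1 (ha l)
    have h2 := abs_le.1 (hM l)
    rw [Pi.sub_apply]
    constructor
    · linarith [h1.1, h2.2]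
    · linarith [h1.2, h2.1]
  have hZX : Z ⊆ MeanBox r n := by
    intro a ha
    rw [hZ, Fintype.mem_piFinset] at ha
    rw [MeanBox_mem]
    intro l
    have h1 := Finset.mem_Ico.1 (ha l)
    have h2 : (0 : ℤ) ≤ M := Int.natCast_nonneg M
    constructor
    · linarith [h1.1]
    · linarith [h1.2]
  have h1 : MeanCnt r n {a | a + v ∈ A} = (Y.filter fun a => a ∈ A).card := by
    unfold MeanCnt
    rw [← Finset.card_image_of_injective _ hinj]
    congr 1
    ext a
    simp only [hY, Finset.mem_image, Finset.mem_filter, Set.mem_ofPred_eq]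
    constructor
    · rintro ⟨b, ⟨hb1, hb2⟩, rfl⟩
      exact ⟨⟨b, hb1, rfl⟩, hb2⟩
    · rintro ⟨⟨b, hb1, rfl⟩, hb2⟩
      exact ⟨b, ⟨hb1, hb2⟩, rfl⟩
  have h2 : (Y.filter fun a => a ∈ A) ⊆ ((MeanBox r n).filter fun a => a ∈ A) ∪ (Y \ Z) := by
    intro a ha
    rw [Finset.mem_filter] at ha
    rw [Finset.mem_union, Finset.mem_filter, Finset.mem_sdiff]
    by_cases hz : a ∈ Z
    · exact Or.inl ⟨hZX hz, ha.2⟩
    · exact Or.inr ⟨ha.1, hz⟩
  have h3 := (Finset.card_le_card h2).trans (Finset.card_union_le _ _)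
  have h4 : (Y \ Z).card + Z.card = Y.card := Finset.card_sdiff_add_card_eq_card hZY
  rw [h1]
  have h5 : ((MeanBox r n).filter fun a => a ∈ A).card = MeanCnt r n A := rfl
  omega

private noncomputable def MeanDens (r n : ℕ) (A : Set (Fin r → ℤ)) : ℝ :=
  (MeanCnt r n A : ℝ) / (n : ℝ) ^ r

private theorem MeanDens_mem (r n : ℕ) (A : Set (Fin r → ℤ)) :
    MeanDens r n A ∈ Set.Icc (0 : ℝ) 1 := by
  constructor
  · unfold MeanDens
    positivity
  · unfold MeanDens
    apply div_le_one_of_le₀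
    · exact_mod_cast MeanCnt_le r n A
    · positivity

private theorem MeanDens_inv (r n M : ℕ) (A : Set (Fin r → ℤ)) (v : Fin r → ℤ)
    (hM : ∀ l, |v l| ≤ (M : ℤ)) (hn : 2 * M ≤ n) (h0 : 0 < n) :
    MeanDens r n {a | a + v ∈ A} ≤ MeanDens r n A + (1 - (1 - 2 * (M : ℝ) / n) ^ r) := by
  have h1 := MeanCnt_inv r n M A v hM hn
  have h2 : (MeanCnt r n {a | a + v ∈ A} : ℝ) + ((n : ℝ) - 2 * M) ^ r ≤
      (MeanCnt r n A : ℝ) + (n : ℝ) ^ r := by
    have h3 : ((MeanCnt r n {a | a + v ∈ A} + (n - 2 * M) ^ r : ℕ) : ℝ) ≤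
        ((MeanCnt r n A + n ^ r : ℕ) : ℝ) := by
      exact_mod_cast h1
    push_cast [Nat.cast_sub hn] at h3
    exact h3
  have hn0 : (0 : ℝ) < n := by exact_mod_cast h0
  have hnr : (0 : ℝ) < (n : ℝ) ^ r := by positivity
  have h4 : (1 - 2 * (M : ℝ) / n) ^ r = ((n : ℝ) - 2 * M) ^ r / (n : ℝ) ^ r := by
    rw [← div_pow]
    congr 1
    field_simp
  unfold MeanDens
  rw [h4, div_add' _ _ _ hnr.ne']
  apply div_le_div_of_nonneg_right _ hnr.le
  have h5 : (1 - ((n : ℝ) - 2 * M) ^ r / (n : ℝ) ^ r) * (n : ℝ) ^ r =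
      (n : ℝ) ^ r - ((n : ℝ) - 2 * M) ^ r := by
    field_simp
  rw [h5]
  linarith

theorem exists_mean (r : ℕ) : ∃ μ : Set (Fin r → ℤ) → ℝ, IsMean μ ∧
    ∀ (A : Set (Fin r → ℤ)) (v : Fin r → ℤ), μ {a | a + v ∈ A} = μ A := by
  classical
  have hU : ((Filter.hyperfilter ℕ : Ultrafilter ℕ) : Filter ℕ) ≤ Filter.atTop := by
    rw [← Nat.cofinite_eq_atTop]
    exact Filter.hyperfilter_le_cofinite
  have hex : ∀ A : Set (Fin r → ℤ), ∃ x ∈ Set.Icc (0 : ℝ) 1,
      Filter.Tendsto (fun n => MeanDens r n A) (Filter.hyperfilter ℕ : Ultrafilter ℕ) (nhds x) := by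
    intro A
    exact isCompact_Icc.ultrafilter_le_nhds ((Filter.hyperfilter ℕ).map fun n => MeanDens r n A)
      (by
        rw [Filter.le_principal_iff, Ultrafilter.mem_coe, Ultrafilter.mem_map]
        exact Filter.univ_mem' fun n => MeanDens_mem r n A)
  choose μ hμ1 hμ2 using hex
  refine ⟨μ, ⟨?_, fun A => (hμ1 A).1, ?_⟩, ?_⟩
  · refine tendsto_nhds_unique (hμ2 Set.univ) ?_
    refine Filter.Tendsto.congr' ?_ tendsto_const_nhds
    refine (Filter.Eventually.filter_mono hU (Filter.eventually_gt_atTop 0)).mono fun n hn => ?_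
    have hn0 : (0 : ℝ) < n := by exact_mod_cast hn
    have h1 : MeanDens r n Set.univ = 1 := by
      unfold MeanDens
      rw [MeanCnt_univ, Nat.cast_pow, div_self (by positivity)]
    exact h1.symm
  · intro A B hAB
    refine tendsto_nhds_unique (hμ2 (A ∪ B)) ?_
    refine ((hμ2 A).add (hμ2 B)).congr fun n => ?_
    unfold MeanDens
    rw [MeanCnt_add r n A B hAB, Nat.cast_add, add_div]
  · have key : ∀ (A : Set (Fin r → ℤ)) (v : Fin r → ℤ), μ {a | a + v ∈ A} ≤ μ A := by
      intro A v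
      obtain ⟨M, hM⟩ : ∃ M : ℕ, ∀ l, |v l| ≤ (M : ℤ) := by
        refine ⟨(∑ l, |v l|).toNat, fun l => ?_⟩
        rw [Int.toNat_of_nonneg (Finset.sum_nonneg fun i _ => abs_nonneg _)]
        exact Finset.single_le_sum (f := fun l => |v l|) (fun i _ => abs_nonneg _)
          (Finset.mem_univ l)
      have h1 : Filter.Tendsto (fun n : ℕ => 1 - (1 - 2 * (M : ℝ) / n) ^ r) Filter.atTop
          (nhds (1 - (1 - 0) ^ r)) :=
        tendsto_const_nhds.sub ((tendsto_const_nhds.sub
          (tendsto_const_div_atTop_nhds_zero_nat (2 * (M : ℝ)))).pow r)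
      have h2 := (hμ2 A).add (h1.mono_left hU)
      rw [sub_zero, one_pow, sub_self, add_zero] at h2
      refine le_of_tendsto_of_tendsto (hμ2 {a | a + v ∈ A}) h2 ?_
      refine (Filter.Eventually.filter_mono hU ((Filter.eventually_gt_atTop 0).and
        (Filter.eventually_ge_atTop (2 * M)))).mono fun n hn => ?_
      exact MeanDens_inv r n M A v hM hn.2 hn.1
    intro A v
    refine le_antisymm (key A v) ?_
    have h := key {a | a + v ∈ A} (-v)
    simpa using h

theorem mean_mono {X : Type} {μ : Set X → ℝ} (hμ : IsMean μ) {A B : Set X} (h : A ⊆ B) :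
    μ A ≤ μ B := by
  have h1 := hμ.add A (B \ A) disjoint_sdiff_self_right
  rw [Set.union_sdiff_cancel h] at h1
  rw [h1]
  exact le_add_of_nonneg_right (hμ.nonneg _)

theorem mean_union_le {X : Type} {μ : Set X → ℝ} (hμ : IsMean μ) (A B : Set X) :
    μ (A ∪ B) ≤ μ A + μ B := by
  have h1 := hμ.add A (B \ A) disjoint_sdiff_self_right
  rw [Set.union_sdiff_self] at h1
  rw [h1]
  exact add_le_add le_rfl (mean_mono hμ Set.sdiff_subset)

private theorem Mean_empty {X : Type} {μ : Set X → ℝ} (hμ : IsMean μ) : μ ∅ = 0 := by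
  have h1 := hμ.add ∅ ∅ (Set.disjoint_empty _)
  rw [Set.union_empty] at h1
  linarith

theorem mean_iUnion_le {X ι : Type} [Fintype ι] {μ : Set X → ℝ} (hμ : IsMean μ)
    (A : ι → Set X) : μ (⋃ i, A i) ≤ ∑ i, μ (A i) := by
  classical
  have key : ∀ s : Finset ι, μ (⋃ i ∈ s, A i) ≤ ∑ i ∈ s, μ (A i) := by
    intro s
    induction s using Finset.induction_on with
    | empty => simp [Mean_empty hμ]
    | insert a s ha ih =>
      rw [Finset.set_biUnion_insert, Finset.sum_insert ha]
      exact (mean_union_le hμ _ _).trans (add_le_add le_rfl ih)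
  have h := key Finset.univ
  simpa using h

private theorem Mean_fib {X β : Type} [DecidableEq β] {μ : Set X → ℝ} (hμ : IsMean μ) (f : X → β)
    (s : Finset β) : ∀ Y : Set X, (∀ x ∈ Y, f x ∈ s) → μ Y = ∑ b ∈ s, μ {x | x ∈ Y ∧ f x = b} := by
  induction s using Finset.induction_on with
  | empty =>
    intro Y hY
    have h1 : Y = ∅ := by
      ext x
      constructor
      · intro hx
        exact absurd (hY x hx) (Finset.notMem_empty _)
      · intro hx
        exact absurd hx (Set.notMem_empty _)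
    rw [h1, Mean_empty hμ, Finset.sum_empty]
  | insert a s ha ih =>
    intro Y hY
    rw [Finset.sum_insert ha]
    have h1 : Y = {x | x ∈ Y ∧ f x = a} ∪ {x | x ∈ Y ∧ f x ≠ a} := by
      ext x
      simp only [Set.mem_union, Set.mem_ofPred_eq]
      tauto
    have h2 : Disjoint {x | x ∈ Y ∧ f x = a} {x | x ∈ Y ∧ f x ≠ a} := by
      rw [Set.disjoint_left]
      rintro x ⟨_, hx⟩ ⟨_, hx'⟩
      exact hx' hx
    have h3 := hμ.add _ _ h2
    rw [← h1] at h3
    rw [h3]
    congr 1
    rw [ih {x | x ∈ Y ∧ f x ≠ a} (by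
      rintro x ⟨hx, hx'⟩
      exact (Finset.mem_insert.1 (hY x hx)).resolve_left hx')]
    refine Finset.sum_congr rfl fun b hb => ?_
    congr 1
    ext x
    simp only [Set.mem_ofPred_eq]
    constructor
    · rintro ⟨⟨h4, _⟩, h5⟩
      exact ⟨h4, h5⟩
    · rintro ⟨h4, h5⟩
      refine ⟨⟨h4, ?_⟩, h5⟩
      rintro h6
      exact ha (by rwa [← h6, h5])

open Classical in
theorem mean_avg {X ι : Type} {μ : Set X → ℝ} (hμ : IsMean μ) (I : Finset ι) (S : ι → Set X)
    (m : ℕ) (h : ∀ x, (I.filter fun i => x ∈ S i).card ≤ m) : ∑ i ∈ I, μ (S i) ≤ m := by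
  set f : X → Finset ι := fun x => I.filter fun i => x ∈ S i with hf
  have hfm : ∀ x, f x ∈ I.powerset := fun x => Finset.mem_powerset.2 (Finset.filter_subset _ _)
  have h1 : ∀ i ∈ I, μ (S i) = ∑ J ∈ I.powerset, μ {x | x ∈ S i ∧ f x = J} :=
    fun i _ => Mean_fib hμ f I.powerset (S i) fun x _ => hfm x
  have h2 : μ Set.univ = ∑ J ∈ I.powerset, μ {x | x ∈ Set.univ ∧ f x = J} :=
    Mean_fib hμ f I.powerset Set.univ fun x _ => hfm x
  rw [hμ.univ] at h2
  rw [Finset.sum_congr rfl h1, Finset.sum_comm]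
  have h3 : ∀ J ∈ I.powerset, ∑ i ∈ I, μ {x | x ∈ S i ∧ f x = J} ≤
      (m : ℝ) * μ {x | x ∈ Set.univ ∧ f x = J} := by
    intro J hJ
    have h4 : ∀ i ∈ I, μ {x | x ∈ S i ∧ f x = J} =
        if i ∈ J then μ {x | x ∈ Set.univ ∧ f x = J} else 0 := by
      intro i hi
      split_ifs with hiJ
      · congr 1
        ext x
        simp only [Set.mem_ofPred_eq, Set.mem_univ, true_and]
        constructor
        · exact fun hx => hx.2
        · intro hx
          refine ⟨?_, hx⟩
          rw [← hx, hf] at hiJ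
          exact (Finset.mem_filter.1 hiJ).2
      · have h5 : {x | x ∈ S i ∧ f x = J} = ∅ := by
          ext x
          simp only [Set.mem_ofPred_eq, Set.mem_empty_iff_false, iff_false]
          rintro ⟨hx1, hx2⟩
          apply hiJ
          rw [← hx2, hf]
          exact Finset.mem_filter.2 ⟨hi, hx1⟩
        rw [h5, Mean_empty hμ]
    rw [Finset.sum_congr rfl h4, ← Finset.sum_filter, Finset.sum_const, nsmul_eq_mul]
    rcases Set.eq_empty_or_nonempty {x | x ∈ Set.univ ∧ f x = J} with he | ⟨x, hx⟩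
    · rw [he, Mean_empty hμ, mul_zero, mul_zero]
    · apply mul_le_mul_of_nonneg_right _ (hμ.nonneg _)
      have h6 : (I.filter fun i => i ∈ J) = J := by
        ext i
        rw [Finset.mem_filter]
        exact ⟨fun h => h.2, fun h => ⟨Finset.mem_powerset.1 hJ h, h⟩⟩
      rw [h6]
      have h7 := h x
      have h8 : (I.filter fun i => x ∈ S i) = J := hx.2
      rw [h8] at h7
      exact_mod_cast h7
  refine (Finset.sum_le_sum h3).trans ?_
  rw [← Finset.mul_sum, ← h2, mul_one]

end Pool.Agent.Work.MP_ae9a8c_lc.FI
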