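import Pool.Agent.Work.MP_ae9a8c_lc.FI.Defs

/-!
MODULE Nb (S-M, ring theory).  The new parameter `nb`.

PROOF.  Write `u' = σ y^(j+1)`, `σ_j = σ (y + y^j - y^(j+1))`; `1 - u' x` is a unit because `x` is in the Jacobson
radical (`Ideal.mem_jacobson_bot`: `IsUnit (x * y + 1)` for all `y`), so
`Ring.mul_inverse_cancel`/`Ring.inverse_mul_cancel` apply.  All `1 - c x` with `x` in the Jacobson radical are
principal units, products, inverses of principal units are principal units, a principal unit is a unit.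
(nb_unit) `nb = (σ_j - σ² y^(j+1) x) (1 - u' x)⁻¹`; `σ_j` is a unit, and unit + (element of the radical) is a
unit.
(nb_self) `1 - nb x = (1 - σ y x)(1 - σ y^j x) (1 - u' x)⁻¹`: multiply by `1 - u' x`:
`1 - u' x - σ_j x + σ² y^(j+1) x² = (1 - σ y x)(1 - σ y^j x)` (`ring`).  Then `h.mul` (twice; apply it to
`(1 - nb x) * (1 - u' x)`, all factors are principal units).
(nb_other) `(1 - nb z)(1 - u' x) = (1 - σ_j z) (1 - γ u' x)` where `γ (1 - σ_j z) = 1 - σ z`: indeed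
`1 - u' x - σ_j z + σ² y^(j+1) x z = (1 - σ_j z) - u' x (1 - σ z)`.  So
`F(1 - nb z) + F(1 - u' x) = F(1 - σ_j z) + F(1 - γ u' x) = F(1 - σ_j z) + F γ + F(1 - u' x)` and
`F(1 - σ_j z) + F γ = F(1 - σ z)`.
-/

set_option autoImplicit false

namespace Pool.Agent.Work.MP_ae9a8c_lc.FI

private theorem pu_of {B : Type} [CommRing B] {x : B} (hx : x ∈ Ideal.jacobson (⊥ : Ideal B))
    (c : B) : PU (1 - c * x) := by
  unfold PU
  have h : 1 - c * x - 1 = (-c) * x := by ring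
  rw [h]
  exact Ideal.mul_mem_left _ _ hx

private theorem pu_unit {B : Type} [CommRing B] {u : B} (h : PU u) : IsUnit u := by
  have h1 := Ideal.mem_jacobson_bot.1 h 1
  have h2 : (u - 1) * 1 + 1 = u := by ring
  rwa [h2] at h1

private theorem unit_add {B : Type} [CommRing B] {a m : B} (ha : IsUnit a)
    (hm : m ∈ Ideal.jacobson (⊥ : Ideal B)) : IsUnit (a + m) := by
  obtain ⟨v, rfl⟩ := ha
  have h1 := Ideal.mem_jacobson_bot.1 hm ((v⁻¹ : Bˣ) : B)
  have h2 : (v : B) + m = v * (m * ((v⁻¹ : Bˣ) : B) + 1) := by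
    have h3 : (v : B) * ((v⁻¹ : Bˣ) : B) = 1 := Units.mul_inv v
    linear_combination (-m) * h3
  rw [h2]
  exact v.isUnit.mul h1

private theorem pu_mul {B : Type} [CommRing B] {u v : B} (hu : PU u) (hv : PU v) :
    PU (u * v) := by
  unfold PU at *
  have h : u * v - 1 = v * (u - 1) + (v - 1) := by ring
  rw [h]
  exact Ideal.add_mem _ (Ideal.mul_mem_left _ _ hu) hv

private theorem nb_mul {B : Type} [CommRing B] (y σ : B) (j : ℕ) {x : B}
    (hx : x ∈ Ideal.jacobson (⊥ : Ideal B)) :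
    nb y σ j x * (1 - σ * y ^ (j + 1) * x) =
      σ * (y + y ^ j - y ^ (j + 1)) - σ ^ 2 * y ^ (j + 1) * x := by
  unfold nb
  rw [mul_assoc, Ring.inverse_mul_cancel _ (pu_unit (pu_of hx _)), mul_one]

private theorem pu_of_mul {B : Type} [CommRing B] {u v : B} (h : PU (u * v)) (hv : PU v) :
    PU u := by
  unfold PU at *
  have h1 := pu_unit hv
  obtain ⟨w, rfl⟩ := h1
  have h2 : u - 1 = ((w⁻¹ : Bˣ) : B) * ((u * (w : B) - 1) - ((w : B) - 1)) := by
    have h3 : ((w⁻¹ : Bˣ) : B) * (w : B) = 1 := Units.inv_mul w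
    linear_combination (1 - u) * h3
  rw [h2]
  exact Ideal.mul_mem_left _ _ (Ideal.sub_mem _ h hv)

theorem nb_unit {B : Type} [CommRing B] {q : ℕ} {F : B → ZMod q} {y : B} (h : Core B q F y)
    {σ x : B} (hσ : IsUnit σ) (hx : x ∈ Ideal.jacobson (⊥ : Ideal B)) {j : ℕ} (h1 : 1 ≤ j)
    (h2 : j < q) : IsUnit (nb y σ j x) := by
  unfold nb
  have h3 : IsUnit (1 - σ * y ^ (j + 1) * x) := pu_unit (pu_of hx _)
  refine IsUnit.mul ?_ (isUnit_ringInverse.2 h3)
  rw [sub_eq_add_neg]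
  refine unit_add (hσ.mul (h.un j h1 h2)) ?_
  rw [← neg_mul]
  exact Ideal.mul_mem_left _ _ hx

theorem nb_self {B : Type} [CommRing B] {q : ℕ} {F : B → ZMod q} {y : B} (h : Core B q F y)
    {σ x : B} (hx : x ∈ Ideal.jacobson (⊥ : Ideal B)) (j : ℕ) :
    F (1 - nb y σ j x * x) =
      F (1 - σ * y * x) + F (1 - σ * y ^ j * x) - F (1 - σ * y ^ (j + 1) * x) := by
  have h1 : (1 - nb y σ j x * x) * (1 - σ * y ^ (j + 1) * x) =
      (1 - σ * y * x) * (1 - σ * y ^ j * x) := by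
    have h2 := nb_mul y σ j hx
    linear_combination (-x) * h2
  have hD : PU (1 - σ * y ^ (j + 1) * x) := pu_of hx _
  have hN : PU (1 - nb y σ j x * x) := pu_of hx _
  have h3 := h.mul _ _ hN hD
  have h4 := h.mul _ _ (pu_of hx (σ * y)) (pu_of hx (σ * y ^ j))
  rw [h1, h4] at h3
  rw [h3]
  ring

theorem nb_other {B : Type} [CommRing B] {q : ℕ} {F : B → ZMod q} {y : B} (h : Core B q F y)
    {σ x z : B} (hx : x ∈ Ideal.jacobson (⊥ : Ideal B)) (hz : z ∈ Ideal.jacobson (⊥ : Ideal B))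
    (j : ℕ) (γ : B) (hγ : PU γ) (hγ1 : γ * (1 - σ * (y + y ^ j - y ^ (j + 1)) * z) = 1 - σ * z)
    (hE : F (1 - γ * (σ * y ^ (j + 1)) * x) = F γ + F (1 - σ * y ^ (j + 1) * x)) :
    F (1 - nb y σ j x * z) = F (1 - σ * z) := by
  have h1 : (1 - nb y σ j x * z) * (1 - σ * y ^ (j + 1) * x) =
      (1 - σ * (y + y ^ j - y ^ (j + 1)) * z) * (1 - γ * (σ * y ^ (j + 1)) * x) := by
    have h2 := nb_mul y σ j hx
    linear_combination (-z) * h2 + (σ * y ^ (j + 1) * x) * hγ1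
  have h3 := h.mul _ _ (pu_of hz (nb y σ j x)) (pu_of hx (σ * y ^ (j + 1)))
  have h4 := h.mul _ _ (pu_of hz (σ * (y + y ^ j - y ^ (j + 1)))) (pu_of hx (γ * (σ * y ^ (j + 1))))
  have h5 := h.mul _ _ hγ (pu_of hz (σ * (y + y ^ j - y ^ (j + 1))))
  rw [hγ1] at h5
  rw [h1, h4, hE] at h3
  rw [h5]
  linear_combination -h3

end Pool.Agent.Work.MP_ae9a8c_lc.FI
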