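import Pool.Agent.Work.MP_ae9a8c_lc.FI.Mean

/-!
MODULE Pack (M).  Packing lemma for a mean and a family of polynomial growth, and the colouring.

PROOF.  (pack) Let `Q` be finite with `μ {x | G p x ≠ G p' x} > ε` for all `p ≠ p'` in `Q`.  Claim: for all `k` there
are `s : Fin k → X` such that the number of pairs `(p, p') ∈ Q.offDiag` which agree at all `s i` is at most
`(1 - ε)^k |Q|²`: induction on `k`; let `E` be the set of the pairs which agree at `s 0, ..., s (k-1)`; by
`mean_avg` (contraposition: `∑_{E} μ {x | G p x ≠ G p' x} ≥ ε |E|`; if every `x` distinguished at most `m` pairs,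
`m` a natural number, then the sum is `≤ m`; take `m` = the maximum over `x` of the number of the distinguished
pairs, attained at some `x`) there is an `x` which distinguishes at least `ε |E|` pairs of `E`.
If `(1 - ε)^k |Q|² < 1` there is no such pair, all patterns on `s` are different, so `|Q| ≤ (k + 1)^D`
(`hG`).  Take `k` minimal natural with `k ≥ (2 log |Q| + 1) / ε` (then `(1-ε)^k |Q|² ≤ exp(-ε k) |Q|² < 1`), so
`|Q| ≤ ((2 log |Q| + 1)/ε + 2)^D`, which bounds `|Q|` by a number depending on `ε`, `D` only (growth of `log`: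
e.g. `log N = o(N^{1/(2D+1)})`, or: the function tends to infinity, `Filter.Tendsto`, so the set of such `N` is
bounded; or replace: choose once and for all `N₀` with `(1-ε)^k (N₀)² < 1`, `(k+1)^D < N₀` for some `k`, which
exists because `(k+1)^D = o((1-ε)^(-k/2))` (`tendsto_pow_const_mul_const_pow_of_abs_lt_one`): take
`N₀ = (k+1)^D + 1` with `k` so large that `(1-ε)^k ((k+1)^D + 1)² < 1`; if `|Q| > N₀` pass to a subset of `Q` with
exactly `N₀` elements: contradiction).  The last argument is the shortest.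
(net) Let `Q` be a finite set with pairwise distances `> ε` of maximal cardinality (exists by `pack`).  Every `p` has
distance `≤ ε` from some element of `Q` (otherwise add it; for `p ∈ Q` the distance is `0`: `μ ∅ = 0`); colour `p` by
such an element.  Triangle inequality: `{G p ≠ G p'} ⊆ {G p ≠ G p₀} ∪ {G p' ≠ G p₀}`.
-/

set_option autoImplicit false

namespace Pool.Agent.Work.MP_ae9a8c_lc.FI

private theorem Pack_empty {X : Type} {μ : Set X → ℝ} (hμ : IsMean μ) : μ ∅ = 0 := by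
  have h1 := hμ.add ∅ ∅ (Set.disjoint_empty _)
  rw [Set.union_empty] at h1
  linarith

open Classical in
private theorem Pack_step {P X T : Type} {μ : Set X → ℝ} (hμ : IsMean μ) (G : P → X → T)
    {ε : ℝ} (h1 : ε < 1) (Q : Finset P)
    (hQ : ∀ p ∈ Q, ∀ p' ∈ Q, p ≠ p' → ε < μ {x | G p x ≠ G p' x}) (k : ℕ) :
    ∃ s : Fin k → X,
      (((Q.offDiag).filter fun e => ∀ i, G e.1 (s i) = G e.2 (s i)).card : ℝ) ≤
        (1 - ε) ^ k * (Q.card : ℝ) ^ 2 := by
  induction k with
  | zero =>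
    refine ⟨fun i => i.elim0, ?_⟩
    rw [pow_zero, one_mul]
    have h2 : ((Q.offDiag).filter fun e : P × P => ∀ i : Fin 0,
        G e.1 ((fun i : Fin 0 => (i.elim0 : X)) i) = G e.2 ((fun i : Fin 0 => (i.elim0 : X)) i)).card ≤
        Q.card * Q.card :=
      (Finset.card_filter_le _ _).trans (by
        rw [Finset.offDiag_card]
        exact Nat.sub_le _ _)
    have h3 : (((Q.offDiag).filter fun e : P × P => ∀ i : Fin 0,
        G e.1 ((fun i : Fin 0 => (i.elim0 : X)) i) =
          G e.2 ((fun i : Fin 0 => (i.elim0 : X)) i)).card : ℝ) ≤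
        (Q.card : ℝ) * Q.card := by exact_mod_cast h2
    rw [sq]
    exact h3
  | succ k ih =>
    obtain ⟨s, hs⟩ := ih
    set E := (Q.offDiag).filter fun e : P × P => ∀ i, G e.1 (s i) = G e.2 (s i) with hE
    have hx : ∃ x : X, ε * (E.card : ℝ) ≤
        ((E.filter fun e => G e.1 x ≠ G e.2 x).card : ℝ) := by
      rcases E.eq_empty_or_nonempty with hemp | hne
      · have hX : Nonempty X := by
          by_contra hX
          rw [not_nonempty_iff] at hX
          have h2 : (Set.univ : Set X) = ∅ := Set.eq_empty_of_isEmpty _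
          have h3 := hμ.univ
          rw [h2, Pack_empty hμ] at h3
          exact zero_ne_one h3
        obtain ⟨x⟩ := hX
        refine ⟨x, ?_⟩
        rw [hemp]
        simp
      · by_contra hcon
        push Not at hcon
        set m := ⌈ε * (E.card : ℝ)⌉₊ - 1 with hm
        have hpos : 0 < ⌈ε * (E.card : ℝ)⌉₊ := by
          obtain ⟨e, he⟩ := hne
          have hX : Nonempty X := by
            by_contra hX
            rw [not_nonempty_iff] at hX
            have h2 : (Set.univ : Set X) = ∅ := Set.eq_empty_of_isEmpty _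
            have h3 := hμ.univ
            rw [h2, Pack_empty hμ] at h3
            exact zero_ne_one h3
          obtain ⟨x⟩ := hX
          have h2 := hcon x
          have h3 : (0 : ℝ) ≤ ((E.filter fun e => G e.1 x ≠ G e.2 x).card : ℝ) := Nat.cast_nonneg _
          exact Nat.ceil_pos.2 (lt_of_le_of_lt h3 h2)
        have h2 : ∀ x, (E.filter fun e => x ∈ (fun e : P × P => {x | G e.1 x ≠ G e.2 x}) e).card ≤
            m := by
          intro x
          have h3 : (E.filter fun e => G e.1 x ≠ G e.2 x).card < ⌈ε * (E.card : ℝ)⌉₊ :=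
            Nat.lt_ceil.2 (hcon x)
          have h4 : (E.filter fun e => x ∈ (fun e : P × P => {x | G e.1 x ≠ G e.2 x}) e) =
              E.filter fun e => G e.1 x ≠ G e.2 x := by
            ext e
            simp
          rw [h4]
          omega
        have h3 := mean_avg hμ E (fun e : P × P => {x | G e.1 x ≠ G e.2 x}) m (by
          intro x
          convert h2 x)
        have h4 : ε * (E.card : ℝ) ≤ ∑ e ∈ E, μ ((fun e : P × P => {x | G e.1 x ≠ G e.2 x}) e) := by
          rw [mul_comm, ← nsmul_eq_mul]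
          refine Finset.card_nsmul_le_sum _ _ _ fun e he => ?_
          rw [hE, Finset.mem_filter, Finset.mem_offDiag] at he
          exact (hQ _ he.1.1 _ he.1.2.1 he.1.2.2).le
        have h5 : (m : ℝ) < ε * (E.card : ℝ) := by
          apply Nat.lt_ceil.1
          omega
        linarith
    obtain ⟨x, hx⟩ := hx
    refine ⟨Fin.snoc s x, ?_⟩
    have h2 : ((Q.offDiag).filter fun e : P × P => ∀ i : Fin (k + 1),
        G e.1 ((Fin.snoc s x : Fin (k + 1) → X) i) = G e.2 ((Fin.snoc s x : Fin (k + 1) → X) i)) =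
        E.filter fun e => ¬ (G e.1 x ≠ G e.2 x) := by
      ext e
      simp only [hE, Finset.mem_filter, Fin.forall_fin_succ', Fin.snoc_castSucc, Fin.snoc_last,
        not_not]
      tauto
    rw [h2]
    have h3 : (E.filter fun e => G e.1 x ≠ G e.2 x).card +
        (E.filter fun e => ¬ (G e.1 x ≠ G e.2 x)).card = E.card :=
      Finset.card_filter_add_card_filter_not _
    have h4 : ((E.filter fun e => G e.1 x ≠ G e.2 x).card : ℝ) +
        ((E.filter fun e => ¬ (G e.1 x ≠ G e.2 x)).card : ℝ) = (E.card : ℝ) := by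
      exact_mod_cast h3
    have h5 : (1 - ε) * (E.card : ℝ) ≤ (1 - ε) * ((1 - ε) ^ k * (Q.card : ℝ) ^ 2) :=
      mul_le_mul_of_nonneg_left hs (by linarith)
    calc ((E.filter fun e => ¬ (G e.1 x ≠ G e.2 x)).card : ℝ)
        ≤ (1 - ε) * (E.card : ℝ) := by linarith
      _ ≤ (1 - ε) * ((1 - ε) ^ k * (Q.card : ℝ) ^ 2) := h5
      _ = (1 - ε) ^ (k + 1) * (Q.card : ℝ) ^ 2 := by ring

private theorem Pack_k (ε : ℝ) (h0 : 0 < ε) (h1 : ε < 1) (D : ℕ) :
    ∃ k : ℕ, (1 - ε) ^ k * (((k + 1) ^ D + 1 : ℕ) : ℝ) ^ 2 < 1 := by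
  have hr : |1 - ε| < 1 := by
    rw [abs_lt]
    constructor <;> linarith
  have h2 := (tendsto_pow_const_mul_const_pow_of_abs_lt_one (2 * D) hr).comp
    (Filter.tendsto_add_atTop_nat 1)
  have h3 := h2.eventually (gt_mem_nhds (show (0 : ℝ) < (1 - ε) / 4 by linarith))
  obtain ⟨k, hk⟩ := h3.exists
  refine ⟨k, ?_⟩
  simp only [Function.comp] at hk
  have h4 : (((k + 1) ^ D + 1 : ℕ) : ℝ) ≤ 2 * ((k + 1 : ℕ) : ℝ) ^ D := by
    push_cast
    have h5 : (1 : ℝ) ≤ ((k : ℝ) + 1) ^ D := one_le_pow₀ (by linarith [Nat.cast_nonneg (α := ℝ) k])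
    linarith
  have h5 : (((k + 1) ^ D + 1 : ℕ) : ℝ) ^ 2 ≤ 4 * ((k + 1 : ℕ) : ℝ) ^ (2 * D) := by
    calc (((k + 1) ^ D + 1 : ℕ) : ℝ) ^ 2 ≤ (2 * ((k + 1 : ℕ) : ℝ) ^ D) ^ 2 :=
          pow_le_pow_left₀ (Nat.cast_nonneg _) h4 2
      _ = 4 * ((k + 1 : ℕ) : ℝ) ^ (2 * D) := by ring
  have h6 : 0 < (1 - ε) ^ k := pow_pos (by linarith) k
  have h7 : (1 - ε) ^ k * (((k + 1) ^ D + 1 : ℕ) : ℝ) ^ 2 ≤
      (1 - ε) ^ k * (4 * ((k + 1 : ℕ) : ℝ) ^ (2 * D)) := mul_le_mul_of_nonneg_left h5 h6.le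
  refine lt_of_le_of_lt h7 ?_
  have h8 : ((k + 1 : ℕ) : ℝ) ^ (2 * D) * (1 - ε) ^ (k + 1) < (1 - ε) / 4 := hk
  rw [pow_succ] at h8
  have h9 : 0 < 1 - ε := by linarith
  have h10 : (1 - ε) * ((1 - ε) ^ k * (4 * ((k + 1 : ℕ) : ℝ) ^ (2 * D))) < (1 - ε) * 1 := by
    nlinarith [h8]
  exact lt_of_mul_lt_mul_left h10 h9.le

theorem pack {P X T : Type} {μ : Set X → ℝ} (hμ : IsMean μ) {G : P → X → T} {D : ℕ}
    (hG : Growth G D) {ε : ℝ} (hε : 0 < ε) :
    ∃ N₀ : ℕ, ∀ Q : Finset P,
      (∀ p ∈ Q, ∀ p' ∈ Q, p ≠ p' → ε < μ {x | G p x ≠ G p' x}) → Q.card ≤ N₀ := by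
  classical
  by_cases h1 : ε < 1
  · obtain ⟨k, hk⟩ := Pack_k ε hε h1 D
    refine ⟨(k + 1) ^ D + 1, fun Q hQ => ?_⟩
    by_contra hlt
    obtain ⟨Q', hQ', hc⟩ := Finset.exists_subset_card_eq (not_le.1 hlt).le
    obtain ⟨s, hs⟩ := Pack_step hμ G h1 Q' (fun p hp p' hp' => hQ p (hQ' hp) p' (hQ' hp')) k
    rw [hc] at hs
    have h2 := lt_of_le_of_lt hs hk
    have h3 : ((Q'.offDiag).filter fun e : P × P => ∀ i, G e.1 (s i) = G e.2 (s i)).card = 0 := by
      have h4 : ((Q'.offDiag).filter fun e : P × P => ∀ i, G e.1 (s i) = G e.2 (s i)).card < 1 := by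
        exact_mod_cast h2
      omega
    rw [Finset.card_eq_zero] at h3
    have h4 := hG k s Q' (by
      intro p hp p' hp' hpp
      by_contra hne
      have h5 : (p, p') ∈ (Q'.offDiag).filter fun e : P × P => ∀ i, G e.1 (s i) = G e.2 (s i) := by
        rw [Finset.mem_filter, Finset.mem_offDiag]
        exact ⟨⟨hp, hp', hne⟩, hpp⟩
      rw [h3] at h5
      exact absurd h5 (Finset.notMem_empty _))
    rw [hc] at h4
    omega
  · refine ⟨1, fun Q hQ => ?_⟩
    rw [Finset.card_le_one]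
    intro p hp p' hp'
    by_contra hne
    have h2 := hQ p hp p' hp' hne
    have h3 : μ {x | G p x ≠ G p' x} ≤ μ Set.univ := mean_mono hμ (Set.subset_univ _)
    rw [hμ.univ] at h3
    linarith

theorem net {P X T : Type} {μ : Set X → ℝ} (hμ : IsMean μ) {G : P → X → T} {D : ℕ}
    (hG : Growth G D) {ε : ℝ} (hε : 0 < ε) :
    ∃ (C : Type) (_ : Finite C) (κ : P → C),
      ∀ p p' : P, κ p = κ p' → μ {x | G p x ≠ G p' x} ≤ 2 * ε := by
  classical
  obtain ⟨N₀, hN₀⟩ := pack hμ hG hε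
  let sep : Finset P → Prop := fun Q =>
    ∀ p ∈ Q, ∀ p' ∈ Q, p ≠ p' → ε < μ {x | G p x ≠ G p' x}
  have h0 : ∃ Q : Finset P, sep Q ∧ Q.card = 0 :=
    ⟨∅, fun p hp => absurd hp (Finset.notMem_empty _), rfl⟩
  obtain ⟨Q, hQ, hQc⟩ : ∃ Q : Finset P, sep Q ∧
      Q.card = Nat.findGreatest (fun n => ∃ Q : Finset P, sep Q ∧ Q.card = n) N₀ :=
    Nat.findGreatest_spec (P := fun n => ∃ Q : Finset P, sep Q ∧ Q.card = n) (Nat.zero_le N₀) h0
  have hmax : ∀ Q' : Finset P, sep Q' → Q'.card ≤ Q.card := by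
    intro Q' hQ'
    rw [hQc]
    exact Nat.le_findGreatest (P := fun n => ∃ Q : Finset P, sep Q ∧ Q.card = n) (hN₀ Q' hQ')
      ⟨Q', hQ', rfl⟩
  have hsymm : ∀ p p' : P, {x | G p x ≠ G p' x} = {x | G p' x ≠ G p x} := by
    intro p p'
    ext x
    exact ne_comm
  have hself : ∀ p : P, μ {x | G p x ≠ G p x} = 0 := by
    intro p
    have h1 : {x | G p x ≠ G p x} = ∅ := by
      ext x
      simp
    rw [h1, Pack_empty hμ]
  have hnear : ∀ p : P, ∃ p₀ : {p // p ∈ Q}, μ {x | G p x ≠ G p₀.1 x} ≤ ε := by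
    intro p
    by_contra hcon
    push Not at hcon
    have hp : p ∉ Q := by
      intro hp
      have h1 := hcon ⟨p, hp⟩
      rw [hself] at h1
      linarith
    have h1 : sep (insert p Q) := by
      intro a ha b hb hab
      rw [Finset.mem_insert] at ha hb
      rcases ha with rfl | ha
      · rcases hb with rfl | hb
        · exact absurd rfl hab
        · exact hcon ⟨b, hb⟩
      · rcases hb with rfl | hb
        · rw [hsymm]
          exact hcon ⟨a, ha⟩
        · exact hQ a ha b hb hab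
    have h2 := hmax _ h1
    rw [Finset.card_insert_of_notMem hp] at h2
    omega
  choose κ hκ using hnear
  refine ⟨{p // p ∈ Q}, inferInstance, κ, fun p p' h => ?_⟩
  have h1 : {x | G p x ≠ G p' x} ⊆ {x | G p x ≠ G (κ p).1 x} ∪ {x | G p' x ≠ G (κ p').1 x} := by
    intro x hx
    by_contra hcon
    rw [Set.mem_union, not_or] at hcon
    obtain ⟨h2, h3⟩ := hcon
    simp only [Set.mem_ofPred_eq, ne_eq, not_not] at h2 h3 hx
    apply hx
    rw [h2, h3, h]
  calc μ {x | G p x ≠ G p' x}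
      ≤ μ ({x | G p x ≠ G (κ p).1 x} ∪ {x | G p' x ≠ G (κ p').1 x}) := mean_mono hμ h1
    _ ≤ μ {x | G p x ≠ G (κ p).1 x} + μ {x | G p' x ≠ G (κ p').1 x} := mean_union_le hμ _ _
    _ ≤ 2 * ε := by linarith [hκ p, hκ p']

end Pool.Agent.Work.MP_ae9a8c_lc.FI
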