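import Pool.Agent.Work.MP_ae9a8c_lc.FI.Nb
import Pool.Agent.Work.MP_ae9a8c_lc.FI.Flip
import Pool.Agent.Work.MP_ae9a8c_lc.FI.GenE

/-!
MODULE Pat (M).  Exponentially many patterns.

PROOF.  Induction on `n`.  `n = 0`: `P = {1}`.  Step: given `x 0, ..., x (n-1)` and `P` with `2^n` elements.
Apply `genE` to the finite family of the pairs
(i) `c = b`, `γ = y^q` for `b ∈ P`;
(ii) `c = b y^(j+1)`, `γ = (1 - b x_i)(1 - b (y + y^j - y^(j+1)) x_i)⁻¹` for `b ∈ P`, `1 ≤ j < q`, `i < n`
(`Ring.inverse`; `γ` is a principal unit)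
(index type e.g. `P ⊕ (P × Fin q × Fin n)`, with `j` the value of `Fin q`; for `j = 0` the same formula may be
used, it is only needed that `c` is a unit and `γ` a principal unit).
This gives `x_n = x`.  For `b ∈ P` let `j` be as in `flip` (with `σ = b`, hypothesis from (i)) and
`b' = nb y b j x`: a unit (`nb_unit`), `F (1 - b' x_i) = F (1 - b x_i)` for `i < n` (`nb_other`, hypothesis from (ii)) and
`F (1 - b' x) ≠ F (1 - b x)` (`nb_self`, `flip`).
`P' = P ∪ {b' | b ∈ P}`: the patterns of the `2^(n+1)` elements `b`, `b'` on `x_0, ..., x_n` are pairwise different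
(for different `b` already on `x_0, ..., x_(n-1)`; `b` and `b'` differ at `x_n`).
(It may be easier to construct an injective map from `Fin n → Bool` or a `Finset` of patterns.)
-/

set_option autoImplicit false

namespace Pool.Agent.Work.MP_ae9a8c_lc.FI

private theorem pt_pu {B : Type} [CommRing B] {x : B} (hx : x ∈ Ideal.jacobson (⊥ : Ideal B))
    (c : B) : PU (1 - c * x) := by
  unfold PU
  have h : 1 - c * x - 1 = (-c) * x := by ring
  rw [h]
  exact Ideal.mul_mem_left _ _ hx

private theorem pt_unit {B : Type} [CommRing B] {u : B} (h : PU u) : IsUnit u := by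
  have h1 := Ideal.mem_jacobson_bot.1 h 1
  have h2 : (u - 1) * 1 + 1 = u := by ring
  rwa [h2] at h1

private theorem pt_of_mul {B : Type} [CommRing B] {u v : B} (h : PU (u * v)) (hv : PU v) :
    PU u := by
  unfold PU at *
  have h1 := pt_unit hv
  obtain ⟨w, rfl⟩ := h1
  have h2 : u - 1 = ((w⁻¹ : Bˣ) : B) * ((u * (w : B) - 1) - ((w : B) - 1)) := by
    have h3 : ((w⁻¹ : Bˣ) : B) * (w : B) = 1 := Units.inv_mul w
    linear_combination (1 - u) * h3
  rw [h2]
  exact Ideal.mul_mem_left _ _ (Ideal.sub_mem _ h hv)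

private theorem pt_gam {B : Type} [CommRing B] {z : B} (hz : z ∈ Ideal.jacobson (⊥ : Ideal B))
    (a b : B) : ((1 - a * z) * Ring.inverse (1 - b * z)) * (1 - b * z) = 1 - a * z := by
  rw [mul_assoc, Ring.inverse_mul_cancel _ (pt_unit (pt_pu hz _)), mul_one]

private theorem pt_gamPU {B : Type} [CommRing B] {z : B} (hz : z ∈ Ideal.jacobson (⊥ : Ideal B))
    (a b : B) : PU ((1 - a * z) * Ring.inverse (1 - b * z)) := by
  refine pt_of_mul ?_ (pt_pu hz b)
  rw [pt_gam hz]
  exact pt_pu hz a

theorem patterns {B : Type} [CommRing B] {q : ℕ} {F : B → ZMod q} {y : B} (h : Core B q F y)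
    (hG : Gen F) (n : ℕ) :
    ∃ x : Fin n → B, (∀ i, x i ∈ Ideal.jacobson (⊥ : Ideal B)) ∧
      ∃ P : Finset B, P.card = 2 ^ n ∧ (∀ b ∈ P, IsUnit b) ∧
        ∀ b ∈ P, ∀ b' ∈ P, (∀ i, F (1 - b * x i) = F (1 - b' * x i)) → b = b' := by
  classical
  induction n with
  | zero =>
    refine ⟨fun i => i.elim0, fun i => i.elim0, {1}, by simp, ?_, ?_⟩
    · intro b hb
      rw [Finset.mem_singleton] at hb
      rw [hb]
      exact isUnit_one
    · intro b hb b' hb' _
      rw [Finset.mem_singleton] at hb hb'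
      rw [hb, hb']
  | succ n ih =>
    obtain ⟨x, hx, P, hcard, hun, hinj⟩ := ih
    let c : (P ⊕ (P × Fin q × Fin n)) → B := fun l =>
      match l with
      | Sum.inl b => b.1
      | Sum.inr (b, j, _) => b.1 * y ^ ((j : ℕ) + 1)
    let γ : (P ⊕ (P × Fin q × Fin n)) → B := fun l =>
      match l with
      | Sum.inl _ => y ^ q
      | Sum.inr (b, j, i) => (1 - b.1 * x i) *
          Ring.inverse (1 - b.1 * (y + y ^ (j : ℕ) - y ^ ((j : ℕ) + 1)) * x i)
    obtain ⟨xn, hxn, hE⟩ := genE h.mul hG c γ (by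
      rintro (b | ⟨b, j, i⟩)
      · exact hun b.1 b.2
      · exact (hun b.1 b.2).mul (h.yu.pow _)) (by
      rintro (b | ⟨b, j, i⟩)
      · exact h.yq
      · exact pt_gamPU (hx i) _ _)
    have hflip : ∀ b ∈ P, ∃ b' : B, IsUnit b' ∧ (∀ i, F (1 - b' * x i) = F (1 - b * x i)) ∧
        F (1 - b' * xn) ≠ F (1 - b * xn) := by
      intro b hb
      obtain ⟨j, h1, h2, h3⟩ := flip h (hE (Sum.inl ⟨b, hb⟩))
      refine ⟨nb y b j xn, nb_unit h (hun b hb) hxn h1 h2, ?_, ?_⟩
      · intro i
        exact nb_other h hxn (hx i) j _ (pt_gamPU (hx i) b (b * (y + y ^ j - y ^ (j + 1))))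
          (pt_gam (hx i) b (b * (y + y ^ j - y ^ (j + 1)))) (hE (Sum.inr (⟨b, hb⟩, ⟨j, h2⟩, i)))
      · rw [nb_self h hxn]
        exact h3
    choose! g hg1 hg2 hg3 using hflip
    have hginj : ∀ b ∈ P, ∀ b' ∈ P, g b = g b' → b = b' := by
      intro b hb b' hb' he
      apply hinj b hb b' hb'
      intro i
      rw [← hg2 b hb i, ← hg2 b' hb' i, he]
    have hdisj : ∀ b ∈ P, g b ∉ P := by
      intro b hb hgb
      have h1 := hinj (g b) hgb b hb (hg2 b hb)
      apply hg3 b hb
      rw [h1]
    refine ⟨Fin.snoc x xn, ?_, P ∪ P.image g, ?_, ?_, ?_⟩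
    · intro i
      refine Fin.lastCases ?_ (fun i => ?_) i
      · rw [Fin.snoc_last]
        exact hxn
      · rw [Fin.snoc_castSucc]
        exact hx i
    · rw [Finset.card_union_of_disjoint, Finset.card_image_of_injOn, hcard, pow_succ]
      · ring
      · intro b hb b' hb' he
        exact hginj b hb b' hb' he
      · rw [Finset.disjoint_left]
        intro a ha ha'
        obtain ⟨b, hb, rfl⟩ := Finset.mem_image.1 ha'
        exact hdisj b hb ha
    · intro a ha
      rcases Finset.mem_union.1 ha with ha | ha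
      · exact hun a ha
      · obtain ⟨b, hb, rfl⟩ := Finset.mem_image.1 ha
        exact hg1 b hb
    · intro a ha a' ha' he
      have he1 : ∀ i : Fin n, F (1 - a * x i) = F (1 - a' * x i) := by
        intro i
        have := he i.castSucc
        rwa [Fin.snoc_castSucc] at this
      have he2 : F (1 - a * xn) = F (1 - a' * xn) := by
        have := he (Fin.last n)
        rwa [Fin.snoc_last] at this
      rcases Finset.mem_union.1 ha with ha | ha <;> rcases Finset.mem_union.1 ha' with ha' | ha'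
      · exact hinj a ha a' ha' he1
      · exfalso
        obtain ⟨b, hb, rfl⟩ := Finset.mem_image.1 ha'
        have h1 : a = b := hinj a ha b hb fun i => by rw [he1 i, hg2 b hb i]
        subst h1
        exact hg3 a hb he2.symm
      · exfalso
        obtain ⟨b, hb, rfl⟩ := Finset.mem_image.1 ha
        have h1 : b = a' := hinj b hb a' ha' fun i => by rw [← he1 i, hg2 b hb i]
        subst h1
        exact hg3 b hb he2
      · obtain ⟨b, hb, rfl⟩ := Finset.mem_image.1 ha
        obtain ⟨b', hb', rfl⟩ := Finset.mem_image.1 ha'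
        have h1 : b = b' := hinj b hb b' hb' fun i => by
          rw [← hg2 b hb i, ← hg2 b' hb' i, he1 i]
        rw [h1]

end Pool.Agent.Work.MP_ae9a8c_lc.FI
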