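import Pool.Agent.Work.MP_ae9a8c_lc.FI.Defs

/-!
MODULE TwoUp (M).  Maximal ideals of integral closures in a tower.

PROOF.  `f` induces an injective ring homomorphism `g : B = integralClosure O L → B' = integralClosure O L'` and `B'` is
integral over `B` (over `O`).  (max_over) lying over: every maximal ideal `M` of `B` is the contraction of a
maximal ideal of `B'` (`Ideal.exists_ideal_over_maximal_of_isIntegral` with `B'` as a `B`-algebra via `g`;
the kernel of `g` is `⊥`).  (max_under) the contraction of a maximal ideal is maximal
(`Ideal.isMaximal_comap_of_isIntegral_of_isMaximal`).  (two_up) the ideals above `M₁ ≠ M₂` are different.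
(pru_up) `f z` is in all maximal ideals of `B'` iff `z` is in all maximal ideals of `B` (with integrality:
`f z` integral over `O` iff `z` integral over `O`, `f` injective, `isIntegral_algHom_iff`).
-/

set_option autoImplicit false

namespace Pool.Agent.Work.MP_ae9a8c_lc.FI

private theorem TwoUp_int {K L L' : Type} [Field K] (O : ValuationSubring K) [Field L]
    [Algebra K L] [Field L'] [Algebra K L'] (f : L →ₐ[K] L') (z : L) :
    z ∈ integralClosure O L ↔ f z ∈ integralClosure O L' := by
  have h := isIntegral_algHom_iff (f.restrictScalars O) (x := z) f.toRingHom.injective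
  exact h.symm

private theorem TwoUp_over {K L L' : Type} [Field K] (O : ValuationSubring K) [Field L]
    [Algebra K L] [Field L'] [Algebra K L'] (f : L →ₐ[K] L')
    (M : Ideal (integralClosure O L)) (hM : M.IsMaximal) :
    ∃ Q : Ideal (integralClosure O L'), Q.IsMaximal ∧
      Q.comap (f.restrictScalars O).mapIntegralClosure.toRingHom = M := by
  let g := (f.restrictScalars O).mapIntegralClosure
  let _ : Algebra (integralClosure O L) (integralClosure O L') := g.toRingHom.toAlgebra
  have ht : IsScalarTower O (integralClosure O L) (integralClosure O L') :=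
    IsScalarTower.of_algebraMap_eq fun r => (g.commutes r).symm
  have hi : Algebra.IsIntegral (integralClosure O L) (integralClosure O L') :=
    Algebra.IsIntegral.tower_top O
  have hinj : Function.Injective g := by
    intro a b hab
    have h1 : f (a : L) = f (b : L) := congrArg (fun x : integralClosure O L' => (x : L')) hab
    exact Subtype.ext (f.toRingHom.injective h1)
  have hker : RingHom.ker (algebraMap (integralClosure O L) (integralClosure O L')) ≤ M := by
    have : RingHom.ker (algebraMap (integralClosure O L) (integralClosure O L')) = ⊥ :=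
      (RingHom.injective_iff_ker_eq_bot g.toRingHom).mp hinj
    rw [this]
    exact bot_le
  exact Ideal.exists_ideal_over_maximal_of_isIntegral M hker

private theorem TwoUp_under {K L L' : Type} [Field K] (O : ValuationSubring K) [Field L]
    [Algebra K L] [Field L'] [Algebra K L'] (f : L →ₐ[K] L')
    (Q : Ideal (integralClosure O L')) (hQ : Q.IsMaximal) :
    (Q.comap (f.restrictScalars O).mapIntegralClosure.toRingHom).IsMaximal := by
  let g := (f.restrictScalars O).mapIntegralClosure
  let _ : Algebra (integralClosure O L) (integralClosure O L') := g.toRingHom.toAlgebra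
  have ht : IsScalarTower O (integralClosure O L) (integralClosure O L') :=
    IsScalarTower.of_algebraMap_eq fun r => (g.commutes r).symm
  have hi : Algebra.IsIntegral (integralClosure O L) (integralClosure O L') :=
    Algebra.IsIntegral.tower_top O
  exact Ideal.isMaximal_comap_of_isIntegral_of_isMaximal Q

/-- An injection of the maximal ideals downstairs into those upstairs. -/
theorem max_inj {K L L' : Type} [Field K] (O : ValuationSubring K) [Field L] [Algebra K L]
    [Field L'] [Algebra K L'] (f : L →ₐ[K] L') :
    ∃ g : {M : Ideal (integralClosure O L) // M.IsMaximal} →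
      {M : Ideal (integralClosure O L') // M.IsMaximal}, Function.Injective g := by
  choose Q hQ hQM using fun M : {M : Ideal (integralClosure O L) // M.IsMaximal} =>
    TwoUp_over O f M.1 M.2
  refine ⟨fun M => ⟨Q M, hQ M⟩, ?_⟩
  intro M₁ M₂ h
  have h1 : Q M₁ = Q M₂ := congrArg Subtype.val h
  exact Subtype.ext (by rw [← hQM M₁, ← hQM M₂, h1])

theorem two_up {K L L' : Type} [Field K] (O : ValuationSubring K) [Field L] [Algebra K L]
    [Field L'] [Algebra K L'] (f : L →ₐ[K] L') (h : TwoMax O L) : TwoMax O L' := by
  obtain ⟨M₁, M₂, h₁, h₂, hne⟩ := h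
  obtain ⟨g, hg⟩ := max_inj O f
  refine ⟨(g ⟨M₁, h₁⟩).1, (g ⟨M₂, h₂⟩).1, (g ⟨M₁, h₁⟩).2, (g ⟨M₂, h₂⟩).2, ?_⟩
  intro he
  exact hne (congrArg Subtype.val (hg (Subtype.ext he)))

/-- The Jacobson radical downstairs is the contraction of the Jacobson radical upstairs. -/
theorem jac_up {K L L' : Type} [Field K] (O : ValuationSubring K) [Field L] [Algebra K L]
    [Field L'] [Algebra K L'] (f : L →ₐ[K] L') (z : L) :
    (∃ hz : z ∈ integralClosure O L, ∀ M : Ideal (integralClosure O L), M.IsMaximal →
      (⟨z, hz⟩ : integralClosure O L) ∈ M) ↔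
    ∃ hz : f z ∈ integralClosure O L', ∀ M : Ideal (integralClosure O L'), M.IsMaximal →
      (⟨f z, hz⟩ : integralClosure O L') ∈ M := by
  constructor
  · rintro ⟨hz, h⟩
    refine ⟨(TwoUp_int O f z).mp hz, fun Q hQ => ?_⟩
    exact h _ (TwoUp_under O f Q hQ)
  · rintro ⟨hz, h⟩
    refine ⟨(TwoUp_int O f z).mpr hz, fun M hM => ?_⟩
    obtain ⟨Q, hQ, hQM⟩ := TwoUp_over O f M hM
    rw [← hQM]
    exact h Q hQ

end Pool.Agent.Work.MP_ae9a8c_lc.FI
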